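import Mathlib
import Pool.Agent.K1H89.PL.A8

/-! Large degrees: primes in progressions at the scale `H n ^ d`, the triangular system with general shifts. -/

set_option autoImplicit false

namespace Pool.Agent.K1H89.LD

open Finset Filter
open Pool.Agent.K1H89.PL
open Pool.Agent.TH445.OI (evN ev_pow)

lemma one_dimL (A B : ℕ) : ∃ L0 : ℝ, ∀ d H n : ℕ, 2 ≤ n → 1 ≤ H → L0 ≤ Real.log H + d → ∀ q : ℕ, 1 ≤ q →
    (q : ℝ) ≤ (Real.log H + d) ^ B → ∀ (V : ℤ) (M : ℕ), |(V : ℝ)| ≤ (H * n ^ d : ℕ) * (Real.log H + d) ^ B →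
    |(V : ℝ) + q * M| ≤ (H * n ^ d : ℕ) * (Real.log H + d) ^ B →
    |∑ t ∈ range M, th (V + q * t) -
      (if IsCoprime V (q : ℤ) then (q : ℝ) / (Nat.totient q : ℝ) * M else 0)| ≤ (H * n ^ d : ℕ) / (Real.log H + d) ^ A := by
  obtain ⟨H0, h0⟩ := one_dim (A + 1) (B + 1)
  refine ⟨max (max (2 * 2 ^ A) (2 * 2 ^ B)) (2 * Real.log (H0 + 1)), fun d H n hn hH hL q hq hqB V M hV hVM => ?_⟩
  set L := Real.log H + d with hLd
  obtain ⟨Y, hY⟩ : ∃ Y : ℕ, Y = H * n ^ d := ⟨_, rfl⟩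
  rw [← hY] at hV hVM ⊢
  have hn0 : (0 : ℝ) < n := by exact_mod_cast (by omega : 0 < n)
  have hH0 : (0 : ℝ) < H := by exact_mod_cast hH
  have hlogH : 0 ≤ Real.log H := Real.log_nonneg (by exact_mod_cast hH)
  have hlogn : 1 / 2 ≤ Real.log n := by
    have h1 : Real.log 2 ≤ Real.log n := Real.log_le_log (by norm_num) (by exact_mod_cast hn)
    have h2 := Real.log_two_gt_d9
    linarith
  have hlY : Real.log Y = Real.log H + d * Real.log n := by
    rw [hY]
    push_cast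
    rw [Real.log_mul hH0.ne' (by positivity), Real.log_pow]
  set l := Real.log Y with hl
  have hd0 : (0 : ℝ) ≤ d := Nat.cast_nonneg _
  have hlL : L ≤ 2 * l := by
    rw [hlY, hLd]
    nlinarith
  have hLA : 2 * 2 ^ A ≤ L := (le_max_left _ _).trans ((le_max_left _ _).trans hL)
  have hLB : 2 * 2 ^ B ≤ L := (le_max_right _ _).trans ((le_max_left _ _).trans hL)
  have hL3 : 2 * Real.log (H0 + 1) ≤ L := (le_max_right _ _).trans hL
  have h2A : (1 : ℝ) ≤ 2 ^ A := one_le_pow₀ (by norm_num)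
  have hL0 : 0 < L := by linarith
  have hl0 : 0 < l := by linarith
  have hpB : L ^ B ≤ l ^ (B + 1) := by
    calc L ^ B ≤ (2 * l) ^ B := pow_le_pow_left₀ hL0.le hlL _
      _ = 2 ^ B * l ^ B := by rw [mul_pow]
      _ ≤ l * l ^ B := by
          have : (2 : ℝ) ^ B ≤ l := by linarith
          gcongr
      _ = l ^ (B + 1) := by ring
  have hpA : L ^ A ≤ l ^ (A + 1) := by
    calc L ^ A ≤ (2 * l) ^ A := pow_le_pow_left₀ hL0.le hlL _
      _ = 2 ^ A * l ^ A := by rw [mul_pow]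
      _ ≤ l * l ^ A := by
          have : (2 : ℝ) ^ A ≤ l := by linarith
          gcongr
      _ = l ^ (A + 1) := by ring
  have hY0 : (0 : ℝ) < Y := by
    by_contra hcon
    have : (Y : ℝ) = 0 := le_antisymm (not_lt.1 hcon) (Nat.cast_nonneg _)
    rw [hl, this, Real.log_zero] at hl0
    exact lt_irrefl _ hl0
  have hYH : H0 ≤ Y := by
    by_contra hcon
    push Not at hcon
    have h1 : (Y : ℝ) < H0 + 1 := by
      have : (Y : ℝ) < H0 := by exact_mod_cast hcon
      linarith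
    have h2 := Real.log_lt_log hY0 h1
    linarith
  have hYn : (0 : ℝ) ≤ Y := hY0.le
  have h := h0 Y hYH q hq (hqB.trans hpB) V M (hV.trans (by gcongr)) (hVM.trans (by gcongr))
  refine h.trans ?_
  gcongr

/-- the triangular system with general shifts -/
lemma tri2 (R : ℕ) (ρ Λ e : ℝ) (hρ : 0 ≤ ρ) (hρΛ : ρ ≤ Λ) (he : 0 ≤ e) :
    ∀ (k : ℕ) (M : Fin k → ℕ) (X : Fin k → ℝ) (c : Fin k → ℤ) (F : Fin k → Fin k → ℕ → ℤ) (b : Fin k → Fin k → ℝ)
      (V : Fin k → ℤ),
    (∀ j (x : ℤ), |(x : ℝ)| ≤ X j → th x ≤ Λ) →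
    (∀ j i, j < i → ∀ t, F j i t = 0) → (∀ j t, F j j t = c j * (t : ℤ)) →
    (∀ j i t, t ≤ M i → |((F j i t : ℤ) : ℝ)| ≤ b j i) →
    (∀ j (x : ℤ), |(x : ℝ)| ≤ X j → |(x : ℝ) + R * c j * M j| ≤ X j →
      |∑ t ∈ range (M j), th (x + R * c j * t) - mt R (ρ * M j) x| ≤ e * M j) →
    (∀ j, |((V j : ℤ) : ℝ)| + R * (∑ i, b j i) ≤ X j) →
    |∑ t : (∀ i : Fin k, Fin (M i)), ∏ j, th (V j + R * ∑ i, F j i (t i : ℕ)) - ∏ j, mt R (ρ * M j) (V j)| ≤
      k * e * Λ ^ (k - 1) * ∏ j, (M j : ℝ) := by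
  have hΛ : 0 ≤ Λ := hρ.trans hρΛ
  intro k
  induction k with
  | zero =>
    intro M X c F b V _ _ _ _ _ _
    simp
  | succ k ih =>
    intro M X c F b V hth hF0 hFd hFb hone hV
    have hb0 : ∀ j i, 0 ≤ b j i := fun j i => (abs_nonneg _).trans (hFb j i 0 (Nat.zero_le _))
    -- the sum over the first variable
    have hsplit : ∑ t : (∀ i : Fin (k + 1), Fin (M i)), ∏ j, th (V j + R * ∑ i, F j i (t i : ℕ)) =
        ∑ t₀ : Fin (M 0), th (V 0 + R * c 0 * (t₀ : ℕ)) * ∑ t' : (∀ i : Fin k, Fin (M i.succ)),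
          ∏ j : Fin k, th ((V j.succ + R * F j.succ 0 (t₀ : ℕ)) +
            R * ∑ i : Fin k, F j.succ i.succ (t' i : ℕ)) := by
      rw [← (Fin.consEquiv (fun i : Fin (k + 1) => Fin (M i))).sum_comp, Fintype.sum_prod_type]
      apply sum_congr rfl
      intro t₀ _
      rw [mul_sum]
      apply sum_congr rfl
      intro t' _
      rw [Fin.prod_univ_succ]
      congr 1
      · congr 1
        rw [Fin.sum_univ_succ]
        have : ∑ i : Fin k, F 0 i.succ (((Fin.consEquiv (fun i : Fin (k + 1) => Fin (M i))) (t₀, t') i.succ : ℕ)) = 0 := by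
          apply sum_eq_zero
          intro i _
          exact hF0 0 i.succ (Fin.succ_pos i) _
        rw [this, hFd]
        simp [Fin.consEquiv]
        ring
      · apply prod_congr rfl
        intro j _
        congr 1
        rw [Fin.sum_univ_succ]
        simp [Fin.consEquiv]
        ring
    rw [hsplit, Fin.prod_univ_succ, Fin.prod_univ_succ (fun j => (M j : ℝ))]
    set m' : ℝ := ∏ j : Fin k, mt R (ρ * M j.succ) (V j.succ) with hm'
    set P' : ℝ := ∏ j : Fin k, (M j.succ : ℝ) with hP'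
    have hP'0 : 0 ≤ P' := prod_nonneg fun _ _ => Nat.cast_nonneg _
    have hρM : ∀ j : Fin k, 0 ≤ ρ * (M j.succ : ℝ) := fun j => by positivity
    have hm'0 : 0 ≤ m' := prod_nonneg fun j _ => mt_nonneg R (hρM j) _
    have hm'1 : m' ≤ Λ ^ k * P' := by
      have : m' ≤ ∏ j : Fin k, (Λ * M j.succ) := by
        apply Finset.prod_le_prod (fun j _ => mt_nonneg R (hρM j) _)
        intro j _
        exact (mt_le R (hρM j) _).trans (by gcongr)
      rw [prod_mul_distrib, prod_const, card_univ, Fintype.card_fin] at this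
      exact this
    have hX0 : ∀ t₀ : Fin (M 0), |((V 0 + R * c 0 * (t₀ : ℕ) : ℤ) : ℝ)| ≤ X 0 := by
      intro t₀
      refine le_trans ?_ (hV 0)
      have h1 := hFb 0 0 t₀ t₀.2.le
      rw [hFd] at h1
      have h2 : b 0 0 ≤ ∑ i, b 0 i := single_le_sum (f := fun i => b 0 i) (fun i _ => hb0 0 i) (mem_univ 0)
      push_cast at h1 ⊢
      refine (abs_add_le _ _).trans ?_
      have h3 : |(R : ℝ) * (c 0 : ℝ) * ((t₀ : ℕ) : ℝ)| = R * |(c 0 : ℝ) * ((t₀ : ℕ) : ℝ)| := by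
        rw [mul_assoc, abs_mul, Nat.abs_cast]
      rw [h3]
      have h4 : |(c 0 : ℝ) * ((t₀ : ℕ) : ℝ)| ≤ ∑ i, b 0 i := h1.trans h2
      gcongr
    have hinner : ∀ t₀ : Fin (M 0), |∑ t' : (∀ i : Fin k, Fin (M i.succ)),
          ∏ j : Fin k, th ((V j.succ + R * F j.succ 0 (t₀ : ℕ)) +
            R * ∑ i : Fin k, F j.succ i.succ (t' i : ℕ)) - m'| ≤ k * e * Λ ^ (k - 1) * P' := by
      intro t₀
      have h := ih (fun i => M i.succ) (fun i => X i.succ) (fun i => c i.succ) (fun j i => F j.succ i.succ)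
        (fun j i => b j.succ i.succ) (fun j => V j.succ + R * F j.succ 0 (t₀ : ℕ))
        (fun j x hx => hth j.succ x hx)
        (fun j i hji => hF0 _ _ (Fin.succ_lt_succ_iff.2 hji)) (fun j t => hFd j.succ t)
        (fun j i t ht => hFb j.succ i.succ t ht)
        (fun j x h1 h2 => hone j.succ x h1 h2) ?_
      · simp only [mt_add] at h
        exact h
      · intro j
        refine le_trans ?_ (hV j.succ)
        rw [Fin.sum_univ_succ]
        push_cast
        have h3 : |((V j.succ : ℤ) : ℝ) + R * ((F j.succ 0 (t₀ : ℕ) : ℤ) : ℝ)| ≤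
            |((V j.succ : ℤ) : ℝ)| + R * b j.succ 0 := by
          refine (abs_add_le _ _).trans ?_
          rw [abs_mul, Nat.abs_cast]
          have := hFb j.succ 0 t₀ t₀.2.le
          gcongr
        refine (add_le_add_left h3 _).trans (le_of_eq ?_)
        ring
    have hsum0 : |∑ t₀ : Fin (M 0), th (V 0 + R * c 0 * (t₀ : ℕ)) - mt R (ρ * M 0) (V 0)| ≤ e * M 0 := by
      have h2 : b 0 0 ≤ ∑ i, b 0 i := single_le_sum (f := fun i => b 0 i) (fun i _ => hb0 0 i) (mem_univ 0)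
      have hs0 : 0 ≤ ∑ i, b 0 i := sum_nonneg fun i _ => hb0 0 i
      have h1 := hone 0 (V 0) ?_ ?_
      · rw [← Fin.sum_univ_eq_sum_range (fun t : ℕ => th (V 0 + R * c 0 * (t : ℕ))) (M 0)] at h1
        exact h1
      · refine le_trans ?_ (hV 0)
        have : 0 ≤ (R : ℝ) * ∑ i, b 0 i := by positivity
        linarith
      · refine le_trans ?_ (hV 0)
        refine (abs_add_le _ _).trans ?_
        have h3 := hFb 0 0 (M 0) le_rfl
        rw [hFd] at h3
        push_cast at h3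
        have h4 : |(R : ℝ) * (c 0 : ℝ) * (M 0 : ℝ)| = R * |(c 0 : ℝ) * (M 0 : ℝ)| := by
          rw [mul_assoc, abs_mul, Nat.abs_cast]
        rw [h4]
        have h5 := h3.trans h2
        gcongr
    set S : Fin (M 0) → ℝ := fun t₀ => ∑ t' : (∀ i : Fin k, Fin (M i.succ)),
          ∏ j : Fin k, th ((V j.succ + R * F j.succ 0 (t₀ : ℕ)) +
            R * ∑ i : Fin k, F j.succ i.succ (t' i : ℕ)) with hS
    have hident : ∑ t₀ : Fin (M 0), th (V 0 + R * c 0 * (t₀ : ℕ)) * S t₀ - mt R (ρ * M 0) (V 0) * m' =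
        (∑ t₀ : Fin (M 0), th (V 0 + R * c 0 * (t₀ : ℕ)) - mt R (ρ * M 0) (V 0)) * m' +
        ∑ t₀ : Fin (M 0), th (V 0 + R * c 0 * (t₀ : ℕ)) * (S t₀ - m') := by
      simp only [mul_sub, sum_sub_distrib, ← sum_mul]
      ring
    rw [hident]
    refine (abs_add_le _ _).trans ?_
    have hA : |(∑ t₀ : Fin (M 0), th (V 0 + R * c 0 * (t₀ : ℕ)) - mt R (ρ * M 0) (V 0)) * m'| ≤
        e * M 0 * (Λ ^ k * P') := by
      rw [abs_mul, abs_of_nonneg hm'0]
      exact mul_le_mul hsum0 hm'1 hm'0 (by positivity)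
    have hB : |∑ t₀ : Fin (M 0), th (V 0 + R * c 0 * (t₀ : ℕ)) * (S t₀ - m')| ≤ k * e * Λ ^ k * (M 0 * P') := by
      refine (abs_sum_le_sum_abs _ _).trans ?_
      have h1 : ∀ t₀ ∈ (univ : Finset (Fin (M 0))), |th (V 0 + R * c 0 * (t₀ : ℕ)) * (S t₀ - m')| ≤
          Λ * (k * e * Λ ^ (k - 1) * P') := by
        intro t₀ _
        rw [abs_mul, abs_of_nonneg (th_nonneg _)]
        exact mul_le_mul (hth 0 _ (hX0 t₀)) (hinner t₀) (abs_nonneg _) hΛ
      refine (sum_le_sum h1).trans ?_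
      rw [sum_const, card_univ, Fintype.card_fin, nsmul_eq_mul]
      rcases Nat.eq_zero_or_pos k with hk | hk
      · subst hk
        simp
      · obtain ⟨k', rfl⟩ : ∃ k', k = k' + 1 := ⟨k - 1, by omega⟩
        apply le_of_eq
        simp only [Nat.add_sub_cancel]
        ring
    push_cast
    calc _ ≤ e * M 0 * (Λ ^ k * P') + k * e * Λ ^ k * (M 0 * P') := add_le_add hA hB
      _ = ((k : ℝ) + 1) * e * Λ ^ (k + 1 - 1) * (M 0 * P') := by
          rw [Nat.add_sub_cancel]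
          ring

end Pool.Agent.K1H89.LD
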