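import Mathlib
import Pool.Agent.K1H89.LD.B1

/-! Shifts by digits. -/

set_option autoImplicit false

namespace Pool.Agent.K1H89.LD

open Finset Polynomial
open Pool.Agent.K1H89.PL

/-- the digits of `t` in base `n`, the last one unbounded -/
def dgc (n D t l : ℕ) : ℕ := if l < D then (t / n ^ l) % n else if l = D then t / n ^ D else 0

lemma dg_sum (n t : ℕ) : ∀ D : ℕ, ∑ l ∈ range (D + 1), dgc n D t l * n ^ l = t := by
  intro D
  rw [sum_range_succ]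
  have e1 : ∑ l ∈ range D, dgc n D t l * n ^ l = ∑ l ∈ range D, (t / n ^ l) % n * n ^ l := by
    apply sum_congr rfl
    intro l hl
    rw [mem_range] at hl
    unfold dgc
    rw [if_pos hl]
  have e2 : dgc n D t D = t / n ^ D := by
    unfold dgc
    rw [if_neg (lt_irrefl _), if_pos rfl]
  rw [e1, e2]
  induction D with
  | zero => simp
  | succ D ih =>
    rw [sum_range_succ]
    have e3 : (t / n ^ D) % n * n ^ D + t / n ^ (D + 1) * n ^ (D + 1) = t / n ^ D * n ^ D := by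
      have h := Nat.mod_add_div (t / n ^ D) n
      have h2 : t / n ^ (D + 1) = t / n ^ D / n := by rw [pow_succ, Nat.div_div_eq_div_mul]
      rw [h2]
      calc (t / n ^ D) % n * n ^ D + t / n ^ D / n * n ^ (D + 1) = ((t / n ^ D) % n + n * (t / n ^ D / n)) * n ^ D := by ring
        _ = t / n ^ D * n ^ D := by rw [h]
    have ih' := ih (by
      apply sum_congr rfl
      intro l hl
      rw [mem_range] at hl
      unfold dgc
      rw [if_pos hl]) (by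
      unfold dgc
      rw [if_neg (lt_irrefl _), if_pos rfl])
    rw [add_assoc, e3]
    exact ih'

lemma dgc_le (n D t l Q : ℕ) (hn : 1 ≤ n) (hnQ : n ≤ Q) (ht : t ≤ Q * n ^ D) : dgc n D t l ≤ Q := by
  unfold dgc
  split_ifs with h1 h2
  · exact (Nat.mod_lt _ hn).le.trans hnQ
  · exact Nat.div_le_of_le_mul (by rw [mul_comm]; exact ht)
  · exact Nat.zero_le _

/-- the polynomial of the digits -/
noncomputable def dgp (n D t : ℕ) : ℤ[X] := ∑ l ∈ range (D + 1), C ((dgc n D t l : ℕ) : ℤ) * X ^ l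

lemma dgp_coeff (n D t m : ℕ) : (dgp n D t).coeff m = ((dgc n D t m : ℕ) : ℤ) := by
  unfold dgp
  rw [finsetSum_coeff]
  simp only [coeff_C_mul, coeff_X_pow]
  by_cases hm : m ≤ D
  · rw [sum_eq_single m]
    · simp
    · intro l _ hl
      rw [if_neg (Ne.symm hl), mul_zero]
    · intro h
      rw [mem_range] at h
      omega
  · rw [sum_eq_zero]
    · unfold dgc
      rw [if_neg (by omega), if_neg (by omega)]
      rfl
    · intro l hl
      rw [mem_range] at hl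
      rw [if_neg (by omega), mul_zero]

lemma dgp_deg (n D t : ℕ) : (dgp n D t).natDegree ≤ D := by
  rw [natDegree_le_iff_coeff_eq_zero]
  intro m hm
  rw [dgp_coeff]
  unfold dgc
  rw [if_neg (by omega), if_neg (by omega)]
  rfl

lemma dgp_eval (n D t : ℕ) (x : ℤ) : (dgp n D t).eval x = ∑ l ∈ range (D + 1), ((dgc n D t l : ℕ) : ℤ) * x ^ l := by
  unfold dgp
  rw [eval_finsetSum]
  simp

lemma dgp_self (n D t : ℕ) : (dgp n D t).eval (n : ℤ) = t := by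
  rw [dgp_eval]
  have := dg_sum n t D
  exact_mod_cast this

lemma dgp_eval_le (n D t Q x : ℕ) (hn : 1 ≤ n) (hnQ : n ≤ Q) (ht : t ≤ Q * n ^ D) (hx : 1 ≤ x) :
    |(((dgp n D t).eval (x : ℤ) : ℤ) : ℝ)| ≤ (D + 1) * (Q * (x : ℝ) ^ D) := by
  rw [dgp_eval]
  push_cast
  refine (abs_sum_le_sum_abs _ _).trans ?_
  have hx1 : (1 : ℝ) ≤ x := by exact_mod_cast hx
  calc ∑ l ∈ range (D + 1), |((dgc n D t l : ℕ) : ℝ) * (x : ℝ) ^ l| ≤ ∑ _l ∈ range (D + 1), (Q * (x : ℝ) ^ D) := by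
        apply sum_le_sum
        intro l hl
        rw [mem_range] at hl
        rw [abs_of_nonneg (by positivity)]
        have h1 : ((dgc n D t l : ℕ) : ℝ) ≤ Q := by exact_mod_cast dgc_le n D t l Q hn hnQ ht
        have h2 : (x : ℝ) ^ l ≤ (x : ℝ) ^ D := pow_le_pow_right₀ hx1 (by omega)
        gcongr
    _ = (D + 1) * (Q * (x : ℝ) ^ D) := by
        rw [sum_const, card_range, nsmul_eq_mul]
        push_cast
        ring

/-- the polynomial of the shift attached to `t` -/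
noncomputable def shp {k : ℕ} (n : Fin k → ℕ) (R D : ℕ) (t : Fin k → ℕ) : ℤ[X] :=
  C (R : ℤ) * ∑ i, dgp (n i) D (t i) * NP n i

/-- the shift attached to `t` -/
noncomputable def sh2 {k : ℕ} (d : ℕ) (n : Fin k → ℕ) (R D : ℕ) (t : Fin k → ℕ) : Fin (d + 1) → ℤ :=
  fun j => (shp n R D t).coeff j

lemma shp_deg {k d : ℕ} (hk : k ≤ d + 1) (n : Fin k → ℕ) (R : ℕ) (t : Fin k → ℕ) :
    (shp n R (d + 1 - k) t).natDegree < d + 1 := by
  unfold shp
  refine lt_of_le_of_lt (natDegree_C_mul_le _ _) (Nat.lt_succ_of_le ?_)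
  apply natDegree_sum_le_of_forall_le
  intro i _
  refine natDegree_mul_le.trans ?_
  have h1 := dgp_deg (n i) (d + 1 - k) (t i)
  have h2 := NP_deg n i
  omega

lemma shp_eval {k : ℕ} (n : Fin k → ℕ) (R D : ℕ) (t : Fin k → ℕ) (x : ℤ) :
    (shp n R D t).eval x = R * ∑ i, (dgp (n i) D (t i)).eval x * (NP n i).eval x := by
  unfold shp
  rw [eval_mul, eval_C, eval_finsetSum]
  simp only [eval_mul]

lemma pv_sh2 {k d : ℕ} (hk : k ≤ d + 1) (v : ℕ → ℤ) (a : Fin (d + 1) → ℤ) (n : Fin k → ℕ) (R : ℕ)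
    (t : Fin k → ℕ) (x : ℕ) :
    pv v (a + sh2 d n R (d + 1 - k) t) x =
      pv v a x + R * ∑ i, (dgp (n i) (d + 1 - k) (t i)).eval (x : ℤ) * (NP n i).eval (x : ℤ) := by
  unfold pv sh2
  simp only [Pi.add_apply, add_mul, sum_add_distrib]
  rw [add_assoc]
  congr 2
  rw [← shp_eval, eval_eq_sum_range' (shp_deg hk n R t),
    Fin.sum_univ_eq_sum_range (fun j => (shp n R (d + 1 - k) t).coeff j * (x : ℤ) ^ j)]

lemma NP_coeff_le {k : ℕ} (n : Fin k → ℕ) (i : Fin k) (N : ℝ) (hN : 0 ≤ N) (hx : ∀ i, (n i : ℝ) ≤ N) (m : ℕ) :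
    |(((NP n i).coeff m : ℤ) : ℝ)| ≤ (1 + N) ^ k := by
  refine (coeff_prod_le (univ.filter (fun l => l < i)) n N hN (fun l _ => hx l) m).trans ?_
  apply pow_le_pow_right₀ (by linarith)
  simpa using card_le_univ (univ.filter (fun l : Fin k => l < i))

lemma sh2_bound {k d : ℕ} (n : Fin k → ℕ) (R D Q : ℕ) (t : Fin k → ℕ) (N : ℝ) (hN : 0 ≤ N)
    (hx : ∀ i, (n i : ℝ) ≤ N) (hn : ∀ i, 1 ≤ n i) (hnQ : ∀ i, n i ≤ Q) (ht : ∀ i, t i ≤ Q * n i ^ D) (j : Fin (d + 1)) :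
    |((sh2 d n R D t j : ℤ) : ℝ)| ≤ R * (k * ((d + 1) * (Q * (1 + N) ^ k))) := by
  unfold sh2 shp
  rw [coeff_C_mul, finsetSum_coeff]
  push_cast
  rw [abs_mul, Nat.abs_cast]
  gcongr
  refine (abs_sum_le_sum_abs _ _).trans ?_
  have h1 : ∀ i ∈ (univ : Finset (Fin k)), |(((dgp (n i) D (t i) * NP n i).coeff j : ℤ) : ℝ)| ≤ (d + 1) * (Q * (1 + N) ^ k) := by
    intro i _
    rw [coeff_mul]
    push_cast
    refine (abs_sum_le_sum_abs _ _).trans ?_
    have h2 : ∀ x ∈ antidiagonal (j : ℕ), |(((dgp (n i) D (t i)).coeff x.1 : ℤ) : ℝ) * (((NP n i).coeff x.2 : ℤ) : ℝ)| ≤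
        Q * (1 + N) ^ k := by
      intro x _
      rw [abs_mul, dgp_coeff]
      have h3 := NP_coeff_le n i N hN hx x.2
      have h4 : |(((dgc (n i) D (t i) x.1 : ℕ) : ℤ) : ℝ)| ≤ Q := by
        rw [Int.cast_natCast, Nat.abs_cast]
        exact_mod_cast dgc_le (n i) D (t i) x.1 Q (hn i) (hnQ i) (ht i)
      gcongr
    refine (sum_le_sum h2).trans ?_
    rw [sum_const, Nat.card_antidiagonal, nsmul_eq_mul]
    have h5 : (((j : ℕ) + 1 : ℕ) : ℝ) ≤ d + 1 := by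
      have : (j : ℕ) + 1 ≤ d + 1 := by have := j.2; omega
      exact_mod_cast this
    gcongr
  refine (sum_le_sum h1).trans (le_of_eq ?_)
  rw [sum_const, card_univ, Fintype.card_fin, nsmul_eq_mul]

/-- the combination of the two error terms -/
lemma avg_core2 {d k H W Q : ℕ} (hk : k ≤ d + 1) (hW : 1 ≤ W) (hWH : W ≤ H) (hQ : 1 ≤ Q) (v : ℕ → ℤ)
    (g : Fin (d + 1) → ℤ) (n : Fin k → ℕ) (hn : StrictMono n) (hn1 : ∀ i, 1 ≤ n i) (hnQ : ∀ i, n i ≤ Q)
    (P X : Fin k → ℝ) (N Λ e : ℝ) (hN : 1 ≤ N)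
    (hx : ∀ i, (n i : ℝ) ≤ N) (hv : ∀ i, |((v (n i) : ℤ) : ℝ)| ≤ P i)
    (hΛ : ∀ j, ∀ x : ℤ, |(x : ℝ)| ≤ X j → th x ≤ Λ) (hρ : rho (W * Dl n) ≤ Λ) (he : 0 ≤ e)
    (hone : ∀ j, ∀ q : ℕ, 1 ≤ q → q ∣ W * Dl n → ∀ x : ℤ, |(x : ℝ)| ≤ X j →
      |(x : ℝ) + ((W * Dl n * q : ℕ) : ℝ) * ((Q * n j ^ (d + 1 - k) : ℕ) : ℝ)| ≤ X j →
      |∑ t ∈ range (Q * n j ^ (d + 1 - k)), th (x + ((W * Dl n * q : ℕ) : ℤ) * t) -
        mt (W * Dl n) (rho (W * Dl n) * ((Q * n j ^ (d + 1 - k) : ℕ) : ℝ)) x| ≤ e * ((Q * n j ^ (d + 1 - k) : ℕ) : ℝ))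
    (hX : ∀ j, (P j + (d + 1) * (H * (n j : ℝ) ^ d)) + ((W * Dl n : ℕ) : ℝ) *
      (k * ((((d + 1 - k : ℕ) : ℝ) + 1) * (Q * (n j : ℝ) ^ (d + 1 - k)) * N ^ k)) ≤ X j) :
    |∑ a ∈ box d H W g, Ph v n a - ∑ a ∈ box d H W g, ∏ j, mt (W * Dl n) (rho (W * Dl n)) (pv v a (n j))| ≤
      (Λ ^ k * (((d : ℝ) + 1) * ((((W * Dl n : ℕ) : ℝ) * (k * ((d + 1) * (Q * (1 + N) ^ k))) + W) / H)) +
        k * e * Λ ^ (k - 1)) * (box d H W g).card := by
  set R := W * Dl n with hR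
  obtain ⟨D, hD⟩ : ∃ D, D = d + 1 - k := ⟨_, rfl⟩
  rw [← hD] at hone hX
  have hR1 : 1 ≤ R := Nat.mul_pos hW (Dl_pos n hn)
  have hρ1 := rho_ge hR1
  have hρ0 : 0 ≤ rho R := by linarith
  have hΛ0 : 0 ≤ Λ := by linarith
  set B := box d H W g with hB
  set M : Fin k → ℕ := fun i => Q * n i ^ D with hM
  have hMpos : ∀ i, 0 < M i := fun i => Nat.mul_pos hQ (pow_pos (hn1 i) _)
  have hNP : ∀ i j, |(((NP n i).eval ((n j : ℕ) : ℤ) : ℤ) : ℝ)| ≤ N ^ k := fun i j => NP_eval_le n i j N hN hx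
  have hb : ∀ j i t, t ≤ M i → |(((dgp (n i) D t).eval (n j : ℤ) * (NP n i).eval (n j : ℤ) : ℤ) : ℝ)| ≤
      ((D : ℝ) + 1) * (Q * (n j : ℝ) ^ D) * N ^ k := by
    intro j i t ht
    push_cast
    rw [abs_mul]
    have h1 := dgp_eval_le (n i) D t Q (n j) (hn1 i) (hnQ i) ht (hn1 j)
    have h2 := hNP i j
    gcongr
  -- values after the shift
  have hval0 : ∀ a ∈ B, ∀ j, |((pv v a (n j) : ℤ) : ℝ)| ≤ P j + (d + 1) * (H * (n j : ℝ) ^ d) := by
    intro a ha j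
    exact pv_bound v a H (n j) (n j) (P j) (by exact_mod_cast hn1 j) le_rfl (hv j) (mem_box_abs ha)
  have hval : ∀ a ∈ B, ∀ t : (∀ i : Fin k, Fin (M i)), ∀ j,
      |((pv v (a + sh2 d n R D (fun i => (t i : ℕ))) (n j) : ℤ) : ℝ)| ≤ X j := by
    intro a ha t j
    rw [hD, pv_sh2 hk, ← hD]
    push_cast
    refine (abs_add_le _ _).trans (le_trans (add_le_add (hval0 a ha j) ?_) (hX j))
    rw [abs_mul, Nat.abs_cast]
    gcongr
    refine (abs_sum_le_sum_abs _ _).trans ?_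
    have h1 : ∀ i ∈ (univ : Finset (Fin k)), |(((dgp (n i) D (t i : ℕ)).eval ((n j : ℕ) : ℤ) : ℤ) : ℝ) *
        (((NP n i).eval ((n j : ℕ) : ℤ) : ℤ) : ℝ)| ≤ ((D : ℝ) + 1) * (Q * (n j : ℝ) ^ D) * N ^ k := by
      intro i _
      have := hb j i (t i) (t i).2.le
      push_cast at this
      exact this
    refine (sum_le_sum h1).trans (le_of_eq ?_)
    rw [sum_const, card_univ, Fintype.card_fin, nsmul_eq_mul]
  have hX0 : ∀ a ∈ B, ∀ j, |((pv v a (n j) : ℤ) : ℝ)| ≤ X j := by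
    intro a ha j
    refine (hval0 a ha j).trans (le_trans ?_ (hX j))
    have : 0 ≤ (R : ℝ) * (k * (((D : ℝ) + 1) * (Q * (n j : ℝ) ^ D) * N ^ k)) := by positivity
    linarith
  have hPh : ∀ a : Fin (d + 1) → ℤ, (∀ j, |((pv v a (n j) : ℤ) : ℝ)| ≤ X j) → Ph v n a ≤ Λ ^ k := by
    intro a ha
    unfold Ph
    calc ∏ j, th (pv v a (n j)) ≤ ∏ _j : Fin k, Λ := prod_le_prod (fun _ _ => th_nonneg _) fun j _ => hΛ j _ (ha j)
      _ = Λ ^ k := by simp
  set U : ℝ := (R : ℝ) * (k * ((d + 1) * (Q * (1 + N) ^ k))) with hU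
  set S0 : ℝ := ∑ a ∈ B, Ph v n a with hS0
  set e1 : ℝ := Λ ^ k * (((d : ℝ) + 1) * ((U + W) / H) * B.card) with he1
  -- shifts
  have hshift : ∀ t : (∀ i : Fin k, Fin (M i)), |∑ a ∈ B, Ph v n (a + sh2 d n R D (fun i => (t i : ℕ))) - S0| ≤ e1 := by
    intro t
    apply box_shift d H W g (sh2 d n R D (fun i => (t i : ℕ))) U (Λ ^ k) hW hWH
    · intro j
      exact sh2_bound n R D Q _ N (by linarith) hx hn1 hnQ (fun i => (t i).2.le) j
    · intro j
      unfold sh2 shp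
      rw [coeff_C_mul, hR]
      push_cast
      exact (dvd_mul_right _ _).mul_right _
    · exact fun a => Ph_nonneg v n a
    · exact fun a ha => hPh a (hX0 a ha)
    · exact fun a ha => hPh _ (hval a ha t)
  -- the sum over t
  have htri : ∀ a ∈ B, |∑ t : (∀ i : Fin k, Fin (M i)), Ph v n (a + sh2 d n R D (fun i => (t i : ℕ))) -
      ∏ j, mt R (rho R * M j) (pv v a (n j))| ≤ k * e * Λ ^ (k - 1) * ∏ j, (M j : ℝ) := by
    intro a ha
    have h := tri2 R (rho R) Λ e hρ0 hρ he k M X (fun j => (NP n j).eval (n j : ℤ))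
      (fun j i t => (dgp (n i) D t).eval (n j : ℤ) * (NP n i).eval (n j : ℤ))
      (fun j _ => ((D : ℝ) + 1) * (Q * (n j : ℝ) ^ D) * N ^ k) (fun j => pv v a (n j)) hΛ
      (fun j i hji t => by rw [NP_zero n hji, mul_zero]) (fun j t => by rw [dgp_self, mul_comm]) hb ?_ ?_
    · have e : ∀ t : (∀ i : Fin k, Fin (M i)), Ph v n (a + sh2 d n R D (fun i => (t i : ℕ))) =
          ∏ j, th (pv v a (n j) + R * ∑ i, (dgp (n i) D (t i : ℕ)).eval (n j : ℤ) * (NP n i).eval (n j : ℤ)) := by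
        intro t
        unfold Ph
        apply prod_congr rfl
        intro j _
        rw [hD, pv_sh2 hk]
      simp only [e]
      exact h
    · intro j x h1 h2
      have hd := NP_diag n hn j
      have hMj : ((M j : ℕ) : ℝ) = ((Q * n j ^ D : ℕ) : ℝ) := rfl
      have hMj2 : M j = Q * n j ^ D := rfl
      have h3 := hone j _ (diag_pos n hn j) ((diag_dvd n j).mul_left W) x h1 (by
        refine le_trans (le_of_eq ?_) h2
        rw [hd, hMj]
        push_cast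
        ring_nf)
      refine le_trans (le_of_eq ?_) h3
      rw [hd, hMj, hMj2]
      push_cast
      rfl
    · intro j
      refine le_trans ?_ (hX j)
      rw [sum_const, card_univ, Fintype.card_fin, nsmul_eq_mul]
      have := hval0 a ha j
      gcongr
  -- conclusion
  set Mk : ℝ := ∏ j, (M j : ℝ) with hMk
  have hMk0 : 0 < Mk := prod_pos fun j _ => by exact_mod_cast hMpos j
  have hcardt : ((univ : Finset (∀ i : Fin k, Fin (M i))).card : ℝ) = Mk := by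
    rw [card_univ, Fintype.card_pi]
    simp [hMk]
  have h1 : |∑ t : (∀ i : Fin k, Fin (M i)), ∑ a ∈ B, Ph v n (a + sh2 d n R D (fun i => (t i : ℕ))) - Mk * S0| ≤ Mk * e1 := by
    have : ∑ t : (∀ i : Fin k, Fin (M i)), ∑ a ∈ B, Ph v n (a + sh2 d n R D (fun i => (t i : ℕ))) - Mk * S0 =
        ∑ t : (∀ i : Fin k, Fin (M i)), (∑ a ∈ B, Ph v n (a + sh2 d n R D (fun i => (t i : ℕ))) - S0) := by
      rw [sum_sub_distrib, sum_const, nsmul_eq_mul, hcardt]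
    rw [this]
    refine (abs_sum_le_sum_abs _ _).trans ((sum_le_sum fun t _ => hshift t).trans (le_of_eq ?_))
    rw [sum_const, nsmul_eq_mul, hcardt]
  have h2 : |∑ a ∈ B, ∑ t : (∀ i : Fin k, Fin (M i)), Ph v n (a + sh2 d n R D (fun i => (t i : ℕ))) -
      Mk * ∑ a ∈ B, ∏ j, mt R (rho R) (pv v a (n j))| ≤ (k * e * Λ ^ (k - 1) * Mk) * B.card := by
    have : ∑ a ∈ B, ∑ t : (∀ i : Fin k, Fin (M i)), Ph v n (a + sh2 d n R D (fun i => (t i : ℕ))) -
        Mk * ∑ a ∈ B, ∏ j, mt R (rho R) (pv v a (n j)) =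
        ∑ a ∈ B, (∑ t : (∀ i : Fin k, Fin (M i)), Ph v n (a + sh2 d n R D (fun i => (t i : ℕ))) -
          ∏ j, mt R (rho R * M j) (pv v a (n j))) := by
      rw [sum_sub_distrib, mul_sum]
      congr 1
      apply sum_congr rfl
      intro a _
      simp only [mt_mul, prod_mul_distrib]
      ring
    rw [this]
    refine (abs_sum_le_sum_abs _ _).trans ((sum_le_sum fun a ha => htri a ha).trans (le_of_eq ?_))
    rw [sum_const, nsmul_eq_mul]
    ring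
  rw [sum_comm] at h1
  have h3 : |Mk * (S0 - ∑ a ∈ B, ∏ j, mt R (rho R) (pv v a (n j)))| ≤
      Mk * e1 + (k * e * Λ ^ (k - 1) * Mk) * B.card := by
    rw [abs_le] at h1 h2 ⊢
    constructor <;> nlinarith
  rw [abs_mul, abs_of_pos hMk0] at h3
  have h4 : Mk * |S0 - ∑ a ∈ B, ∏ j, mt R (rho R) (pv v a (n j))| ≤
      Mk * ((Λ ^ k * (((d : ℝ) + 1) * ((U + W) / H)) + k * e * Λ ^ (k - 1)) * B.card) := by
    refine h3.trans (le_of_eq ?_)
    rw [he1]
    ring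
  exact le_of_mul_le_mul_left h4 hMk0

end Pool.Agent.K1H89.LD
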