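import Mathlib
import Pool.Agent.K1H89.LD.B2

/-! The average over a box for large degrees. -/

set_option autoImplicit false

namespace Pool.Agent.K1H89.LD

open Finset Polynomial Filter
open Pool.Agent.K1H89.PL
open Pool.Agent.TH445.OI (evN ev_pow)

lemma log_small (B : ℝ) (hB : 0 ≤ B) : ∃ L0 : ℝ, ∀ L : ℝ, L0 ≤ L → B * Real.log L ≤ L := by
  have h1 : ∀ᶠ y : ℝ in atTop, ‖Real.log y‖ ≤ (1 / (B + 1)) * ‖y‖ :=
    (Real.isLittleO_log_id_atTop).def (by positivity)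
  obtain ⟨L0, h0⟩ := (h1.and (eventually_ge_atTop 1)).exists_forall_of_atTop
  refine ⟨L0, fun L hL => ?_⟩
  obtain ⟨h3, h4⟩ := h0 L hL
  have h5 : 0 ≤ Real.log L := Real.log_nonneg h4
  rw [Real.norm_of_nonneg h5, Real.norm_of_nonneg (by linarith)] at h3
  calc B * Real.log L ≤ B * (1 / (B + 1) * L) := by gcongr
    _ = (B / (B + 1)) * L := by ring
    _ ≤ 1 * L := by
        apply mul_le_mul_of_nonneg_right _ (by linarith)
        rw [div_le_one (by positivity)]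
        linarith
    _ = L := one_mul L

theorem avg2 (D A B : ℕ) : ∃ (C : ℕ) (L0 : ℝ), ∀ d H : ℕ, 1 ≤ H → L0 ≤ Real.log H + d → (Real.log H + d) ^ C ≤ H →
    ∀ W : ℕ, 1 ≤ W → (W : ℝ) ≤ (Real.log H + d) ^ B → ∀ v : ℕ → ℤ, ∀ g : Fin (d + 1) → ℤ,
    ∀ k : ℕ, k ≤ D → k ≤ d + 1 → ∀ n : Fin k → ℕ, StrictMono n → (∀ j, 2 ≤ n j) →
    (∀ j, (n j : ℝ) ≤ (Real.log H + d) ^ B) →
    (∀ j, |((v (n j) : ℤ) : ℝ)| ≤ (H * (n j : ℝ) ^ d) * (Real.log H + d) ^ B) →
    |∑ a ∈ box d H W g, Ph v n a - ∑ a ∈ box d H W g, ∏ j, mt (W * Dl n) (rho (W * Dl n)) (pv v a (n j))| ≤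
      (box d H W g).card / (Real.log H + d) ^ A := by
  obtain ⟨eR, heR⟩ : ∃ e, e = B + B * D * D := ⟨_, rfl⟩
  obtain ⟨eG, heG⟩ : ∃ e, e = (eR + 3) * D := ⟨_, rfl⟩
  obtain ⟨B1, hB1⟩ : ∃ e, e = eG + eR + (B + 1) * D + A + 5 := ⟨_, rfl⟩
  obtain ⟨A1, hA1⟩ : ∃ e, e = eG + B1 + B * D + A + 3 := ⟨_, rfl⟩
  obtain ⟨B2, hB2⟩ : ∃ e, e = 2 * eR + B * D + B + 3 := ⟨_, rfl⟩
  obtain ⟨L1, h1⟩ := one_dimL A1 B2
  obtain ⟨L2, h2⟩ := log_small (B + B2) (by positivity)
  refine ⟨B1 + B2 + eG + B + A + 4, max (max L1 L2) (4 * D + 8), fun d H hHn hL0' hHC W hW1 hWB v g k hkD hk n hn hn2 hx hv => ?_⟩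
  set L := Real.log H + d with hL
  have hLa : L1 ≤ L := (le_max_left _ _).trans ((le_max_left _ _).trans hL0')
  have hLb : L2 ≤ L := (le_max_right _ _).trans ((le_max_left _ _).trans hL0')
  have hLc : 4 * (D : ℝ) + 8 ≤ L := (le_max_right _ _).trans hL0'
  have hlogL := h2 L hLb
  have hDn : (0 : ℝ) ≤ D := Nat.cast_nonneg _
  have hL8 : 8 ≤ L := by linarith
  have hL1 : 1 ≤ L := by linarith
  have hL0 : 0 < L := by linarith
  have hDL : 4 * (D : ℝ) ≤ L := by linarith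
  have hH1 : (1 : ℝ) ≤ H := by exact_mod_cast hHn
  have hH0 : (0 : ℝ) < H := by linarith
  have hlogH : 0 ≤ Real.log H := Real.log_nonneg hH1
  have hd0 : (0 : ℝ) ≤ d := Nat.cast_nonneg _
  have hdL : (d : ℝ) ≤ L := by linarith
  have hd1L : (d : ℝ) + 1 ≤ 2 * L := by linarith
  have pw : ∀ {a b : ℕ}, a ≤ b → L ^ a ≤ L ^ b := fun h => pow_le_pow_right₀ hL1 h
  have p0 : ∀ a : ℕ, 0 < L ^ a := fun a => by positivity
  have hN : (1 : ℝ) ≤ L ^ B := one_le_pow₀ hL1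
  have hkDR : (k : ℝ) ≤ D := by exact_mod_cast hkD
  have hRle : ((W * Dl n : ℕ) : ℝ) ≤ L ^ eR := by
    rw [heR]
    exact R_le hkD L hL1 W hWB n hx
  have hR1 : 1 ≤ W * Dl n := Nat.mul_pos hW1 (Dl_pos n hn)
  set R := W * Dl n with hR
  have hWH : W ≤ H := by
    have : (W : ℝ) ≤ H := hWB.trans ((pw (by omega)).trans hHC)
    exact_mod_cast this
  -- Q
  obtain ⟨Q, hQ⟩ : ∃ Q : ℕ, Q = ⌊(H : ℝ) / L ^ B1⌋₊ := ⟨_, rfl⟩
  have hM2 : 2 * L ^ B ≤ H / L ^ B1 := by
    rw [le_div_iff₀ (p0 B1)]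
    calc 2 * L ^ B * L ^ B1 ≤ L * L ^ B * L ^ B1 := by gcongr; linarith
      _ = L ^ (B + B1 + 1) := by ring
      _ ≤ L ^ (B1 + B2 + eG + B + A + 4) := pw (by omega)
      _ ≤ H := hHC
  have hQle : (Q : ℝ) ≤ H / L ^ B1 := by rw [hQ]; exact Nat.floor_le (by positivity)
  have hQge : (H : ℝ) / L ^ B1 / 2 ≤ Q := by
    have := Nat.lt_floor_add_one ((H : ℝ) / L ^ B1)
    rw [← hQ] at this
    linarith
  have hQN : L ^ B ≤ Q := by linarith
  have hQ1 : 1 ≤ Q := by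
    have : (1 : ℝ) ≤ Q := by linarith
    exact_mod_cast this
  have hQ0 : (0 : ℝ) < Q := by exact_mod_cast hQ1
  have hQH : (Q : ℝ) ≤ H := hQle.trans (div_le_self hH0.le (one_le_pow₀ hL1))
  obtain ⟨Λ, hΛ⟩ : ∃ Λ : ℝ, Λ = L ^ (eR + 3) := ⟨_, rfl⟩
  have hΛ1 : 1 ≤ Λ := by rw [hΛ]; exact one_le_pow₀ hL1
  have hΛk : ∀ j : ℕ, j ≤ D → Λ ^ j ≤ L ^ eG := by
    intro j hj
    rw [hΛ, ← pow_mul, heG]
    exact pw (Nat.mul_le_mul_left _ hj)
  obtain ⟨D', hD'⟩ : ∃ D', D' = d + 1 - k := ⟨_, rfl⟩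
  have hnpos : ∀ j, (0 : ℝ) < n j := fun j => by
    have := hn2 j
    exact_mod_cast (by omega : 0 < n j)
  have hn1R : ∀ j, (1 : ℝ) ≤ n j := fun j => by
    have := hn2 j
    exact_mod_cast (by omega : 1 ≤ n j)
  -- n ^ D' and n ^ d
  have hnd : ∀ j, (n j : ℝ) ^ d ≤ (n j : ℝ) ^ D' * L ^ (B * D) := by
    intro j
    have hk1 : 1 ≤ k := by have := j.2; omega
    have e : d = D' + (k - 1) := by omega
    calc (n j : ℝ) ^ d = (n j : ℝ) ^ D' * (n j : ℝ) ^ (k - 1) := by rw [← pow_add, ← e]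
      _ ≤ (n j : ℝ) ^ D' * (L ^ B) ^ (k - 1) := by
          have := hx j
          gcongr
      _ ≤ (n j : ℝ) ^ D' * L ^ (B * D) := by
          rw [← pow_mul]
          have := pw (show B * (k - 1) ≤ B * D from Nat.mul_le_mul_left _ (by omega))
          gcongr
  have hnd2 : ∀ j, (n j : ℝ) ^ D' ≤ (n j : ℝ) ^ d := by
    intro j
    have hk1 : 1 ≤ k := by have := j.2; omega
    exact pow_le_pow_right₀ (hn1R j) (by omega)
  have main := avg_core2 (d := d) (k := k) (H := H) (W := W) (Q := Q) hk hW1 hWH hQ1 v g n hn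
    (fun i => by have := hn2 i; omega) (fun i => by
      have : (n i : ℝ) ≤ Q := (hx i).trans hQN
      exact_mod_cast this)
    (fun j => (H * (n j : ℝ) ^ d) * L ^ B) (fun j => (H * (n j : ℝ) ^ d) * L ^ B2) (L ^ B) Λ (2 * L ^ (B1 + B * D) / L ^ A1)
    hN hx hv ?_ ?_ (by positivity) ?_ ?_
  · refine main.trans ?_
    rw [div_eq_inv_mul ((box d H W g).card : ℝ)]
    apply mul_le_mul_of_nonneg_right _ (Nat.cast_nonneg _)
    -- the two error terms
    have hA1' : Λ ^ k * (((d : ℝ) + 1) * ((((R : ℕ) : ℝ) * (k * ((d + 1) * (Q * (1 + L ^ B) ^ k))) + W) / H)) ≤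
        2 * (L ^ (A + 2))⁻¹ := by
      have e2 : (1 + L ^ B) ^ k ≤ L ^ ((B + 1) * D) := by
        calc (1 + L ^ B) ^ k ≤ (L ^ (B + 1)) ^ k := by
              apply pow_le_pow_left₀ (by positivity)
              rw [pow_succ]
              nlinarith
          _ = L ^ ((B + 1) * k) := by rw [← pow_mul]
          _ ≤ L ^ ((B + 1) * D) := pw (Nat.mul_le_mul_left _ hkD)
      have e3 : (((R : ℕ) : ℝ) * (k * ((d + 1) * (Q * (1 + L ^ B) ^ k))) + W) / H ≤
          2 * D * L * (L ^ (eR + (B + 1) * D) / L ^ B1) + L ^ B / H := by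
        rw [add_div]
        have e4 : ((R : ℕ) : ℝ) * (k * ((d + 1) * (Q * (1 + L ^ B) ^ k))) / H ≤ 2 * D * L * (L ^ (eR + (B + 1) * D) / L ^ B1) := by
          rw [div_le_iff₀ hH0]
          calc ((R : ℕ) : ℝ) * (k * ((d + 1) * (Q * (1 + L ^ B) ^ k))) ≤
                L ^ eR * (D * ((2 * L) * (H / L ^ B1 * L ^ ((B + 1) * D)))) := by gcongr
            _ = 2 * D * L * (L ^ (eR + (B + 1) * D) / L ^ B1) * H := by
                rw [pow_add]
                ring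
        have e5 : (W : ℝ) / H ≤ L ^ B / H := by gcongr
        exact add_le_add e4 e5
      calc Λ ^ k * (((d : ℝ) + 1) * ((((R : ℕ) : ℝ) * (k * ((d + 1) * (Q * (1 + L ^ B) ^ k))) + W) / H))
          ≤ L ^ eG * ((2 * L) * (2 * D * L * (L ^ (eR + (B + 1) * D) / L ^ B1) + L ^ B / H)) := by
            gcongr
            exact hΛk k hkD
        _ = (4 * D) * L * L * L ^ eG * (L ^ (eR + (B + 1) * D) / L ^ B1) + 2 * L * L ^ eG * L ^ B / H := by ring
        _ ≤ (L ^ (A + 2))⁻¹ + (L ^ (A + 2))⁻¹ := by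
            apply add_le_add
            · rw [← mul_div_assoc, div_le_iff₀ (p0 _), ← one_div, one_div_mul_eq_div, le_div_iff₀ (p0 _)]
              calc (4 * (D : ℝ)) * L * L * L ^ eG * L ^ (eR + (B + 1) * D) * L ^ (A + 2)
                  ≤ L * L * L * L ^ eG * L ^ (eR + (B + 1) * D) * L ^ (A + 2) := by gcongr
                _ = L ^ (eG + eR + (B + 1) * D + A + 5) := by ring
                _ = L ^ B1 := by rw [hB1]
            · rw [div_le_iff₀ hH0, ← one_div, one_div_mul_eq_div, le_div_iff₀ (p0 _)]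
              calc 2 * L * L ^ eG * L ^ B * L ^ (A + 2) ≤ L * L * L ^ eG * L ^ B * L ^ (A + 2) := by
                    gcongr
                    linarith
                _ = L ^ (eG + B + A + 4) := by ring
                _ ≤ L ^ (B1 + B2 + eG + B + A + 4) := pw (by omega)
                _ ≤ H := hHC
        _ = 2 * (L ^ (A + 2))⁻¹ := by ring
    have hA2 : (k : ℝ) * (2 * L ^ (B1 + B * D) / L ^ A1) * Λ ^ (k - 1) ≤ (L ^ (A + 2))⁻¹ := by
      calc (k : ℝ) * (2 * L ^ (B1 + B * D) / L ^ A1) * Λ ^ (k - 1) ≤ D * (2 * L ^ (B1 + B * D) / L ^ A1) * L ^ eG := by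
            gcongr
            exact hΛk _ (by omega)
        _ = (2 * D) * (L ^ (B1 + B * D) * L ^ eG) / L ^ A1 := by ring
        _ ≤ L * (L ^ (B1 + B * D) * L ^ eG) / L ^ A1 := by
            gcongr
            linarith
        _ = (L ^ (A + 2))⁻¹ := by
            rw [div_eq_iff (p0 A1).ne', hA1]
            rw [show eG + B1 + B * D + A + 3 = (A + 2) + (B1 + B * D + eG + 1) by ring, pow_add L (A + 2),
              inv_mul_cancel_left₀ (p0 _).ne']
            ring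
    calc _ ≤ 2 * (L ^ (A + 2))⁻¹ + (L ^ (A + 2))⁻¹ := add_le_add hA1' hA2
      _ = 3 * (L ^ (A + 2))⁻¹ := by ring
      _ ≤ (L ^ A)⁻¹ := by
          rw [pow_add, mul_inv]
          have : 3 * ((L ^ A)⁻¹ * (L ^ 2)⁻¹) = (L ^ A)⁻¹ * (3 / L ^ 2) := by ring
          rw [this]
          apply mul_le_of_le_one_right (by positivity)
          rw [div_le_one (p0 2)]
          nlinarith
  · -- th bound
    intro j x hx'
    have hX1 : (1 : ℝ) ≤ (H * (n j : ℝ) ^ d) * L ^ B2 := by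
      have q1 := one_le_pow₀ hL1 (n := B2)
      have q2 := one_le_pow₀ (hn1R j) (n := d)
      have q3 : (1 : ℝ) ≤ H * (n j : ℝ) ^ d := one_le_mul_of_one_le_of_one_le hH1 q2
      exact one_le_mul_of_one_le_of_one_le q3 q1
    refine (th_le_log hX1 hx').trans ?_
    have hnj := hnpos j
    rw [Real.log_mul (by positivity) (p0 _).ne', Real.log_mul hH0.ne' (by positivity), Real.log_pow, Real.log_pow]
    have hlogLn : 0 ≤ Real.log L := Real.log_nonneg hL1
    have q1 : Real.log (n j) ≤ B * Real.log L := by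
      rw [← Real.log_pow]
      exact Real.log_le_log (hnpos j) (hx j)
    have q2 : (B : ℝ) * Real.log L ≤ L := by
      have : (0 : ℝ) ≤ B2 * Real.log L := by positivity
      nlinarith
    have q3 : (B2 : ℝ) * Real.log L ≤ L := by
      have : (0 : ℝ) ≤ B * Real.log L := by positivity
      nlinarith
    have q4 : (d : ℝ) * Real.log (n j) ≤ L * L := by
      apply mul_le_mul hdL (q1.trans q2) (Real.log_nonneg (hn1R j)) hL0.le
    calc Real.log H + d * Real.log (n j) + B2 * Real.log L ≤ L + L * L + L := by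
          have : Real.log H ≤ L := by linarith
          linarith
      _ ≤ L ^ 3 := by nlinarith [sq_nonneg L]
      _ ≤ Λ := by rw [hΛ]; exact pw (by omega)
  · -- rho bound
    unfold rho
    have hφ : (1 : ℝ) ≤ (Nat.totient R : ℝ) := by exact_mod_cast Nat.totient_pos.2 hR1
    refine (div_le_self (Nat.cast_nonneg _) hφ).trans (hRle.trans ?_)
    rw [hΛ]
    exact pw (by omega)
  · -- one dimension
    intro j q hq1 hqR x hx1 hx2
    have hRq1 : 1 ≤ R * q := Nat.mul_pos hR1 hq1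
    have hqle : (q : ℝ) ≤ L ^ eR := by
      refine le_trans ?_ hRle
      exact_mod_cast Nat.le_of_dvd hR1 hqR
    have hRq : ((R * q : ℕ) : ℝ) ≤ L ^ B2 := by
      push_cast
      calc (R : ℝ) * q ≤ L ^ eR * L ^ eR := by gcongr
        _ = L ^ (eR + eR) := by rw [← pow_add]
        _ ≤ L ^ B2 := pw (by omega)
    have hcast : ((H * n j ^ d : ℕ) : ℝ) = H * (n j : ℝ) ^ d := by push_cast; ring
    have h := h1 d H (n j) (hn2 j) hHn hLa (R * q) hRq1 hRq x (Q * n j ^ (d + 1 - k)) (by rw [hcast]; exact hx1)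
      (by rw [hcast]; exact hx2)
    rw [hcast] at h
    have e : mt R (rho R * ((Q * n j ^ (d + 1 - k) : ℕ) : ℝ)) x = if IsCoprime x ((R * q : ℕ) : ℤ) then
        ((R * q : ℕ) : ℝ) / (Nat.totient (R * q) : ℝ) * ((Q * n j ^ (d + 1 - k) : ℕ) : ℝ) else 0 := by
      unfold PL.mt
      rw [rho_mul hqR hR1]
      by_cases hcx : IsCoprime x (R : ℤ)
      · rw [if_pos hcx, if_pos ((coprime_mul hqR x).2 hcx)]
      · rw [if_neg hcx, if_neg (fun h => hcx ((coprime_mul hqR x).1 h))]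
    rw [e]
    refine h.trans ?_
    rw [← hD']
    push_cast
    calc (H : ℝ) * (n j : ℝ) ^ d / L ^ A1 ≤ H * ((n j : ℝ) ^ D' * L ^ (B * D)) / L ^ A1 := by
          have := hnd j
          gcongr
      _ = (H / L ^ B1 / 2) * (2 * L ^ (B1 + B * D) / L ^ A1 * (n j : ℝ) ^ D') := by
          rw [pow_add L B1]
          field_simp
      _ ≤ Q * (2 * L ^ (B1 + B * D) / L ^ A1 * (n j : ℝ) ^ D') := by
          have := hnpos j
          gcongr
      _ = 2 * L ^ (B1 + B * D) / L ^ A1 * (Q * (n j : ℝ) ^ D') := by ring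
  · -- range
    intro j
    rw [← hD']
    have hnj := hnpos j
    have g1 : ((R : ℕ) : ℝ) * (k * (((D' : ℝ) + 1) * (Q * (n j : ℝ) ^ D') * (L ^ B) ^ k)) ≤
        3 * ((H * (n j : ℝ) ^ d) * L ^ (eR + B * D + 2)) := by
      have hD'L : (D' : ℝ) + 1 ≤ 3 * L := by
        have : (D' : ℝ) ≤ d + 1 := by exact_mod_cast (by omega : D' ≤ d + 1)
        linarith
      have q1 : (L ^ B) ^ k ≤ L ^ (B * D) := by
        rw [← pow_mul]
        exact pw (Nat.mul_le_mul_left _ hkD)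
      have q2 := hnd2 j
      calc ((R : ℕ) : ℝ) * (k * (((D' : ℝ) + 1) * (Q * (n j : ℝ) ^ D') * (L ^ B) ^ k)) ≤
            L ^ eR * (L * ((3 * L) * (H * (n j : ℝ) ^ d) * L ^ (B * D))) := by
            gcongr
            linarith
        _ = 3 * ((H * (n j : ℝ) ^ d) * L ^ (eR + B * D + 2)) := by ring
    have hYpos : (0 : ℝ) < H * (n j : ℝ) ^ d := by positivity
    calc (H * (n j : ℝ) ^ d) * L ^ B + (d + 1) * (H * (n j : ℝ) ^ d) +
          ((R : ℕ) : ℝ) * (k * (((D' : ℝ) + 1) * (Q * (n j : ℝ) ^ D') * (L ^ B) ^ k)) ≤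
          (H * (n j : ℝ) ^ d) * L ^ (eR + B * D + B + 2) + (2 * L) * (H * (n j : ℝ) ^ d) +
          3 * ((H * (n j : ℝ) ^ d) * L ^ (eR + B * D + 2)) := by
          have q3 := pw (show B ≤ eR + B * D + B + 2 by omega)
          gcongr
      _ ≤ (H * (n j : ℝ) ^ d) * L ^ (eR + B * D + B + 2) + 2 * ((H * (n j : ℝ) ^ d) * L ^ (eR + B * D + B + 2)) +
          3 * ((H * (n j : ℝ) ^ d) * L ^ (eR + B * D + B + 2)) := by
          have q4 := pw (show 1 ≤ eR + B * D + B + 2 by omega)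
          have q5 := pw (show eR + B * D + 2 ≤ eR + B * D + B + 2 by omega)
          rw [pow_one] at q4
          have q6 : (2 * L) * (H * (n j : ℝ) ^ d) ≤ 2 * ((H * (n j : ℝ) ^ d) * L ^ (eR + B * D + B + 2)) := by nlinarith
          gcongr
      _ = 6 * ((H * (n j : ℝ) ^ d) * L ^ (eR + B * D + B + 2)) := by ring
      _ ≤ L * ((H * (n j : ℝ) ^ d) * L ^ (eR + B * D + B + 2)) := by
          gcongr
          linarith
      _ = (H * (n j : ℝ) ^ d) * L ^ (eR + B * D + B + 3) := by ring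
      _ ≤ (H * (n j : ℝ) ^ d) * L ^ B2 := by
          have := pw (show eR + B * D + B + 3 ≤ B2 by omega)
          gcongr

end Pool.Agent.K1H89.LD
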