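import Mathlib
import Pool.Agent.K1H89.LD.B3

/-! One polynomial of large degree: from logarithmic weights to counts. -/

set_option autoImplicit false

namespace Pool.Agent.K1H89.LD

open Finset Polynomial Filter
open Pool.Agent.K1H89.PL
open Pool.Agent.TH445.OI (evN ev_pow)

lemma fiberL (d H W : ℕ) (g : Fin (d + 1) → ℤ) (v : ℕ → ℤ) (n : ℕ) (P : ℤ → Prop) [DecidablePred P] (κ : ℝ)
    (hκ : ∀ y : ℤ, (((cls H W (g (Fin.last d))).filter (fun x => P (y + x * (n : ℤ) ^ d))).card : ℝ) ≤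
      κ * (cls H W (g (Fin.last d))).card) :
    (((box d H W g).filter (fun a => P (pv v a n))).card : ℝ) ≤ κ * (box d H W g).card := by
  classical
  set T : Finset (Fin d → ℤ) := Fintype.piFinset (fun j : Fin d => cls H W (g j.castSucc)) with hT
  have hmaps : ∀ a ∈ (box d H W g).filter (fun a => P (pv v a n)), Fin.init a ∈ T := by
    intro a ha
    rw [mem_filter] at ha
    unfold PL.box at ha
    rw [Fintype.mem_piFinset] at ha
    rw [hT, Fintype.mem_piFinset]
    intro j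
    exact ha.1 j.castSucc
  have hcard := card_eq_sum_card_fiberwise hmaps
  have hfib : ∀ b ∈ T, ((((box d H W g).filter (fun a => P (pv v a n))).filter (fun a => Fin.init a = b)).card : ℝ) ≤
      κ * (cls H W (g (Fin.last d))).card := by
    intro b _
    refine le_trans ?_ (hκ (v n + ∑ j : Fin d, b j * (n : ℤ) ^ (j : ℕ)))
    have : (((box d H W g).filter (fun a => P (pv v a n))).filter (fun a => Fin.init a = b)).card ≤
        ((cls H W (g (Fin.last d))).filter (fun x => P ((v n + ∑ j : Fin d, b j * (n : ℤ) ^ (j : ℕ)) + x * (n : ℤ) ^ d))).card := by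
      apply card_le_card_of_injOn (fun a => a (Fin.last d))
      · intro a ha
        simp only [coe_filter, Set.mem_ofPred_eq, mem_filter] at ha ⊢
        obtain ⟨⟨ha1, ha2⟩, ha3⟩ := ha
        unfold PL.box at ha1
        rw [Fintype.mem_piFinset] at ha1
        refine ⟨ha1 (Fin.last d), ?_⟩
        have e : pv v a n = (v n + ∑ j : Fin d, b j * (n : ℤ) ^ (j : ℕ)) + a (Fin.last d) * (n : ℤ) ^ d := by
          unfold pv
          rw [Fin.sum_univ_castSucc, ← ha3]
          simp only [Fin.val_castSucc, Fin.init, Fin.val_last]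
          ring
        rwa [e] at ha2
      · intro a ha b' hb' hab
        simp only [coe_filter, Set.mem_ofPred_eq] at ha hb'
        have h1 : Fin.init a = Fin.init b' := ha.2.trans hb'.2.symm
        rw [← Fin.snoc_init_self a, ← Fin.snoc_init_self b', h1]
        congr 1
    exact_mod_cast this
  have hbox : ((box d H W g).card : ℝ) = (cls H W (g (Fin.last d))).card * T.card := by
    unfold PL.box
    rw [hT, Fintype.card_piFinset, Fintype.card_piFinset, Fin.prod_univ_castSucc]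
    push_cast
    ring
  rw [hcard, hbox]
  push_cast
  refine (sum_le_sum hfib).trans (le_of_eq ?_)
  rw [sum_const, nsmul_eq_mul]
  ring

lemma box_smallL (d H W Y : ℕ) (g : Fin (d + 1) → ℤ) (v : ℕ → ℤ) (n : ℕ) (hn : 1 ≤ n) (hW : 1 ≤ W) (hWH : W ≤ H) :
    (((box d H W g).filter (fun a => |pv v a n| ≤ (Y : ℤ) * (n : ℤ) ^ d)).card : ℝ) ≤
      (2 * Y + 1 + W) / H * (box d H W g).card := by
  apply fiberL d H W g v n (fun z => |z| ≤ (Y : ℤ) * (n : ℤ) ^ d)
  intro y
  refine le_trans ?_ (few_small H W Y (g (Fin.last d)) (y / (n : ℤ) ^ d) hW hWH)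
  have hN : (0 : ℤ) < (n : ℤ) ^ d := by
    have : (0 : ℤ) < n := by exact_mod_cast hn
    positivity
  have hsub : (cls H W (g (Fin.last d))).filter (fun x => |y + x * (n : ℤ) ^ d| ≤ (Y : ℤ) * (n : ℤ) ^ d) ⊆
      (cls H W (g (Fin.last d))).filter (fun x => |y / (n : ℤ) ^ d + x| ≤ (Y : ℤ)) := by
    intro x hx
    rw [mem_filter] at hx ⊢
    refine ⟨hx.1, ?_⟩
    have h1 := Int.mul_ediv_add_emod y ((n : ℤ) ^ d)
    have h2 := Int.emod_nonneg y hN.ne'
    have h3 := Int.emod_lt_of_pos y hN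
    obtain ⟨h4, h5⟩ := abs_le.1 hx.2
    set N := (n : ℤ) ^ d with hNd
    set q := y / N with hq
    set r := y % N with hr
    rw [← h1] at h4 h5
    rw [abs_le]
    constructor
    · by_contra hcon
      push Not at hcon
      have : q + x + 1 ≤ -(Y : ℤ) := by omega
      nlinarith
    · by_contra hcon
      push Not at hcon
      have : (Y : ℤ) + 1 ≤ q + x := by omega
      nlinarith
  exact_mod_cast card_le_card hsub

/-- the elementary comparison of the two averages -/
lemma cmp2 {d k H W : ℕ} (g : Fin (d + 1) → ℤ) (v : ℕ → ℤ) (n : Fin k → ℕ) (l : Fin k → ℝ) (Y : Fin k → ℤ) (η κ : ℝ)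
    (hl : ∀ j, 0 ≤ l j) (hη0 : 0 ≤ η) (hη1 : η ≤ 1)
    (hsm : ∀ j, (((box d H W g).filter (fun a => |pv v a (n j)| ≤ Y j)).card : ℝ) ≤ κ * (box d H W g).card)
    (hup : ∀ a ∈ box d H W g, ∀ j, th (pv v a (n j)) ≤ (1 + η) * l j)
    (hlow : ∀ a ∈ box d H W g, ∀ j, ¬ |pv v a (n j)| ≤ Y j → (pv v a (n j)).natAbs.Prime →
      (1 - η) * l j ≤ th (pv v a (n j))) :
    (∑ a ∈ box d H W g, Ph v n a ≤ (1 + η) ^ k * ((∏ j, l j) * (gd H W g v n).card)) ∧
    ((1 - η) ^ k * ((∏ j, l j) * (gd H W g v n).card) ≤ ∑ a ∈ box d H W g, Ph v n a +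
      (∏ j, l j) * (k * (κ * (box d H W g).card))) := by
  classical
  have hP0 : 0 ≤ ∏ j, l j := prod_nonneg fun j _ => hl j
  have hz : ∀ a : Fin (d + 1) → ℤ, ¬ (∀ j, (pv v a (n j)).natAbs.Prime) → Ph v n a = 0 := by
    intro a ha
    push Not at ha
    obtain ⟨j, hj⟩ := ha
    unfold Ph
    apply prod_eq_zero (mem_univ j)
    unfold th
    rw [if_neg hj]
  have hsum : ∑ a ∈ box d H W g, Ph v n a = ∑ a ∈ gd H W g v n, Ph v n a := by
    unfold gd
    rw [sum_filter]
    apply sum_congr rfl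
    intro a _
    split_ifs with h
    · rfl
    · exact hz a h
  constructor
  · rw [hsum]
    calc ∑ a ∈ gd H W g v n, Ph v n a ≤ ∑ _a ∈ gd H W g v n, (1 + η) ^ k * ∏ j, l j := by
          apply sum_le_sum
          intro a ha
          unfold gd at ha
          rw [mem_filter] at ha
          unfold Ph
          calc ∏ j, th (pv v a (n j)) ≤ ∏ j : Fin k, ((1 + η) * l j) :=
                Finset.prod_le_prod (fun _ _ => th_nonneg _) (fun j _ => hup a ha.1 j)
            _ = (1 + η) ^ k * ∏ j, l j := by rw [prod_mul_distrib]; simp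
      _ = (1 + η) ^ k * ((∏ j, l j) * (gd H W g v n).card) := by rw [sum_const, nsmul_eq_mul]; ring
  · have h1 : ∀ a ∈ gd H W g v n, (1 - η) ^ k * ∏ j, l j ≤ Ph v n a +
        (∏ j, l j) * ∑ j : Fin k, (if |pv v a (n j)| ≤ Y j then (1 : ℝ) else 0) := by
      intro a ha
      unfold gd at ha
      rw [mem_filter] at ha
      by_cases h : ∃ j, |pv v a (n j)| ≤ Y j
      · obtain ⟨j, hj⟩ := h
        have h2 : (1 : ℝ) ≤ ∑ j : Fin k, (if |pv v a (n j)| ≤ Y j then (1 : ℝ) else 0) := by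
          calc (1 : ℝ) = (if |pv v a (n j)| ≤ Y j then (1 : ℝ) else 0) := by rw [if_pos hj]
            _ ≤ _ := single_le_sum (f := fun j => if |pv v a (n j)| ≤ Y j then (1 : ℝ) else 0)
                (fun i _ => by split_ifs <;> norm_num) (mem_univ j)
        have h3 : (1 - η) ^ k * (∏ j, l j) ≤ 1 * ∏ j, l j := by
          apply mul_le_mul_of_nonneg_right _ hP0
          apply pow_le_one₀ (by linarith) (by linarith)
        have h4 := Ph_nonneg v n a
        nlinarith
      · push Not at h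
        have h2 : 0 ≤ (∏ j, l j) * ∑ j : Fin k, (if |pv v a (n j)| ≤ Y j then (1 : ℝ) else 0) := by
          apply mul_nonneg hP0
          apply sum_nonneg
          intro i _
          split_ifs <;> norm_num
        have h3 : (1 - η) ^ k * ∏ j, l j ≤ Ph v n a := by
          unfold Ph
          calc (1 - η) ^ k * ∏ j, l j = ∏ j : Fin k, ((1 - η) * l j) := by rw [prod_mul_distrib]; simp
            _ ≤ ∏ j, th (pv v a (n j)) := by
                apply Finset.prod_le_prod
                · intro j _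
                  exact mul_nonneg (by linarith) (hl j)
                · intro j _
                  exact hlow a ha.1 j (not_le.2 (h j)) (ha.2 j)
        linarith
    have h2 : (1 - η) ^ k * ((∏ j, l j) * (gd H W g v n).card) = ∑ _a ∈ gd H W g v n, (1 - η) ^ k * ∏ j, l j := by
      rw [sum_const, nsmul_eq_mul]; ring
    rw [h2]
    refine (sum_le_sum h1).trans ?_
    rw [sum_add_distrib, ← hsum, ← mul_sum]
    apply add_le_add_right
    apply mul_le_mul_of_nonneg_left _ hP0
    calc ∑ a ∈ gd H W g v n, ∑ j : Fin k, (if |pv v a (n j)| ≤ Y j then (1 : ℝ) else 0)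
        ≤ ∑ a ∈ box d H W g, ∑ j : Fin k, (if |pv v a (n j)| ≤ Y j then (1 : ℝ) else 0) := by
          apply sum_le_sum_of_subset_of_nonneg
          · unfold gd
            exact filter_subset _ _
          · intro a _ _
            apply sum_nonneg
            intro i _
            split_ifs <;> norm_num
      _ = ∑ j : Fin k, (((box d H W g).filter (fun a => |pv v a (n j)| ≤ Y j)).card : ℝ) := by
          rw [sum_comm]
          apply sum_congr rfl
          intro j _
          rw [← sum_filter, sum_const, nsmul_eq_mul, mul_one]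
      _ ≤ ∑ _j : Fin k, κ * ((box d H W g).card : ℝ) := sum_le_sum fun j _ => hsm j
      _ = k * (κ * (box d H W g).card) := by
          rw [sum_const, card_univ, Fintype.card_fin, nsmul_eq_mul]

open Classical in
theorem single2 (D B : ℕ) : ∃ C : ℕ, ∀ δ : ℝ, 0 < δ → δ ≤ 1 → ∃ L0 : ℝ, ∀ d H : ℕ, 1 ≤ H →
    L0 ≤ Real.log H + d → (Real.log H + d) ^ C ≤ H →
    ∀ W : ℕ, 1 ≤ W → (W : ℝ) ≤ (Real.log H + d) ^ B → ∀ v : ℕ → ℤ, ∀ g : Fin (d + 1) → ℤ,
    ∀ k : ℕ, k ≤ D → k ≤ d + 1 → ∀ n : Fin k → ℕ, StrictMono n → (∀ j, 2 ≤ n j) →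
    (∀ j, (n j : ℝ) ≤ (Real.log H + d) ^ B) →
    (∀ j, |((v (n j) : ℤ) : ℝ)| ≤ (H * (n j : ℝ) ^ d) * (Real.log H + d) ^ B) →
    |(∏ j, (Real.log H + d * Real.log (n j))) * ((gd H W g v n).card / (box d H W g).card) -
      (if ∀ j, IsCoprime (pv v g (n j)) (W : ℤ) then rho W ^ k else 0)| ≤
      rho W ^ k * (2 * (GG W (Dl n) (3 ^ k) - 1) + δ) := by
  obtain ⟨D1, hD1e⟩ : ∃ D1, D1 = D + 1 := ⟨_, rfl⟩
  have hD1 : (1 : ℝ) ≤ D1 := by
    have : 1 ≤ D1 := by omega
    exact_mod_cast this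
  obtain ⟨E, hE⟩ : ∃ E, E = 3 * D1 + 2 := ⟨_, rfl⟩
  obtain ⟨C1, L1, h1⟩ := avg2 D 1 B
  refine ⟨max C1 (B + B * D * D + B + E + 2), fun δ hδ0 hδ1 => ?_⟩
  obtain ⟨η, hη⟩ : ∃ η : ℝ, η = δ / (8 * D1) := ⟨_, rfl⟩
  have hη0 : 0 < η := by rw [hη]; positivity
  have hη1 : η ≤ 1 := by
    rw [hη, div_le_one (by positivity)]
    linarith
  obtain ⟨L2, h2⟩ := log_small ((B + B + E + 3 : ℝ) * (4 / η)) (by positivity)
  refine ⟨max (max (max L1 L2) (max (1 / η) (4 * D1 / η))) (max (D1 + 8) (4 / η)),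
    fun d H hHn hL0' hHC W hW1 hWB v g k hkD hk n hn hn2 hx hv => ?_⟩
  set L := Real.log H + d with hL
  have hLa : L1 ≤ L := (le_max_left _ _).trans ((le_max_left _ _).trans ((le_max_left _ _).trans hL0'))
  have hLb : L2 ≤ L := (le_max_right _ _).trans ((le_max_left _ _).trans ((le_max_left _ _).trans hL0'))
  have hLc : 1 / η ≤ L := (le_max_left _ _).trans ((le_max_right _ _).trans ((le_max_left _ _).trans hL0'))
  have hLd : 4 * D1 / η ≤ L := (le_max_right _ _).trans ((le_max_right _ _).trans ((le_max_left _ _).trans hL0'))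
  have hLe : (D1 : ℝ) + 8 ≤ L := (le_max_left _ _).trans ((le_max_right _ _).trans hL0')
  have hLf : 4 / η ≤ L := (le_max_right _ _).trans ((le_max_right _ _).trans hL0')
  have hlogL := h2 L hLb
  have hL8 : 8 ≤ L := by linarith
  have hL1 : 1 ≤ L := by linarith
  have hL0 : 0 < L := by linarith
  have hH1 : (1 : ℝ) ≤ H := by exact_mod_cast hHn
  have hH0 : (0 : ℝ) < H := by linarith
  have hlogH : 0 ≤ Real.log H := Real.log_nonneg hH1
  have hd0 : (0 : ℝ) ≤ d := Nat.cast_nonneg _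
  have hdL : (d : ℝ) ≤ L := by linarith
  have hd1L : (d : ℝ) + 1 ≤ 2 * L := by linarith
  have pw : ∀ {a b : ℕ}, a ≤ b → L ^ a ≤ L ^ b := fun h => pow_le_pow_right₀ hL1 h
  have p0 : ∀ a : ℕ, 0 < L ^ a := fun a => by positivity
  have hHC1 : L ^ C1 ≤ H := (pw (le_max_left _ _)).trans hHC
  have hHC2 : L ^ (B + B * D * D + B + E + 2) ≤ H := (pw (le_max_right _ _)).trans hHC
  have hc1 := h1 d H hHn hLa hHC1 W hW1 hWB v g k hkD hk n hn hn2 hx hv
  have hWH : W ≤ H := by
    have : (W : ℝ) ≤ H := hWB.trans ((pw (by omega)).trans hHC2)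
    exact_mod_cast this
  have hbox := box_pos d H W g hW1 hWH
  have hb0 : (0 : ℝ) < (box d H W g).card := by exact_mod_cast hbox
  have hnpos : ∀ j, (0 : ℝ) < n j := fun j => by
    have := hn2 j
    exact_mod_cast (by omega : 0 < n j)
  have hn1R : ∀ j, (1 : ℝ) ≤ n j := fun j => by
    have := hn2 j
    exact_mod_cast (by omega : 1 ≤ n j)
  have hlogLn : 0 ≤ Real.log L := Real.log_nonneg hL1
  -- the logarithms
  obtain ⟨l, hl⟩ : ∃ l : Fin k → ℝ, l = fun j => Real.log H + d * Real.log (n j) := ⟨_, rfl⟩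
  have hl_low : ∀ j, L / 2 ≤ l j := by
    intro j
    rw [hl]
    have q1 : 1 / 2 ≤ Real.log (n j) := by
      have q2 : Real.log 2 ≤ Real.log (n j) := Real.log_le_log (by norm_num) (by exact_mod_cast hn2 j)
      have := Real.log_two_gt_d9
      linarith
    simp only
    nlinarith
  have hl0 : ∀ j, 0 ≤ l j := fun j => by have := hl_low j; linarith
  have hlogsm : (B + B + E + 3 : ℝ) * Real.log L ≤ η / 4 * L := by
    have : (B + B + E + 3 : ℝ) * Real.log L = η / 4 * ((B + B + E + 3 : ℝ) * (4 / η) * Real.log L) := by field_simp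
    rw [this]
    gcongr
  have hBlog : (B : ℝ) * Real.log L ≤ L := by
    have q1 : (B : ℝ) * Real.log L ≤ (B + B + E + 3 : ℝ) * Real.log L := by
      apply mul_le_mul_of_nonneg_right _ hlogLn
      have : (0 : ℝ) ≤ B := Nat.cast_nonneg _
      have : (0 : ℝ) ≤ E := Nat.cast_nonneg _
      linarith
    nlinarith
  have hl_up : ∀ j, l j ≤ L ^ 3 := by
    intro j
    rw [hl]
    have q1 : Real.log (n j) ≤ B * Real.log L := by
      rw [← Real.log_pow]
      exact Real.log_le_log (hnpos j) (hx j)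
    have q4 : (d : ℝ) * Real.log (n j) ≤ L * L :=
      mul_le_mul hdL (q1.trans hBlog) (Real.log_nonneg (hn1R j)) hL0.le
    have : Real.log H ≤ L := by linarith
    simp only
    nlinarith [sq_nonneg L]
  have hlY : ∀ j, Real.log (H * (n j : ℝ) ^ d) = l j := by
    intro j
    have := hnpos j
    rw [hl, Real.log_mul hH0.ne' (by positivity), Real.log_pow]
  obtain ⟨Y, hY⟩ : ∃ Y : ℕ, Y = ⌊(H : ℝ) / L ^ E⌋₊ := ⟨_, rfl⟩
  have hYle : (Y : ℝ) ≤ H / L ^ E := by rw [hY]; exact Nat.floor_le (by positivity)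
  have hYge : (H : ℝ) / L ^ E / 2 ≤ Y := by
    have h3 : 2 ≤ (H : ℝ) / L ^ E := by
      rw [le_div_iff₀ (p0 _)]
      calc 2 * L ^ E ≤ L * L ^ E := by gcongr; linarith
        _ = L ^ (E + 1) := by ring
        _ ≤ L ^ (B + B * D * D + B + E + 2) := pw (by omega)
        _ ≤ H := hHC2
    have := Nat.lt_floor_add_one ((H : ℝ) / L ^ E)
    rw [← hY] at this
    linarith
  have hN : (1 : ℝ) ≤ L ^ B := one_le_pow₀ hL1
  have hηl : ∀ j, η / 4 * L ≤ η * l j := by
    intro j
    have := hl_low j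
    nlinarith
  have hup : ∀ a ∈ box d H W g, ∀ j, th (pv v a (n j)) ≤ (1 + η) * l j := by
    intro a ha j
    have h5 := pv_bound v a H (n j) (n j) ((H * (n j : ℝ) ^ d) * L ^ B) (hn1R j) le_rfl (hv j) (fun j => mem_box_abs ha j)
    have hYp : (0 : ℝ) < H * (n j : ℝ) ^ d := by have := hnpos j; positivity
    have h6 : (H * (n j : ℝ) ^ d) * L ^ B + (d + 1) * (H * (n j : ℝ) ^ d) ≤ (H * (n j : ℝ) ^ d) * L ^ (B + 2) := by
      calc (H * (n j : ℝ) ^ d) * L ^ B + (d + 1) * (H * (n j : ℝ) ^ d) ≤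
            (H * (n j : ℝ) ^ d) * L ^ (B + 1) + (2 * L ^ (B + 1)) * (H * (n j : ℝ) ^ d) := by
            have q1 := pw (show B ≤ B + 1 by omega)
            have q2 := pw (show 1 ≤ B + 1 by omega)
            rw [pow_one] at q2
            have q3 : (d : ℝ) + 1 ≤ 2 * L ^ (B + 1) := by linarith
            gcongr
        _ = 3 * ((H * (n j : ℝ) ^ d) * L ^ (B + 1)) := by ring
        _ ≤ L * ((H * (n j : ℝ) ^ d) * L ^ (B + 1)) := by gcongr; linarith
        _ = (H * (n j : ℝ) ^ d) * L ^ (B + 2) := by ring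
    have h7 : (1 : ℝ) ≤ (H * (n j : ℝ) ^ d) * L ^ (B + 2) :=
      one_le_mul_of_one_le_of_one_le (one_le_mul_of_one_le_of_one_le hH1 (one_le_pow₀ (hn1R j))) (one_le_pow₀ hL1)
    refine (th_le_log h7 (h5.trans h6)).trans ?_
    rw [Real.log_mul hYp.ne' (p0 _).ne', Real.log_pow, hlY]
    have h8 := hηl j
    have h9 : ((B + 2 : ℕ) : ℝ) * Real.log L ≤ (B + B + E + 3 : ℝ) * Real.log L := by
      apply mul_le_mul_of_nonneg_right _ hlogLn
      push_cast
      have : (0 : ℝ) ≤ B := Nat.cast_nonneg _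
      have : (0 : ℝ) ≤ E := Nat.cast_nonneg _
      linarith
    linarith
  have hlow : ∀ a ∈ box d H W g, ∀ j, ¬ |pv v a (n j)| ≤ (Y : ℤ) * (n j : ℤ) ^ d → (pv v a (n j)).natAbs.Prime →
      (1 - η) * l j ≤ th (pv v a (n j)) := by
    intro a _ j hlt hpr
    unfold th
    rw [if_pos hpr]
    have hnj := hnpos j
    have h5 : (H * (n j : ℝ) ^ d) / (L ^ E * 2) ≤ ((pv v a (n j)).natAbs : ℝ) := by
      push Not at hlt
      have h7 : (Y : ℝ) * (n j : ℝ) ^ d ≤ ((pv v a (n j)).natAbs : ℝ) := by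
        rw [Int.abs_eq_natAbs] at hlt
        exact_mod_cast hlt.le
      refine le_trans ?_ h7
      calc (H * (n j : ℝ) ^ d) / (L ^ E * 2) = H / L ^ E / 2 * (n j : ℝ) ^ d := by field_simp
        _ ≤ Y * (n j : ℝ) ^ d := by gcongr
    have h6 : Real.log ((H * (n j : ℝ) ^ d) / (L ^ E * 2)) ≤ Real.log ((pv v a (n j)).natAbs : ℝ) :=
      Real.log_le_log (by positivity) h5
    rw [Real.log_div (by positivity) (by positivity), Real.log_mul (p0 _).ne' (by norm_num), Real.log_pow, hlY] at h6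
    have h8 := hηl j
    have hl2 : Real.log 2 ≤ Real.log L := Real.log_le_log (by norm_num) (by linarith)
    have h9 : (E : ℝ) * Real.log L + Real.log 2 ≤ (B + B + E + 3 : ℝ) * Real.log L := by
      have q1 : (0 : ℝ) ≤ B * Real.log L := by positivity
      nlinarith
    linarith
  obtain ⟨c1, c2⟩ := cmp2 g v n l (fun j => (Y : ℤ) * (n j : ℤ) ^ d) η ((2 * Y + 1 + W) / H) hl0 hη0.le hη1
    (fun j => box_smallL d H W Y g v (n j) (by have := hn2 j; omega) hW1 hWH) hup hlow
  have hprod : ∏ j, l j ≤ L ^ (3 * D1) := by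
    calc ∏ j, l j ≤ ∏ _j : Fin k, L ^ 3 := Finset.prod_le_prod (fun j _ => hl0 j) fun j _ => hl_up j
      _ = (L ^ 3) ^ k := by simp
      _ = L ^ (3 * k) := by rw [← pow_mul]
      _ ≤ L ^ (3 * D1) := pw (by omega)
  have hprod0 : 0 ≤ ∏ j, l j := prod_nonneg fun j _ => hl0 j
  have hkD1 : (k : ℝ) ≤ D1 := by exact_mod_cast (by omega : k ≤ D1)
  have hsmall : (∏ j, l j) * (k * ((2 * Y + 1 + W) / H)) ≤ η := by
    have h13 : (2 * (Y : ℝ) + 1 + W) / H ≤ 4 / L ^ E := by
      have h6 : (2 * (Y : ℝ)) / H ≤ 2 / L ^ E := by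
        rw [div_le_div_iff₀ hH0 (p0 _)]
        have := (le_div_iff₀ (p0 E)).1 hYle
        linarith
      have h7 : (1 + (W : ℝ)) / H ≤ 2 / L ^ E := by
        rw [div_le_div_iff₀ hH0 (p0 _)]
        calc (1 + (W : ℝ)) * L ^ E ≤ (L ^ B + L ^ B) * L ^ E := by
              gcongr
          _ = 2 * L ^ (B + E) := by ring
          _ ≤ 2 * H := by
              have := pw (show B + E ≤ B + B * D * D + B + E + 2 by omega)
              linarith
      have h8 : (2 * (Y : ℝ) + 1 + W) / H = 2 * (Y : ℝ) / H + (1 + W) / H := by ring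
      have h9 : 2 / L ^ E + 2 / L ^ E = 4 / L ^ E := by ring
      linarith
    have h16 : (0 : ℝ) ≤ (2 * (Y : ℝ) + 1 + W) / H := by positivity
    calc (∏ j, l j) * (k * ((2 * Y + 1 + W) / H)) ≤ L ^ (3 * D1) * (D1 * (4 / L ^ E)) := by gcongr
      _ = 4 * D1 / L ^ 2 := by
          rw [hE, pow_add]
          field_simp
      _ ≤ 4 * D1 / L := by
          apply div_le_div_of_nonneg_left (by positivity) hL0
          nlinarith
      _ ≤ η := by
          rw [div_le_iff₀ hL0]
          rw [div_le_iff₀ hη0] at hLd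
          linarith
  -- divide by the size of the box
  have hWc : ∀ p ∈ pf W (Dl n), p * W ≤ H := by
    intro p hp
    obtain ⟨q1, q2, q3⟩ := pf_prime hp
    have h5 : p * W ≤ W * Dl n := by
      rw [mul_comm]
      exact Nat.mul_le_mul_left _ (Nat.le_of_dvd (Dl_pos n hn) q2)
    have h6 : ((W * Dl n : ℕ) : ℝ) ≤ L ^ (B + B * D * D) := R_le hkD L hL1 W hWB n hx
    have h7 : ((W * Dl n : ℕ) : ℝ) ≤ H := h6.trans ((pw (by omega)).trans hHC2)
    exact h5.trans (by exact_mod_cast h7)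
  have hloc := loc d H W hW1 g v k n hn hWc
  have hρ : 1 ≤ rho W := rho_ge hW1
  have hG := GG_ge_one W (Dl n) (3 ^ k) (by positivity)
  set b : ℝ := ((box d H W g).card : ℝ) with hb
  set S := ∑ a ∈ box d H W g, Ph v n a with hS
  set M := ∑ a ∈ box d H W g, ∏ j, PL.mt (W * Dl n) (rho (W * Dl n)) (pv v a (n j)) with hM
  set y : ℝ := (if ∀ j, IsCoprime (pv v g (n j)) (W : ℤ) then rho W ^ k else 0) with hy
  have hy01 : 0 ≤ y ∧ y ≤ rho W ^ k := by
    rw [hy]
    split_ifs
    · exact ⟨by positivity, le_rfl⟩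
    · exact ⟨le_rfl, by positivity⟩
  have hS0 : 0 ≤ S := sum_nonneg fun a _ => Ph_nonneg v n a
  have key := arith (k := k) (D := D1) (by omega) (by omega) δ η 1 ((∏ j, l j) * ((gd H W g v n).card / b)) (S / b) (M / b) y
    (rho W ^ k) (GG W (Dl n) (3 ^ k)) hδ0 hδ1 hη (by positivity) zero_le_one (by positivity) (one_le_pow₀ hρ) hG hy01.1 hy01.2
    ?_ ?_ ?_ ?_
  · rw [one_pow, one_mul, hl] at key
    exact key
  · rw [← sub_div, abs_div, abs_of_pos hb0, div_le_iff₀ hb0]
    refine hc1.trans ?_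
    rw [pow_one, div_le_iff₀ hL0]
    have h5 : 1 ≤ η * L := by
      rw [div_le_iff₀ hη0] at hLc
      linarith
    nlinarith
  · have e : M / b - y = (M - y * b) / b := by field_simp
    rw [e, abs_div, abs_of_pos hb0, div_le_iff₀ hb0]
    exact hloc
  · have e : ((1 - η) * 1) ^ k * ((∏ j, l j) * ((gd H W g v n).card / b)) =
        ((1 - η) ^ k * ((∏ j, l j) * (gd H W g v n).card)) / b := by rw [mul_one]; ring
    rw [e, div_le_iff₀ hb0, add_mul, div_mul_cancel₀ _ hb0.ne']
    refine c2.trans ?_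
    apply add_le_add_right
    calc (∏ j, l j) * (k * ((2 * Y + 1 + W) / H * b)) = (∏ j, l j) * (k * ((2 * Y + 1 + W) / H)) * b := by ring
      _ ≤ η * b := by gcongr
  · have e : ((1 + η) * 1) ^ k * ((∏ j, l j) * ((gd H W g v n).card / b)) =
        ((1 + η) ^ k * ((∏ j, l j) * (gd H W g v n).card)) / b := by rw [mul_one]; ring
    rw [e, div_le_div_iff_of_pos_right hb0]
    exact c1

end Pool.Agent.K1H89.LD
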