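import Mathlib
import Pool.Agent.K1H89.LD.B4
import Pool.Agent.K1H89.PL.A16

/-! Families of polynomials of large degrees. -/

set_option autoImplicit false

namespace Pool.Agent.K1H89.LD

open Finset Polynomial Filter
open Pool.Agent.K1H89.PL
open Pool.Agent.TH445.OI (evN ev_pow)

/-- the family -/
noncomputable def fam2 {s : ℕ} (d H : Fin s → ℕ) (W : ℕ) (g : ∀ i, Fin (d i + 1) → ℤ) : Finset (∀ i, Fin (d i + 1) → ℤ) :=
  Fintype.piFinset (fun i => PL.box (d i) (H i) W (g i))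

/-- all the values at the points of `A` are primes -/
def allp2 {s : ℕ} {d : Fin s → ℕ} (v : Fin s → ℕ → ℤ) (a : ∀ i, Fin (d i + 1) → ℤ) (A : Finset ℕ) : Prop :=
  ∀ i, ∀ n ∈ A, (pv (v i) (a i) n).natAbs.Prime

/-- `n` is admissible modulo `W` -/
def okn2 {s : ℕ} {d : Fin s → ℕ} (v : Fin s → ℕ → ℤ) (g : ∀ i, Fin (d i + 1) → ℤ) (W n : ℕ) : Prop :=
  ∀ i, IsCoprime (pv (v i) (g i) n) (W : ℤ)

open Classical in
/-- the probability that all the values at the points of `A` are primes -/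
noncomputable def PA2 {s : ℕ} (d H : Fin s → ℕ) (W : ℕ) (v : Fin s → ℕ → ℤ) (g : ∀ i, Fin (d i + 1) → ℤ) (A : Finset ℕ) : ℝ :=
  ((fam2 d H W g).filter (fun a => allp2 v a A)).card / (fam2 d H W g).card

/-- the product of the logarithms of the sizes of the values at `n` -/
noncomputable def lw {s : ℕ} (d H : Fin s → ℕ) (n : ℕ) : ℝ := ∏ i, (Real.log (H i) + d i * Real.log n)

lemma PA2_prod {s : ℕ} (d H : Fin s → ℕ) (W : ℕ) (v : Fin s → ℕ → ℤ) (g : ∀ i, Fin (d i + 1) → ℤ) (A : Finset ℕ) {k : ℕ}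
    (hA : A.card = k) :
    PA2 d H W v g A = ∏ i, (((gd (H i) W (g i) (v i) (A.orderEmbOfFin hA)).card : ℝ) / (PL.box (d i) (H i) W (g i)).card) := by
  classical
  unfold PA2
  have e : (fam2 d H W g).filter (fun a => allp2 v a A) =
      Fintype.piFinset (fun i => gd (H i) W (g i) (v i) (A.orderEmbOfFin hA)) := by
    ext a
    unfold fam2 gd allp2
    simp only [mem_filter, Fintype.mem_piFinset]
    constructor
    · rintro ⟨h1, h2⟩ i
      exact ⟨h1 i, fun j => h2 i _ (orderEmbOfFin_mem A hA j)⟩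
    · intro h
      refine ⟨fun i => (h i).1, fun i n hn => ?_⟩
      rw [← map_orderEmbOfFin_univ A hA, Finset.mem_map] at hn
      obtain ⟨j, _, rfl⟩ := hn
      exact (h i).2 j
  have e2 : (((fam2 d H W g).filter (fun a => allp2 v a A)).card : ℝ) =
      ∏ i, ((gd (H i) W (g i) (v i) (A.orderEmbOfFin hA)).card : ℝ) := by
    rw [e, Fintype.card_piFinset]
    push_cast
    rfl
  have e3 : ((fam2 d H W g).card : ℝ) = ∏ i, ((PL.box (d i) (H i) W (g i)).card : ℝ) := by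
    unfold fam2
    rw [Fintype.card_piFinset]
    push_cast
    rfl
  rw [e2, e3, prod_div_distrib]

open Classical in
theorem famP2 (s D B : ℕ) : ∃ C : ℕ, ∀ δ : ℝ, 0 < δ → δ ≤ 1 → ∃ L0 : ℝ, ∀ (L : ℝ) (d H : Fin s → ℕ),
    L0 ≤ L → (∀ i, 1 ≤ H i) → (∀ i, L ≤ Real.log (H i) + d i) → (∀ i, (Real.log (H i) + d i) ^ C ≤ H i) →
    ∀ W : ℕ, 1 ≤ W → (W : ℝ) ≤ L ^ B →
    ∀ (v : Fin s → ℕ → ℤ) (g : ∀ i, Fin (d i + 1) → ℤ) (A : Finset ℕ), A.card ≤ D → (∀ i, A.card ≤ d i + 1) →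
    (∀ n ∈ A, 2 ≤ n) → (∀ n ∈ A, (n : ℝ) ≤ L ^ B) →
    (∀ i, ∀ n ∈ A, |((v i n : ℤ) : ℝ)| ≤ (H i * (n : ℝ) ^ (d i)) * (Real.log (H i) + d i) ^ B) →
    |(∏ n ∈ A, lw d H n) * PA2 d H W v g A - (if ∀ n ∈ A, okn2 v g W n then (rho W ^ s) ^ A.card else 0)| ≤
      (rho W ^ s) ^ A.card * ((1 + δ) * GG W (dif A) ((1 + 3 ^ D) ^ (2 * s)) - 1) := by
  obtain ⟨C, h0⟩ := single2 D B
  refine ⟨C, fun δ hδ0 hδ1 => ?_⟩
  obtain ⟨δ', hδ'⟩ : ∃ δ' : ℝ, δ' = δ / 2 ^ s := ⟨_, rfl⟩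
  have hδ'0 : 0 < δ' := by rw [hδ']; positivity
  have h2s : (1 : ℝ) ≤ 2 ^ s := one_le_pow₀ (by norm_num)
  have hδ'1 : δ' ≤ 1 := by
    rw [hδ', div_le_one (by positivity)]
    linarith
  obtain ⟨L1, h1⟩ := h0 δ' hδ'0 hδ'1
  refine ⟨max L1 1, fun L d H hLL hH hLi hC W hW1 hWB v g A hAc hAd hA2 hA hv => ?_⟩
  have hL1 : 1 ≤ L := (le_max_right _ _).trans hLL
  have hLL1 : L1 ≤ L := (le_max_left _ _).trans hLL
  obtain ⟨k, hk⟩ : ∃ k, A.card = k := ⟨_, rfl⟩
  have hLp : 0 < L := by linarith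
  rw [PA2_prod d H W v g A hk, hk]
  set n := A.orderEmbOfFin hk with hn
  have hρ1 : 1 ≤ rho W := rho_ge hW1
  have hρ0 : 0 < rho W := by linarith
  have hρk : 0 < rho W ^ k := by positivity
  set G := GG W (dif A) (3 ^ k) with hG
  have hG1 : 1 ≤ G := GG_ge_one W _ _ (by positivity)
  have hLB : ∀ i, L ^ B ≤ (Real.log (H i) + d i) ^ B := fun i => pow_le_pow_left₀ hLp.le (hLi i) _
  have hsing := fun i => h1 (d i) (H i) (hH i) (hLL1.trans (hLi i)) (hC i) W hW1 (hWB.trans (hLB i)) (v i) (g i) k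
    (by omega) (by have := hAd i; omega) n n.strictMono
    (fun j => hA2 _ (orderEmbOfFin_mem A hk j)) (fun j => (hA _ (orderEmbOfFin_mem A hk j)).trans (hLB i))
    (fun j => hv i _ (orderEmbOfFin_mem A hk j))
  have hDl : Dl (⇑n) = dif A := dif_emb hk
  simp only [hDl] at hsing
  rw [← hG] at hsing
  have hl0 : ∀ i, ∀ j, 0 ≤ Real.log (H i) + d i * Real.log (n j) := by
    intro i j
    have q1 : 0 ≤ Real.log (H i) := Real.log_nonneg (by exact_mod_cast hH i)
    have q2 : 0 ≤ Real.log (n j) := Real.log_nonneg (by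
      have := hA2 _ (orderEmbOfFin_mem A hk j)
      exact_mod_cast (by omega : 1 ≤ A.orderEmbOfFin hk j))
    positivity
  have hclose := prod_close (univ : Finset (Fin s))
    (fun i => (∏ j, (Real.log (H i) + d i * Real.log (n j))) * (((gd (H i) W (g i) (v i) n).card : ℝ) / (PL.box (d i) (H i) W (g i)).card) / rho W ^ k)
    (fun i => if ∀ j, IsCoprime (pv (v i) (g i) (n j)) (W : ℤ) then (1 : ℝ) else 0)
    (2 * (G - 1) + δ') (by linarith) (fun i _ => by positivity) (fun i _ => by split_ifs <;> norm_num)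
    (fun i _ => by
      have : 0 ≤ ∏ j, (Real.log (H i) + d i * Real.log (n j)) := prod_nonneg fun j _ => hl0 i j
      positivity) (fun i _ => by
      have h3 := hsing i
      have e : (∏ j, (Real.log (H i) + d i * Real.log (n j))) * (((gd (H i) W (g i) (v i) n).card : ℝ) / (PL.box (d i) (H i) W (g i)).card) / rho W ^ k -
          (if ∀ j, IsCoprime (pv (v i) (g i) (n j)) (W : ℤ) then (1 : ℝ) else 0) =
          ((∏ j, (Real.log (H i) + d i * Real.log (n j))) * (((gd (H i) W (g i) (v i) n).card : ℝ) / (PL.box (d i) (H i) W (g i)).card) -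
          (if ∀ j, IsCoprime (pv (v i) (g i) (n j)) (W : ℤ) then rho W ^ k else 0)) / rho W ^ k := by
        split_ifs
        · rw [sub_div, div_self hρk.ne']
        · rw [sub_zero, sub_zero]
      rw [e, abs_div, abs_of_pos hρk, div_le_iff₀ hρk]
      refine h3.trans (le_of_eq ?_)
      ring)
  rw [card_univ, Fintype.card_fin] at hclose
  have hexp : (1 + (2 * (G - 1) + δ')) ^ s ≤ (1 + δ) * GG W (dif A) ((1 + 3 ^ D) ^ (2 * s)) := by
    have h3 : 1 + (2 * (G - 1) + δ') ≤ (1 + δ') * G ^ 2 := by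
      have q1 : 0 ≤ δ' * (G ^ 2 - 1) := mul_nonneg hδ'0.le (by nlinarith)
      nlinarith [sq_nonneg (G - 1)]
    have h4 : (1 + δ') ^ s ≤ 1 + δ := by
      have := pow_lin 1 δ' zero_le_one hδ'0.le hδ'1 s
      rw [one_mul] at this
      refine this.trans ?_
      have h5 : δ = 2 ^ s * δ' := by rw [hδ']; field_simp
      norm_num
      nlinarith
    calc (1 + (2 * (G - 1) + δ')) ^ s ≤ ((1 + δ') * G ^ 2) ^ s := by
          apply pow_le_pow_left₀ _ h3
          linarith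
      _ = (1 + δ') ^ s * G ^ (2 * s) := by rw [mul_pow, ← pow_mul]
      _ ≤ (1 + δ) * GG W (dif A) ((1 + 3 ^ D) ^ (2 * s)) := by
          have h5 : G ^ (2 * s) ≤ GG W (dif A) ((1 + 3 ^ D) ^ (2 * s)) := by
            refine (GG_pow W (dif A) (3 ^ k) (by positivity) (2 * s)).trans ?_
            apply GG_mono
            · positivity
            · have : (3 : ℝ) ^ k ≤ 3 ^ D := pow_le_pow_right₀ (by norm_num) (by omega)
              gcongr
          gcongr
  obtain ⟨Q, hQ⟩ : ∃ Q : ℝ, Q = ∏ i, (((gd (H i) W (g i) (v i) n).card : ℝ) / (PL.box (d i) (H i) W (g i)).card) := ⟨_, rfl⟩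
  have e0 : ∏ m ∈ A, lw d H m = ∏ i, ∏ j, (Real.log (H i) + d i * Real.log (n j)) := by
    rw [prod_emb hk, Finset.prod_comm]
    rfl
  have e1 : ∏ i : Fin s, ((∏ j, (Real.log (H i) + d i * Real.log (n j))) * (((gd (H i) W (g i) (v i) n).card : ℝ) / (PL.box (d i) (H i) W (g i)).card) / rho W ^ k) =
      (∏ m ∈ A, lw d H m) * Q / (rho W ^ s) ^ k := by
    rw [hQ, e0, prod_div_distrib, prod_mul_distrib, prod_const, card_univ, Fintype.card_fin, ← pow_mul, ← pow_mul, mul_comm k s]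
  have e2 : ∏ i : Fin s, (if ∀ j, IsCoprime (pv (v i) (g i) (n j)) (W : ℤ) then (1 : ℝ) else 0) =
      if ∀ m ∈ A, okn2 v g W m then 1 else 0 := by
    split_ifs with h
    · apply prod_eq_one
      intro i _
      rw [if_pos]
      intro j
      exact h _ (orderEmbOfFin_mem A hk j) i
    · push Not at h
      obtain ⟨m, hm, hm2⟩ := h
      unfold okn2 at hm2
      push Not at hm2
      obtain ⟨i, hi⟩ := hm2
      apply prod_eq_zero (mem_univ i)
      rw [if_neg]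
      intro hcon
      rw [← map_orderEmbOfFin_univ A hk, Finset.mem_map] at hm
      obtain ⟨j, _, rfl⟩ := hm
      exact hi (hcon j)
  rw [e1, e2] at hclose
  have hR : 0 < (rho W ^ s) ^ k := by positivity
  rw [← hQ]
  have e3 : (∏ m ∈ A, lw d H m) * Q -
      (if ∀ m ∈ A, okn2 v g W m then (rho W ^ s) ^ k else 0) =
      (rho W ^ s) ^ k * ((∏ m ∈ A, lw d H m) * Q / (rho W ^ s) ^ k -
        (if ∀ m ∈ A, okn2 v g W m then 1 else 0)) := by
    rw [mul_sub, mul_div_cancel₀ _ hR.ne']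
    congr 1
    split_ifs <;> ring
  rw [e3, abs_mul, abs_of_pos hR]
  apply mul_le_mul_of_nonneg_left _ hR.le
  linarith

end Pool.Agent.K1H89.LD
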