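import Mathlib
import Pool.Agent.K1H89.PL.A16

/-! Weighted sums over the subsets of a set. -/

set_option autoImplicit false

namespace Pool.Agent.K1H89.LD

open Finset Filter
open Pool.Agent.K1H89.PL
open Pool.Agent.TH445.OI (evN ev_pow)

lemma wsum_le (κ : ℕ → ℝ) (hκ : ∀ n, 0 ≤ κ n) (X : Finset ℕ) : ∀ k : ℕ,
    ∑ A ∈ powersetCard k X, ∏ n ∈ A, κ n ≤ (∑ n ∈ X, κ n) ^ k := by
  induction X using Finset.induction_on with
  | empty =>
    intro k
    cases k with
    | zero => simp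
    | succ k => rw [powersetCard_eq_empty.2 (by simp)]; simp
  | insert x X hx ih =>
    intro k
    cases k with
    | zero => simp
    | succ k =>
      rw [powersetCard_succ_insert hx, sum_union, sum_image, sum_insert hx]
      · have e : ∑ A ∈ powersetCard k X, ∏ n ∈ insert x A, κ n = κ x * ∑ A ∈ powersetCard k X, ∏ n ∈ A, κ n := by
          rw [mul_sum]
          apply sum_congr rfl
          intro A hA
          rw [mem_powersetCard] at hA
          rw [prod_insert (fun h => hx (hA.1 h))]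
        rw [e]
        have h1 := ih (k + 1)
        have h2 := ih k
        set S := ∑ n ∈ X, κ n with hS
        have hS0 : 0 ≤ S := sum_nonneg fun n _ => hκ n
        have hx0 := hκ x
        have h3 : S ^ k ≤ (κ x + S) ^ k := pow_le_pow_left₀ hS0 (by linarith) _
        calc ∑ A ∈ powersetCard (k + 1) X, ∏ n ∈ A, κ n + κ x * ∑ A ∈ powersetCard k X, ∏ n ∈ A, κ n
            ≤ S ^ (k + 1) + κ x * S ^ k := by gcongr
          _ = (κ x + S) * S ^ k := by ring
          _ ≤ (κ x + S) * (κ x + S) ^ k := by gcongr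
          _ = (κ x + S) ^ (k + 1) := by ring
      · intro A hA B hB hAB
        simp only [mem_coe, mem_powersetCard] at hA hB
        have h1 : (insert x A).erase x = (insert x B).erase x := by
          rw [hAB]
        rwa [erase_insert (fun h => hx (hA.1 h)), erase_insert (fun h => hx (hB.1 h))] at h1
      · rw [disjoint_left]
        intro A hA hA2
        rw [mem_image] at hA2
        obtain ⟨B, hB, rfl⟩ := hA2
        rw [mem_powersetCard] at hA
        exact hx (hA.1 (mem_insert_self _ _))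

lemma wtwo (κ : ℕ → ℝ) (hκ : ∀ n, 0 ≤ κ n) (X : Finset ℕ) (k a b : ℕ) (hab : a < b) :
    ∑ A ∈ (powersetCard k X).filter (fun A => a ∈ A ∧ b ∈ A), ∏ n ∈ A, κ n ≤
      κ a * κ b * (∑ n ∈ X, κ n) ^ (k - 2) := by
  have h1 : ∀ A ∈ (powersetCard k X).filter (fun A => a ∈ A ∧ b ∈ A), ∏ n ∈ A, κ n =
      κ a * κ b * ∏ n ∈ (A.erase a).erase b, κ n := by
    intro A hA
    rw [mem_filter] at hA
    have hb : b ∈ A.erase a := by
      rw [mem_erase]
      exact ⟨hab.ne', hA.2.2⟩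
    rw [mul_assoc, mul_prod_erase _ _ hb, mul_prod_erase _ _ hA.2.1]
  rw [sum_congr rfl h1, ← mul_sum]
  apply mul_le_mul_of_nonneg_left _ (mul_nonneg (hκ a) (hκ b))
  refine le_trans ?_ (wsum_le κ hκ X (k - 2))
  have hinj : Set.InjOn (fun A : Finset ℕ => (A.erase a).erase b)
      (((powersetCard k X).filter (fun A => a ∈ A ∧ b ∈ A) : Finset (Finset ℕ)) : Set (Finset ℕ)) := by
    intro A hA B hB hAB
    simp only [coe_filter, Set.mem_ofPred_eq] at hA hB
    simp only at hAB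
    have e1 : insert a (insert b ((A.erase a).erase b)) = A := by
      rw [insert_erase, insert_erase hA.2.1]
      rw [mem_erase]
      exact ⟨hab.ne', hA.2.2⟩
    have e2 : insert a (insert b ((B.erase a).erase b)) = B := by
      rw [insert_erase, insert_erase hB.2.1]
      rw [mem_erase]
      exact ⟨hab.ne', hB.2.2⟩
    rw [← e1, ← e2, hAB]
  rw [← sum_image (f := fun A : Finset ℕ => ∏ n ∈ A, κ n) hinj]
  apply sum_le_sum_of_subset_of_nonneg
  · intro A' hA'
    rw [mem_image] at hA'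
    obtain ⟨A, hA, rfl⟩ := hA'
    simp only [mem_filter, mem_powersetCard] at hA
    obtain ⟨⟨h1, h2⟩, h3, h4⟩ := hA
    rw [mem_powersetCard]
    refine ⟨(erase_subset _ _).trans ((erase_subset _ _).trans h1), ?_⟩
    rw [card_erase_of_mem, card_erase_of_mem h3, h2]
    · omega
    · rw [mem_erase]
      exact ⟨hab.ne', h4⟩
  · intro A _ _
    exact prod_nonneg fun n _ => hκ n

lemma wpair_sum (κ : ℕ → ℝ) (hκ : ∀ n, 0 ≤ κ n) (X : Finset ℕ) (k : ℕ) (f : ℕ → ℝ) (hf : ∀ h, 0 ≤ f h) :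
    ∑ A ∈ powersetCard k X, (∏ n ∈ A, κ n) * ∑ b ∈ A, ∑ a ∈ A.filter (fun a => a < b), f (b - a) ≤
      (∑ n ∈ X, κ n) ^ (k - 2) * ∑ b ∈ X, ∑ a ∈ X.filter (fun a => a < b), κ a * κ b * f (b - a) := by
  have h1 : ∀ A ∈ powersetCard k X, (∏ n ∈ A, κ n) * ∑ b ∈ A, ∑ a ∈ A.filter (fun a => a < b), f (b - a) =
      ∑ b ∈ X, ∑ a ∈ X.filter (fun a => a < b), if (a ∈ A ∧ b ∈ A) then (∏ n ∈ A, κ n) * f (b - a) else 0 := by
    intro A hA
    rw [mem_powersetCard] at hA
    have hAX := hA.1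
    rw [← sum_filter_add_sum_filter_not X (fun b => b ∈ A)]
    have e1 : X.filter (fun b => b ∈ A) = A := by
      ext x
      rw [mem_filter]
      exact ⟨fun h => h.2, fun h => ⟨hAX h, h⟩⟩
    have e2 : ∑ b ∈ X.filter (fun b => ¬ b ∈ A), ∑ a ∈ X.filter (fun a => a < b),
        (if (a ∈ A ∧ b ∈ A) then (∏ n ∈ A, κ n) * f (b - a) else 0) = 0 := by
      apply sum_eq_zero
      intro b hb
      rw [mem_filter] at hb
      apply sum_eq_zero
      intro a _
      rw [if_neg]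
      exact fun h => hb.2 h.2
    rw [e1, e2, add_zero, mul_sum]
    apply sum_congr rfl
    intro b hb
    rw [← sum_filter, mul_sum]
    apply sum_congr _ (fun _ _ => rfl)
    ext x
    simp only [mem_filter]
    constructor
    · rintro ⟨h1, h2⟩
      exact ⟨⟨hAX h1, h2⟩, h1, hb⟩
    · rintro ⟨⟨_, h2⟩, h1, _⟩
      exact ⟨h1, h2⟩
  rw [sum_congr rfl h1, sum_comm, mul_sum]
  apply sum_le_sum
  intro b _
  rw [sum_comm, mul_sum]
  apply sum_le_sum
  intro a ha
  rw [mem_filter] at ha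
  rw [← sum_filter, ← sum_mul]
  have := wtwo κ hκ X k a b ha.2
  calc (∑ A ∈ (powersetCard k X).filter (fun A => a ∈ A ∧ b ∈ A), ∏ n ∈ A, κ n) * f (b - a) ≤
        (κ a * κ b * (∑ n ∈ X, κ n) ^ (k - 2)) * f (b - a) := mul_le_mul_of_nonneg_right this (hf _)
    _ = _ := by ring

/-- summation by parts -/
lemma abel (κ c : ℕ → ℝ) (E : ℝ) (α : ℕ) (hκ0 : ∀ n, 0 ≤ κ n) (hκ : ∀ n, κ (n + 1) ≤ κ n) : ∀ β : ℕ, α ≤ β →
    (∀ t : ℕ, α ≤ t → t ≤ β → ∑ n ∈ Ioc α t, c n ≤ E) → ∑ n ∈ Ioc α β, κ n * c n ≤ κ (α + 1) * E := by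
  intro β hαβ h
  have hE : 0 ≤ E := by
    have := h α le_rfl hαβ
    simpa using this
  rcases Nat.eq_or_lt_of_le hαβ with heq | hlt
  · subst heq
    simp only [Ioc_self, sum_empty]
    exact mul_nonneg (hκ0 _) hE
  have key : ∀ m : ℕ, α + 1 + m ≤ β → ∑ n ∈ Ioc α (α + 1 + m), κ n * c n ≤
      κ (α + 1) * E - κ (α + 1 + m) * (E - ∑ n ∈ Ioc α (α + 1 + m), c n) := by
    intro m
    induction m with
    | zero =>
      intro _
      rw [add_zero, Nat.Ioc_succ_singleton, sum_singleton, sum_singleton]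
      linarith
    | succ m ih =>
      intro hm
      have ih' := ih (by omega)
      have e : α + 1 + (m + 1) = (α + 1 + m) + 1 := by ring
      rw [e, sum_Ioc_succ_top (by omega), sum_Ioc_succ_top (by omega)]
      have h1 := h (α + 1 + m) (by omega) (by omega)
      have h2 := hκ (α + 1 + m)
      set P := ∑ n ∈ Ioc α (α + 1 + m), c n with hP
      have h3 : κ (α + 1 + m + 1) * (E - P) ≤ κ (α + 1 + m) * (E - P) :=
        mul_le_mul_of_nonneg_right h2 (by linarith)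
      nlinarith
  obtain ⟨m, rfl⟩ : ∃ m, β = α + 1 + m := ⟨β - (α + 1), by omega⟩
  have h1 := key m le_rfl
  have h2 := h (α + 1 + m) (by omega) le_rfl
  have h3 : 0 ≤ κ (α + 1 + m) * (E - ∑ n ∈ Ioc α (α + 1 + m), c n) := mul_nonneg (hκ0 _) (by linarith)
  linarith

lemma wshift_sum (κ : ℕ → ℝ) (hκ0 : ∀ n, 0 ≤ κ n) (hκ : ∀ n, κ (n + 1) ≤ κ n) (κm : ℝ) (f : ℕ → ℝ) (a α β : ℕ) (c L : ℝ)
    (hc : 0 ≤ c) (hL : 0 ≤ L) (hκm : κ (α + 1) ≤ κm)
    (h : ∀ γ δ : ℕ, γ ≤ δ → δ ≤ β → ∑ h ∈ Ioc γ δ, f h ≤ c * (((δ : ℝ) - γ) + L)) :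
    ∑ b ∈ (Ioc α β).filter (fun b => a < b), κ b * f (b - a) ≤ c * (∑ b ∈ Ioc α β, κ b + κm * L) := by
  have hanti : Antitone κ := antitone_nat_of_succ_le hκ
  have hκm0 : 0 ≤ κm := (hκ0 _).trans hκm
  have hS0 : 0 ≤ ∑ b ∈ Ioc α β, κ b := sum_nonneg fun b _ => hκ0 b
  rcases lt_or_ge (max α a) β with hlt | hge
  · have e : (Ioc α β).filter (fun b => a < b) = Ioc (max α a) β := by
      ext b
      simp only [mem_filter, mem_Ioc]
      omega
    rw [e]
    have h1 := abel κ (fun b => f (b - a) - c) (c * L) (max α a) hκ0 hκ β hlt.le (by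
      intro t ht1 ht2
      rw [sum_sub_distrib, sum_const, Nat.card_Ioc, nsmul_eq_mul]
      have e2 : ∑ b ∈ Ioc (max α a) t, f (b - a) = ∑ h ∈ Ioc (max α a - a) (t - a), f h := by
        apply sum_nbij' (fun b => b - a) (fun h => h + a)
        · intro b hb
          simp only [mem_Ioc] at hb ⊢
          omega
        · intro b hb
          simp only [mem_Ioc] at hb ⊢
          omega
        · intro b hb
          simp only [mem_Ioc] at hb
          omega
        · intro b hb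
          simp only [mem_Ioc] at hb
          omega
        · intro b _
          rfl
      rw [e2]
      have h2 := h (max α a - a) (t - a) (by omega) (by omega)
      have h3 : ((t - a : ℕ) : ℝ) - ((max α a - a : ℕ) : ℝ) = ((t - max α a : ℕ) : ℝ) := by
        rw [Nat.cast_sub (by omega), Nat.cast_sub (by omega), Nat.cast_sub (by omega)]
        ring
      rw [h3] at h2
      linarith)
    have h4 : ∑ n ∈ Ioc (max α a) β, κ n * (f (n - a) - c) = ∑ n ∈ Ioc (max α a) β, κ n * f (n - a) -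
        c * ∑ n ∈ Ioc (max α a) β, κ n := by
      rw [mul_sum, ← sum_sub_distrib]
      apply sum_congr rfl
      intro n _
      ring
    rw [h4] at h1
    have h5 : ∑ n ∈ Ioc (max α a) β, κ n ≤ ∑ n ∈ Ioc α β, κ n := by
      apply sum_le_sum_of_subset_of_nonneg
      · intro x
        simp only [mem_Ioc]
        omega
      · intro i _ _
        exact hκ0 i
    have h6 : κ (max α a + 1) ≤ κm := (hanti (by omega)).trans hκm
    have h7 : κ (max α a + 1) * (c * L) ≤ κm * (c * L) := by gcongr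
    have h8 : c * ∑ n ∈ Ioc (max α a) β, κ n ≤ c * ∑ n ∈ Ioc α β, κ n := by gcongr
    nlinarith
  · have e : (Ioc α β).filter (fun b => a < b) = ∅ := by
      rw [filter_eq_empty_iff]
      intro b hb
      rw [mem_Ioc] at hb
      omega
    rw [e, sum_empty]
    positivity

lemma XX_wpairs {J : ℕ} (κ : ℕ → ℝ) (hκ0 : ∀ n, 0 ≤ κ n) (hκ : ∀ n, κ (n + 1) ≤ κ n) (κm : ℝ) (α β : Fin J → ℕ)
    (hκm : ∀ j, κ (α j + 1) ≤ κm)
    (hd : ((univ : Finset (Fin J)) : Set (Fin J)).PairwiseDisjoint (fun j => Ioc (α j) (β j)))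
    (f : ℕ → ℝ) (c L : ℝ) (hc : 0 ≤ c) (hL : 0 ≤ L)
    (h : ∀ j, ∀ γ δ : ℕ, γ ≤ δ → δ ≤ β j → ∑ h ∈ Ioc γ δ, f h ≤ c * (((δ : ℝ) - γ) + L)) :
    ∑ b ∈ XX α β, ∑ a ∈ (XX α β).filter (fun a => a < b), κ a * κ b * f (b - a) ≤
      c * ((∑ n ∈ XX α β, κ n) * (∑ n ∈ XX α β, κ n + J * (κm * L))) := by
  have e : ∑ b ∈ XX α β, ∑ a ∈ (XX α β).filter (fun a => a < b), κ a * κ b * f (b - a) =
      ∑ a ∈ XX α β, κ a * ∑ b ∈ (XX α β).filter (fun b => a < b), κ b * f (b - a) := by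
    simp only [sum_filter, mul_sum]
    rw [sum_comm]
    apply sum_congr rfl
    intro a _
    apply sum_congr rfl
    intro b _
    split_ifs
    · ring
    · ring
  rw [e]
  have h1 : ∀ a ∈ XX α β, κ a * ∑ b ∈ (XX α β).filter (fun b => a < b), κ b * f (b - a) ≤
      κ a * (c * (∑ n ∈ XX α β, κ n + J * (κm * L))) := by
    intro a _
    apply mul_le_mul_of_nonneg_left _ (hκ0 a)
    rw [sum_filter, XX_sum α β hd, XX_sum α β hd]
    calc ∑ j, ∑ b ∈ Ioc (α j) (β j), (if a < b then κ b * f (b - a) else 0) ≤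
          ∑ j, c * (∑ b ∈ Ioc (α j) (β j), κ b + κm * L) := by
          apply sum_le_sum
          intro j _
          rw [← sum_filter]
          exact wshift_sum κ hκ0 hκ κm f a (α j) (β j) c L hc hL (hκm j) (h j)
      _ = c * (∑ j, ∑ b ∈ Ioc (α j) (β j), κ b + J * (κm * L)) := by
          rw [← mul_sum, sum_add_distrib, sum_const, card_univ, Fintype.card_fin, nsmul_eq_mul]
  refine (sum_le_sum h1).trans (le_of_eq ?_)
  rw [← sum_mul]
  ring

theorem GG_avgL (C B : ℕ) (hC : 1 ≤ C) (w : ℕ) (hw : C ≤ w) : ∃ L0 : ℝ, ∀ L : ℝ, L0 ≤ L → ∀ W : ℕ,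
    (∀ p : ℕ, p.Prime → p ≤ w → p ∣ W) → ∀ α β : ℕ, α ≤ β → (β : ℝ) ≤ L ^ B →
    ∑ h ∈ Ioc α β, (GG W h C - 1) ≤ 2 * C / w * (((β : ℝ) - α) + L) := by
  obtain ⟨K, hK1, hK⟩ := mert
  have hw0 : (0 : ℝ) < w := by exact_mod_cast (by omega : 0 < w)
  have hC1 : (1 : ℝ) ≤ C := by exact_mod_cast hC
  have hKB : 0 < (K * ((B : ℝ) + 1)) ^ C := by positivity
  have hev : ∀ᶠ x : ℝ in atTop, (K * ((B : ℝ) + 1) * Real.log x) ^ C ≤ (C / w) * x := by
    have h1 : ∀ᶠ y : ℝ in atTop, ‖Real.log y ^ C‖ ≤ ((C : ℝ) / w / (K * ((B : ℝ) + 1)) ^ C) * ‖y‖ :=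
      (Real.isLittleO_pow_log_id_atTop (n := C)).def (by positivity)
    filter_upwards [h1.and (eventually_ge_atTop 1)] with x hx
    obtain ⟨h3, h4⟩ := hx
    have h5 : 0 ≤ Real.log x := Real.log_nonneg h4
    rw [Real.norm_of_nonneg (by positivity), Real.norm_of_nonneg (by linarith), div_mul_eq_mul_div, le_div_iff₀ hKB] at h3
    rw [mul_pow]
    linarith
  obtain ⟨L1, h1⟩ := hev.exists_forall_of_atTop
  refine ⟨max L1 2, fun L hLL W hW α β hαβ hβ => ?_⟩
  have hc1 := h1 L ((le_max_left _ _).trans hLL)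
  have hc2 : 2 ≤ L := (le_max_right _ _).trans hLL
  have hL0 : 0 < L := by linarith
  set Y := max β 2 with hY
  have hYL : (Y : ℝ) ≤ L ^ (B + 1) := by
    rw [hY]
    push_cast
    apply max_le
    · exact hβ.trans (pow_le_pow_right₀ (by linarith) (by omega))
    · calc (2 : ℝ) ≤ L := hc2
        _ = L ^ 1 := (pow_one _).symm
        _ ≤ L ^ (B + 1) := pow_le_pow_right₀ (by linarith) (by omega)
  have hY2 : 2 ≤ Y := le_max_right _ _
  have hMP : MP Y ≤ K * ((B : ℝ) + 1) * Real.log L := by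
    refine (hK Y hY2).trans ?_
    rw [mul_assoc]
    apply mul_le_mul_of_nonneg_left _ (by linarith)
    calc Real.log Y ≤ Real.log (L ^ (B + 1)) := Real.log_le_log (by exact_mod_cast (by omega : 0 < Y)) hYL
      _ = ((B : ℝ) + 1) * Real.log L := by rw [Real.log_pow]; push_cast; ring
  have hMP0 : 0 ≤ MP Y := by
    unfold MP
    apply prod_nonneg
    intro p hp
    have h2 : (2 : ℝ) ≤ p := by exact_mod_cast (mem_prN.1 hp).2.two_le
    have : (p : ℝ)⁻¹ ≤ 1 := inv_le_one_of_one_le₀ (by linarith)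
    apply inv_nonneg.2
    linarith
  have hs := GG_sum w Y W C α β hW hαβ (le_max_left _ _)
  have hlen : (0 : ℝ) ≤ (β : ℝ) - α := by
    have : (α : ℝ) ≤ β := by exact_mod_cast hαβ
    linarith
  have h3 : ∏ p ∈ prN Y, (1 + (C : ℝ) / p) ≤ (C / w) * L :=
    (prod_lin_le Y C).trans ((pow_le_pow_left₀ hMP0 hMP C).trans hc1)
  have h4 : Real.exp ((C : ℝ) / w) ≤ 1 + 2 * (C / w) := by
    have hx0 : (0 : ℝ) ≤ C / w := by positivity
    have hx1 : (C : ℝ) / w ≤ 1 := by
      rw [div_le_one hw0]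
      exact_mod_cast hw
    have := Real.abs_exp_sub_one_sub_id_le (x := (C : ℝ) / w) (by rw [abs_of_nonneg hx0]; exact hx1)
    have h5 := (abs_le.1 this).2
    nlinarith
  have h5 := (prod_sq_le w Y C (by omega)).trans h4
  rw [sum_sub_distrib, sum_const, Nat.card_Ioc, nsmul_eq_mul, mul_one, Nat.cast_sub hαβ]
  calc ∑ h ∈ Ioc α β, GG W h C - ((β : ℝ) - α) ≤ (((β : ℝ) - α) * (1 + 2 * (C / w)) + (C / w) * L) - ((β : ℝ) - α) := by
        have := mul_le_mul_of_nonneg_left h5 hlen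
        linarith
    _ = 2 * C / w * ((β : ℝ) - α) + C / w * L := by ring
    _ ≤ 2 * C / w * (((β : ℝ) - α) + L) := by
        have : 0 ≤ (C : ℝ) / w * L := by positivity
        have e : 2 * (C : ℝ) / w * (((β : ℝ) - α) + L) = 2 * C / w * ((β : ℝ) - α) + 2 * (C / w * L) := by ring
        rw [e]
        linarith

end Pool.Agent.K1H89.LD
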