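import Mathlib
import Pool.Agent.K1H89.LD.B5
import Pool.Agent.K1H89.LD.B6

/-! The sum over all subsets of a union of windows, with weights. -/

set_option autoImplicit false

namespace Pool.Agent.K1H89.LD

open Finset Filter
open Pool.Agent.K1H89.PL
open Pool.Agent.TH445.OI (evN ev_pow)

lemma lw_mono {s : ℕ} (d H : Fin s → ℕ) {m n : ℕ} (hm : 1 ≤ m) (hmn : m ≤ n) : lw d H m ≤ lw d H n := by
  unfold lw
  apply Finset.prod_le_prod
  · intro i _
    have := Real.log_natCast_nonneg (H i)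
    have := Real.log_natCast_nonneg m
    positivity
  · intro i _
    have : Real.log (m : ℝ) ≤ Real.log n := Real.log_le_log (by exact_mod_cast hm) (by exact_mod_cast hmn)
    gcongr

lemma lw_ge {s : ℕ} (d H : Fin s → ℕ) (L : ℝ) (hL : 0 ≤ L) (hLi : ∀ i, L ≤ Real.log (H i) + d i) {n : ℕ} (hn : 2 ≤ n) :
    (L / 2) ^ s ≤ lw d H n := by
  unfold lw
  calc (L / 2) ^ s = ∏ _i : Fin s, (L / 2) := by rw [prod_const, card_univ, Fintype.card_fin]
    _ ≤ _ := by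
        apply Finset.prod_le_prod
        · intro i _
          positivity
        · intro i _
          have h1 := hLi i
          have h2 := Real.log_natCast_nonneg (H i)
          have q1 : 1 / 2 ≤ Real.log (n : ℝ) := by
            have q2 : Real.log 2 ≤ Real.log (n : ℝ) := Real.log_le_log (by norm_num) (by exact_mod_cast hn)
            have := Real.log_two_gt_d9
            linarith
          have h3 : (0 : ℝ) ≤ d i := Nat.cast_nonneg _
          nlinarith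

/-- the weight of a point -/
noncomputable def kp {s : ℕ} (d H : Fin s → ℕ) (W n : ℕ) : ℝ := rho W ^ s / lw d H (max n 2)

lemma kp_eq {s : ℕ} (d H : Fin s → ℕ) (W : ℕ) {n : ℕ} (hn : 2 ≤ n) : kp d H W n = rho W ^ s / lw d H n := by
  unfold kp
  rw [max_eq_left hn]

lemma kp_nonneg {s : ℕ} (d H : Fin s → ℕ) (W n : ℕ) (L : ℝ) (hL : 0 < L) (hLi : ∀ i, L ≤ Real.log (H i) + d i) :
    0 ≤ kp d H W n := by
  unfold kp
  have h1 := lw_ge d H L hL.le hLi (le_max_right n 2)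
  have h2 : 0 < (L / 2) ^ s := by positivity
  have h3 : 0 ≤ rho W := by unfold rho; positivity
  exact div_nonneg (by positivity) (by linarith)

lemma kp_anti {s : ℕ} (d H : Fin s → ℕ) (W n : ℕ) (L : ℝ) (hL : 0 < L) (hLi : ∀ i, L ≤ Real.log (H i) + d i) :
    kp d H W (n + 1) ≤ kp d H W n := by
  unfold kp
  have h1 := lw_ge d H L hL.le hLi (le_max_right n 2)
  have h2 : 0 < (L / 2) ^ s := by positivity
  have h3 : 0 ≤ rho W := by unfold rho; positivity
  apply div_le_div_of_nonneg_left (by positivity) (by linarith)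
  apply lw_mono
  · have := le_max_right n 2
    omega
  · omega

lemma kp_le {s : ℕ} (d H : Fin s → ℕ) (W n : ℕ) (L : ℝ) (hL : 0 < L) (hLi : ∀ i, L ≤ Real.log (H i) + d i) :
    kp d H W n ≤ rho W ^ s / (L / 2) ^ s := by
  unfold kp
  have h1 := lw_ge d H L hL.le hLi (le_max_right n 2)
  have h2 : 0 < (L / 2) ^ s := by positivity
  have h3 : 0 ≤ rho W := by unfold rho; positivity
  exact div_le_div_of_nonneg_left (by positivity) h2 h1

lemma kpm_le {s : ℕ} (hs : 1 ≤ s) (W : ℕ) (L : ℝ) (hL : 1 ≤ L) : rho W ^ s / (L / 2) ^ s * L ≤ 2 ^ s * rho W ^ s := by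
  have h3 : 0 ≤ rho W := by unfold rho; positivity
  have hLs : L ≤ L ^ s := le_self_pow₀ hL (by omega)
  have h1 : 0 < L := by linarith
  rw [div_pow, div_mul_eq_mul_div, div_le_iff₀ (by positivity)]
  have e : 2 ^ s * rho W ^ s * (L ^ s / 2 ^ s) = rho W ^ s * L ^ s := by field_simp
  rw [e]
  gcongr

open Classical in
theorem L1w (s D B J : ℕ) (hs : 1 ≤ s) (hB : 1 ≤ B) : ∃ C : ℕ, ∀ lam ε : ℝ, 0 ≤ lam → 0 < ε → ∃ w0 : ℕ, ∀ w : ℕ, w0 ≤ w →
    ∃ L0 : ℝ, ∀ (L : ℝ) (d H : Fin s → ℕ), L0 ≤ L → (∀ i, 1 ≤ H i) → (∀ i, L ≤ Real.log (H i) + d i) →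
    (∀ i, (Real.log (H i) + d i) ^ C ≤ H i) →
    ∀ (v : Fin s → ℕ → ℤ) (g : ∀ i, Fin (d i + 1) → ℤ) (α β : Fin J → ℕ), (∀ j, 1 ≤ α j) →
    (∀ j, (β j : ℝ) ≤ L ^ B) →
    (∀ i, ∀ n ∈ XX α β, |((v i n : ℤ) : ℝ)| ≤ (H i * (n : ℝ) ^ (d i)) * (Real.log (H i) + d i) ^ B) →
    ((univ : Finset (Fin J)) : Set (Fin J)).PairwiseDisjoint (fun j => Ioc (α j) (β j)) →
    ∑ n ∈ XX α β, 1 / lw d H n ≤ lam → ∀ k : ℕ, k ≤ D → (∀ i, k ≤ d i + 1) →
    ∑ A ∈ powersetCard k (XX α β), |PA2 d H (primorial w) v g A -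
      (if ∀ n ∈ A, okn2 v g (primorial w) n then ∏ n ∈ A, (rho (primorial w) ^ s / lw d H n) else 0)| ≤ ε := by
  obtain ⟨CC, hfam0⟩ := famP2 s D B
  refine ⟨CC, fun lam ε hlam hε => ?_⟩
  obtain ⟨C0, hC0⟩ : ∃ C0 : ℕ, C0 = (1 + 3 ^ D) ^ (2 * s) := ⟨_, rfl⟩
  obtain ⟨C, hC⟩ : ∃ C : ℕ, C = (1 + C0) ^ (D * D) := ⟨_, rfl⟩
  have hC1 : 1 ≤ C := by rw [hC]; exact Nat.one_le_pow _ _ (by omega)
  have hC1' : (1 : ℝ) ≤ C := by exact_mod_cast hC1
  obtain ⟨K, hK1, hK⟩ := mert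
  obtain ⟨J', hJ'⟩ : ∃ J' : ℝ, J' = J * 2 ^ s := ⟨_, rfl⟩
  have hJ0 : (0 : ℝ) ≤ J' := by rw [hJ']; positivity
  obtain ⟨c1, hc1⟩ : ∃ c1 : ℝ, c1 = 8 * C * (lam + J' + 1) ^ D * K ^ (s * D) / ε := ⟨_, rfl⟩
  have hc10 : 0 < c1 := by rw [hc1]; positivity
  obtain ⟨w1, hw1⟩ := evN _ (ev_pow (s * D) c1 1 one_pos)
  refine ⟨max (max w1 C) 2, fun w hw => ?_⟩
  have hwc := hw1 w (by omega)
  rw [Real.rpow_one] at hwc
  have hw0 : (0 : ℝ) < w := by exact_mod_cast (by omega : 0 < w)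
  have hlw : 0 < Real.log w := Real.log_pos (by exact_mod_cast (by omega : 1 < w))
  obtain ⟨W, hW⟩ : ∃ W, W = primorial w := ⟨_, rfl⟩
  have hW1 : 1 ≤ W := by rw [hW]; exact primorial_pos w
  have hρ1 : 1 ≤ rho W := rho_ge hW1
  obtain ⟨Λ, hΛ⟩ : ∃ Λ : ℝ, Λ = rho W ^ s * (lam + J' + 1) := ⟨_, rfl⟩
  have hρs : 1 ≤ rho W ^ s := one_le_pow₀ hρ1
  have hΛ1 : 1 ≤ Λ := by
    rw [hΛ]
    nlinarith
  have hΛw : 4 * C / w * Λ ^ D ≤ ε / 2 := by
    have h1 : rho W ≤ K * Real.log w := by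
      rw [hW]
      exact (rho_primorial_le w).trans (hK w (by omega))
    have h2 : Λ ^ D ≤ (lam + J' + 1) ^ D * K ^ (s * D) * Real.log w ^ (s * D) := by
      rw [hΛ, mul_pow, ← pow_mul]
      calc rho W ^ (s * D) * (lam + J' + 1) ^ D ≤ (K * Real.log w) ^ (s * D) * (lam + J' + 1) ^ D := by
            gcongr
        _ = _ := by rw [mul_pow]; ring
    have h3 : 4 * C / w * Λ ^ D ≤ 4 * C / w * ((lam + J' + 1) ^ D * K ^ (s * D) * Real.log w ^ (s * D)) := by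
      gcongr
    refine h3.trans ?_
    have h4 : c1 * Real.log w ^ (s * D) * (ε / 2) ≤ w * (ε / 2) := by gcongr
    rw [div_mul_eq_mul_div, div_le_iff₀ hw0]
    refine le_trans (le_of_eq ?_) (h4.trans (le_of_eq (by ring)))
    rw [hc1]
    field_simp
    ring
  obtain ⟨δ, hδ⟩ : ∃ δ : ℝ, δ = min 1 (ε / (2 * Λ ^ D)) := ⟨_, rfl⟩
  have hΛD : 0 < Λ ^ D := by positivity
  have hδ0 : 0 < δ := by rw [hδ]; exact lt_min one_pos (by positivity)
  have hδ1 : δ ≤ 1 := by rw [hδ]; exact min_le_left _ _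
  have hδΛ : δ * Λ ^ D ≤ ε / 2 := by
    have : δ ≤ ε / (2 * Λ ^ D) := by rw [hδ]; exact min_le_right _ _
    calc δ * Λ ^ D ≤ ε / (2 * Λ ^ D) * Λ ^ D := by gcongr
      _ = ε / 2 := by field_simp
  obtain ⟨L1, h1⟩ := hfam0 δ hδ0 hδ1
  obtain ⟨L2, h2⟩ := GG_avgL C B hC1 w (by omega)
  refine ⟨max (max L1 L2) W, fun L d H hLL hH hLi hHC v g α β hα hβ hv hd hN k hk hkd => ?_⟩
  have hLa : L1 ≤ L := (le_max_left _ _).trans ((le_max_left _ _).trans hLL)
  have hLb : L2 ≤ L := (le_max_right _ _).trans ((le_max_left _ _).trans hLL)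
  have hc3 : (W : ℝ) ≤ L := (le_max_right _ _).trans hLL
  rw [← hW]
  have hW1' : (1 : ℝ) ≤ W := by exact_mod_cast hW1
  have hLp : 1 ≤ L := hW1'.trans hc3
  have hWB : (W : ℝ) ≤ L ^ B := hc3.trans (le_self_pow₀ hLp (by omega))
  have hfam := h1 L d H hLa hH hLi hHC W hW1 hWB v g
  have hgg := h2 L hLb W (fun p hp hpw => by rw [hW]; exact (Nat.Prime.dvd_primorial_iff hp).2 hpw)
  have hL0 : 0 < L := by linarith
  set X := XX α β with hX
  have hX2 : ∀ n ∈ X, 2 ≤ n := by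
    intro n hn
    rw [hX] at hn
    unfold XX at hn
    rw [mem_biUnion] at hn
    obtain ⟨j, _, hj⟩ := hn
    rw [mem_Ioc] at hj
    have := hα j
    omega
  obtain ⟨κ, hκ⟩ : ∃ κ : ℕ → ℝ, κ = kp d H W := ⟨_, rfl⟩
  have hκ0 : ∀ n, 0 ≤ κ n := fun n => by rw [hκ]; exact kp_nonneg d H W n L hL0 hLi
  have hκa : ∀ n, κ (n + 1) ≤ κ n := fun n => by rw [hκ]; exact kp_anti d H W n L hL0 hLi
  obtain ⟨κm, hκm⟩ : ∃ κm : ℝ, κm = rho W ^ s / (L / 2) ^ s := ⟨_, rfl⟩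
  have hκm1 : ∀ n, κ n ≤ κm := fun n => by rw [hκ, hκm]; exact kp_le d H W n L hL0 hLi
  have hκmL : κm * L ≤ 2 ^ s * rho W ^ s := by rw [hκm]; exact kpm_le hs W L hLp
  have hκX : ∀ n ∈ X, κ n = rho W ^ s / lw d H n := fun n hn => by rw [hκ]; exact kp_eq d H W (hX2 n hn)
  obtain ⟨S, hS⟩ : ∃ S : ℝ, S = ∑ n ∈ X, κ n := ⟨_, rfl⟩
  have hS0 : 0 ≤ S := by rw [hS]; exact sum_nonneg fun n _ => hκ0 n
  have hSle : S ≤ rho W ^ s * lam := by
    have e : S = rho W ^ s * ∑ n ∈ X, 1 / lw d H n := by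
      rw [hS, mul_sum]
      apply sum_congr rfl
      intro n hn
      rw [hκX n hn]
      ring
    rw [e]
    gcongr
  have hSΛ : S ≤ Λ := by
    refine hSle.trans ?_
    rw [hΛ]
    apply mul_le_mul_of_nonneg_left _ (by positivity)
    linarith
  have hSJ : S + J * (κm * L) ≤ Λ := by
    calc S + J * (κm * L) ≤ rho W ^ s * lam + J * (2 ^ s * rho W ^ s) := by gcongr
      _ = rho W ^ s * (lam + J') := by rw [hJ']; ring
      _ ≤ Λ := by
          rw [hΛ]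
          apply mul_le_mul_of_nonneg_left _ (by positivity)
          linarith
  -- the points are small
  have hpt : ∀ n ∈ X, (n : ℝ) ≤ L ^ B := by
    intro n hn
    rw [hX] at hn
    unfold XX at hn
    rw [mem_biUnion] at hn
    obtain ⟨j, _, hj⟩ := hn
    rw [mem_Ioc] at hj
    have : (n : ℝ) ≤ β j := by exact_mod_cast hj.2
    exact this.trans (hβ j)
  have hGnn : ∀ h, 0 ≤ GG W h C - 1 := fun h => by
    have := GG_ge_one W h C (by positivity)
    linarith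
  -- one subset
  have hone : ∀ A ∈ powersetCard k X, |PA2 d H W v g A - (if ∀ n ∈ A, okn2 v g W n then ∏ n ∈ A, (rho W ^ s / lw d H n) else 0)| ≤
      (∏ n ∈ A, κ n) * δ + 2 * ((∏ n ∈ A, κ n) * ∑ b ∈ A, ∑ a ∈ A.filter (fun a => a < b), (GG W (b - a) C - 1)) := by
    intro A hA
    rw [mem_powersetCard] at hA
    obtain ⟨hAX, hAk⟩ := hA
    have h4 := hfam A (by omega) (fun i => by have := hkd i; omega) (fun n hn => hX2 n (hAX hn)) (fun n hn => hpt n (hAX hn))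
      (fun i n hn => hv i n (hAX hn))
    obtain ⟨P, hP⟩ : ∃ P : ℝ, P = ∏ n ∈ A, lw d H n := ⟨_, rfl⟩
    have hP0 : 0 < P := by
      rw [hP]
      apply prod_pos
      intro n hn
      have := lw_ge d H L hL0.le hLi (hX2 n (hAX hn))
      have : 0 < (L / 2) ^ s := by positivity
      linarith
    have eκ : ∏ n ∈ A, κ n = (rho W ^ s) ^ A.card / P := by
      rw [prod_congr rfl (fun n hn => hκX n (hAX hn)), prod_div_distrib, prod_const, hP]
    have eκ2 : ∏ n ∈ A, (rho W ^ s / lw d H n) = (rho W ^ s) ^ A.card / P := by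
      rw [prod_div_distrib, prod_const, hP]
    rw [eκ2, eκ]
    rw [← hP] at h4
    have e1 : P * PA2 d H W v g A - (if ∀ n ∈ A, okn2 v g W n then (rho W ^ s) ^ A.card else 0) =
        P * (PA2 d H W v g A - (if ∀ n ∈ A, okn2 v g W n then (rho W ^ s) ^ A.card / P else 0)) := by
      rw [mul_sub]
      congr 1
      split_ifs
      · field_simp
      · ring
    rw [e1, abs_mul, abs_of_pos hP0] at h4
    have h5 : |PA2 d H W v g A - (if ∀ n ∈ A, okn2 v g W n then (rho W ^ s) ^ A.card / P else 0)| ≤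
        (rho W ^ s) ^ A.card / P * ((1 + δ) * GG W (dif A) ((1 + 3 ^ D) ^ (2 * s)) - 1) := by
      have h6 : P * |PA2 d H W v g A - (if ∀ n ∈ A, okn2 v g W n then (rho W ^ s) ^ A.card / P else 0)| ≤
          P * ((rho W ^ s) ^ A.card / P * ((1 + δ) * GG W (dif A) ((1 + 3 ^ D) ^ (2 * s)) - 1)) := by
        refine h4.trans (le_of_eq ?_)
        field_simp
      exact le_of_mul_le_mul_left h6 hP0
    refine h5.trans ?_
    have h7 := GG_dif W A (D * D) (by rw [hAk]; exact Nat.mul_le_mul hk hk) ((1 + 3 ^ D) ^ (2 * s)) (by positivity)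
    have e2 : ((1 : ℝ) + (1 + 3 ^ D) ^ (2 * s)) ^ (D * D) = (C : ℝ) := by
      rw [hC, hC0]
      push_cast
      ring
    rw [e2] at h7
    set T := ∑ b ∈ A, ∑ a ∈ A.filter (fun a => a < b), (GG W (b - a) C - 1) with hT
    have hT0 : 0 ≤ T := sum_nonneg fun b _ => sum_nonneg fun a _ => hGnn _
    have h8 : (1 + δ) * GG W (dif A) ((1 + 3 ^ D) ^ (2 * s)) - 1 ≤ δ + 2 * T := by nlinarith
    calc (rho W ^ s) ^ A.card / P * ((1 + δ) * GG W (dif A) ((1 + 3 ^ D) ^ (2 * s)) - 1) ≤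
          (rho W ^ s) ^ A.card / P * (δ + 2 * T) := by gcongr
      _ = _ := by ring
  refine (sum_le_sum hone).trans ?_
  rw [sum_add_distrib, ← sum_mul, ← mul_sum]
  have hws := wsum_le κ hκ0 X k
  rw [← hS] at hws
  have hΛkD : Λ ^ k ≤ Λ ^ D := pow_le_pow_right₀ hΛ1 (by omega)
  have hp1 : (∑ A ∈ powersetCard k X, ∏ n ∈ A, κ n) * δ ≤ ε / 2 := by
    calc (∑ A ∈ powersetCard k X, ∏ n ∈ A, κ n) * δ ≤ S ^ k * δ := by gcongr
      _ ≤ Λ ^ k * δ := by gcongr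
      _ ≤ Λ ^ D * δ := by gcongr
      _ = δ * Λ ^ D := by ring
      _ ≤ ε / 2 := hδΛ
  have hp2 : 2 * ∑ A ∈ powersetCard k X, (∏ n ∈ A, κ n) * ∑ b ∈ A, ∑ a ∈ A.filter (fun a => a < b), (GG W (b - a) C - 1) ≤ ε / 2 := by
    rcases lt_or_ge k 2 with hk2 | hk2
    · have : ∑ A ∈ powersetCard k X, (∏ n ∈ A, κ n) * ∑ b ∈ A, ∑ a ∈ A.filter (fun a => a < b), (GG W (b - a) C - 1) = 0 := by
        apply sum_eq_zero
        intro A hA
        rw [mem_powersetCard] at hA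
        have : ∑ b ∈ A, ∑ a ∈ A.filter (fun a => a < b), (GG W (b - a) C - 1) = 0 := by
          apply sum_eq_zero
          intro b hb
          apply sum_eq_zero
          intro a ha
          rw [mem_filter] at ha
          have : 1 < A.card := one_lt_card.2 ⟨a, ha.1, b, hb, ha.2.ne⟩
          omega
        rw [this, mul_zero]
      rw [this]
      simp only [mul_zero]
      linarith
    · have h4 := wpair_sum κ hκ0 X k (fun h => GG W h C - 1) hGnn
      have h5 := XX_wpairs κ hκ0 hκa κm α β (fun j => hκm1 _) hd (fun h => GG W h C - 1) (2 * C / w) L (by positivity) hL0.le (by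
        intro j γ δ' hγ hδ'
        apply hgg γ δ' hγ
        have : (δ' : ℝ) ≤ β j := by exact_mod_cast hδ'
        exact this.trans (hβ j))
      rw [← hX, ← hS] at h5
      rw [← hS] at h4
      have h6 : ∑ A ∈ powersetCard k X, (∏ n ∈ A, κ n) * ∑ b ∈ A, ∑ a ∈ A.filter (fun a => a < b), (GG W (b - a) C - 1) ≤
          S ^ (k - 2) * (2 * C / w * (S * (S + J * (κm * L)))) := by
        refine h4.trans ?_
        gcongr
      have hκmL0 : 0 ≤ κm := (hκ0 0).trans (hκm1 0)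
      calc 2 * ∑ A ∈ powersetCard k X, (∏ n ∈ A, κ n) * ∑ b ∈ A, ∑ a ∈ A.filter (fun a => a < b), (GG W (b - a) C - 1)
          ≤ 2 * (S ^ (k - 2) * (2 * C / w * (S * (S + J * (κm * L))))) := by gcongr
        _ = 4 * C / w * (S ^ (k - 1) * (S + J * (κm * L))) := by
            obtain ⟨m, rfl⟩ : ∃ m, k = m + 2 := ⟨k - 2, by omega⟩
            simp only [Nat.add_sub_cancel, show m + 2 - 1 = m + 1 by omega]
            ring
        _ ≤ 4 * C / w * (Λ ^ (k - 1) * Λ) := by gcongr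
        _ = 4 * C / w * Λ ^ k := by
            rw [← pow_succ]
            congr 2
            omega
        _ ≤ 4 * C / w * Λ ^ D := by gcongr
        _ ≤ ε / 2 := hΛw
  linarith

end Pool.Agent.K1H89.LD
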