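import Mathlib
import Pool.Agent.K1H89.PL.A16

/-! The truncated inclusion and exclusion with a general model. -/

set_option autoImplicit false

namespace Pool.Agent.K1H89.LD

open Finset
open Pool.Agent.K1H89.PL

/-- the sum of the model over the pairs -/
noncomputable def TG {J : ℕ} (I : Fin J → Finset ℕ) (r : Fin J → ℕ) (G : Finset ℕ → ℝ) (b : ℕ) : ℝ :=
  ∑ R ∈ ch I r, ∑ B ∈ powersetCard b (univ.biUnion I \ UU R), G (UU R ∪ B)

/-- the model for the alternating sum -/
noncomputable def MG {J : ℕ} (I : Fin J → Finset ℕ) (r : Fin J → ℕ) (G : Finset ℕ → ℝ) (m : ℕ) : ℝ :=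
  ∑ b ∈ range (m + 1), (-1 : ℝ) ^ b * TG I r G b

open Classical in
lemma bonE {Ω : Type} (S : Finset Ω) {J : ℕ} (I : Fin J → Finset ℕ) (r : Fin J → ℕ)
    (hd : ((univ : Finset (Fin J)) : Set (Fin J)).PairwiseDisjoint I) (T : Ω → Finset ℕ)
    (hT : ∀ a, T a ⊆ univ.biUnion I) (G : Finset ℕ → ℝ) (ε : ℝ) (D : ℕ)
    (h : ∀ k ≤ D, ∑ A ∈ powersetCard k (univ.biUnion I),
      |((S.filter (fun a => A ⊆ T a)).card : ℝ) / S.card - G A| ≤ ε)
    (m : ℕ) (hm : ∑ j, r j + m ≤ D) :
    |(∑ a ∈ S, bon I r m (T a)) / S.card - MG I r G m| ≤ (m + 1) * (2 ^ D * ε) := by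
  have hε : 0 ≤ ε := le_trans (sum_nonneg fun A _ => abs_nonneg _) (h 0 (Nat.zero_le _))
  set P : Finset ℕ → ℝ := fun A => ((S.filter (fun a => A ⊆ T a)).card : ℝ) / S.card with hP
  set R := ∑ j, r j with hR
  set X := (univ : Finset (Fin J)).biUnion I with hX
  -- the expectation of `bon`
  have hE : (∑ a ∈ S, bon I r m (T a)) / S.card =
      ∑ b ∈ range (m + 1), (-1 : ℝ) ^ b * ∑ R ∈ ch I r, ∑ B ∈ powersetCard b (X \ UU R), P (UU R ∪ B) := by
    have h1 : ∀ a ∈ S, bon I r m (T a) = ∑ b ∈ range (m + 1), (-1 : ℝ) ^ b * ∑ R ∈ ch I r,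
        ∑ B ∈ powersetCard b (X \ UU R), (if UU R ∪ B ⊆ T a then (1 : ℝ) else 0) := by
      intro a _
      unfold bon
      apply sum_congr rfl
      intro b _
      rw [count_pairs I r b (T a) hd (hT a)]
    rw [sum_congr rfl h1, sum_comm, sum_div]
    apply sum_congr rfl
    intro b _
    rw [← mul_sum, mul_div_assoc]
    congr 1
    rw [sum_comm, sum_div]
    apply sum_congr rfl
    intro R' _
    rw [sum_comm, sum_div]
    apply sum_congr rfl
    intro B _
    rw [hP]
    simp only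
    rw [← sum_filter, sum_const, nsmul_eq_mul, mul_one]
  rw [hE]
  unfold MG TG
  rw [← sum_sub_distrib]
  calc |∑ b ∈ range (m + 1), ((-1 : ℝ) ^ b * ∑ R' ∈ ch I r, ∑ B ∈ powersetCard b (X \ UU R'), P (UU R' ∪ B) -
        (-1 : ℝ) ^ b * ∑ R' ∈ ch I r, ∑ B ∈ powersetCard b (X \ UU R'), G (UU R' ∪ B))|
      ≤ ∑ b ∈ range (m + 1), |(-1 : ℝ) ^ b * ∑ R' ∈ ch I r, ∑ B ∈ powersetCard b (X \ UU R'), P (UU R' ∪ B) -
        (-1 : ℝ) ^ b * ∑ R' ∈ ch I r, ∑ B ∈ powersetCard b (X \ UU R'), G (UU R' ∪ B)| :=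
        abs_sum_le_sum_abs _ _
    _ ≤ ∑ _b ∈ range (m + 1), 2 ^ D * ε := by
        apply sum_le_sum
        intro b hb
        rw [mem_range] at hb
        rw [← mul_sub, abs_mul, abs_pow, abs_neg, abs_one, one_pow, one_mul, ← sum_sub_distrib]
        calc |∑ R' ∈ ch I r, (∑ B ∈ powersetCard b (X \ UU R'), P (UU R' ∪ B) -
              ∑ B ∈ powersetCard b (X \ UU R'), G (UU R' ∪ B))|
            ≤ ∑ R' ∈ ch I r, |∑ B ∈ powersetCard b (X \ UU R'), P (UU R' ∪ B) -
              ∑ B ∈ powersetCard b (X \ UU R'), G (UU R' ∪ B)| := abs_sum_le_sum_abs _ _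
          _ ≤ ∑ R' ∈ ch I r, ∑ B ∈ powersetCard b (X \ UU R'), |P (UU R' ∪ B) - G (UU R' ∪ B)| := by
              apply sum_le_sum
              intro R' _
              rw [← sum_sub_distrib]
              exact abs_sum_le_sum_abs _ _
          _ ≤ 2 ^ (R + b) * ∑ A ∈ powersetCard (R + b) X, |P A - G A| :=
              pairs_le I r b hd (fun A => |P A - G A|) (fun A => abs_nonneg _)
          _ ≤ 2 ^ D * ε := by
              have h2 : (2 : ℝ) ^ (R + b) ≤ 2 ^ D := pow_le_pow_right₀ (by norm_num) (by omega)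
              have h3 := h (R + b) (by omega)
              apply mul_le_mul h2 h3 _ (by positivity)
              exact sum_nonneg fun A _ => abs_nonneg _
    _ = (m + 1) * (2 ^ D * ε) := by
        rw [sum_const, card_range, nsmul_eq_mul]
        push_cast
        ring

open Classical in
lemma bonf2 {Ω : Type} (S : Finset Ω) (hS : 0 < S.card) {J : ℕ} (I : Fin J → Finset ℕ) (r : Fin J → ℕ)
    (hd : ((univ : Finset (Fin J)) : Set (Fin J)).PairwiseDisjoint I) (T : Ω → Finset ℕ)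
    (hT : ∀ a, T a ⊆ univ.biUnion I) (G : Finset ℕ → ℝ) (ε : ℝ) (D : ℕ)
    (h : ∀ k ≤ D, ∑ A ∈ powersetCard k (univ.biUnion I),
      |((S.filter (fun a => A ⊆ T a)).card : ℝ) / S.card - G A| ≤ ε)
    (m : ℕ) (hm : ∑ j, r j + m ≤ D) :
    -((m + 1) * (2 ^ D * ε)) ≤ (-1 : ℝ) ^ m * (MG I r G m -
      ((S.filter (fun a => ∀ j, (T a ∩ I j).card = r j)).card : ℝ) / S.card) := by
  have hS0 : (0 : ℝ) < S.card := by exact_mod_cast hS
  have hdiff := bonE S I r hd T hT G ε D h m hm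
  have hsign : 0 ≤ (-1 : ℝ) ^ m * ((∑ a ∈ S, bon I r m (T a)) / S.card -
      ((S.filter (fun a => ∀ j, (T a ∩ I j).card = r j)).card : ℝ) / S.card) := by
    have h1 : ((S.filter (fun a => ∀ j, (T a ∩ I j).card = r j)).card : ℝ) = ∑ a ∈ S, ind I r (T a) := by
      unfold ind
      rw [← sum_filter, sum_const, nsmul_eq_mul, mul_one]
    rw [h1, ← sub_div, ← sum_sub_distrib, ← mul_div_assoc, mul_sum]
    apply div_nonneg _ hS0.le
    apply sum_nonneg
    intro a _
    apply bon_sign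
    have e : T a = univ.biUnion (fun j => T a ∩ I j) := by
      rw [← inter_biUnion]
      exact (inter_eq_left.2 (hT a)).symm
    conv_lhs => rw [e]
    rw [card_biUnion]
    intro i hi j hj hij
    exact disjoint_of_subset_left inter_subset_right (disjoint_of_subset_right inter_subset_right (hd hi hj hij))
  obtain ⟨d1, d2⟩ := abs_le.1 hdiff
  rcases Nat.even_or_odd m with he | ho
  · rw [he.neg_one_pow] at hsign ⊢
    linarith
  · rw [ho.neg_one_pow] at hsign ⊢
    linarith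

open Classical in
/-- the upper bound for many points -/
lemma bonf0 {Ω : Type} (S : Finset Ω) (hS : 0 < S.card) {J : ℕ} (I : Fin J → Finset ℕ) (r r' : Fin J → ℕ)
    (hrr : ∀ j, r' j ≤ r j)
    (hd : ((univ : Finset (Fin J)) : Set (Fin J)).PairwiseDisjoint I) (T : Ω → Finset ℕ)
    (hT : ∀ a, T a ⊆ univ.biUnion I) (G : Finset ℕ → ℝ) (ε : ℝ) (D : ℕ)
    (h : ∀ k ≤ D, ∑ A ∈ powersetCard k (univ.biUnion I),
      |((S.filter (fun a => A ⊆ T a)).card : ℝ) / S.card - G A| ≤ ε)
    (hm : ∑ j, r' j ≤ D) :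
    ((S.filter (fun a => ∀ j, (T a ∩ I j).card = r j)).card : ℝ) / S.card ≤ MG I r' G 0 + 2 ^ D * ε := by
  have hS0 : (0 : ℝ) < S.card := by exact_mod_cast hS
  have hdiff := bonE S I r' hd T hT G ε D h 0 (by omega)
  have h1 : ((S.filter (fun a => ∀ j, (T a ∩ I j).card = r j)).card : ℝ) ≤ ∑ a ∈ S, bon I r' 0 (T a) := by
    have e1 : ((S.filter (fun a => ∀ j, (T a ∩ I j).card = r j)).card : ℝ) = ∑ a ∈ S, ind I r (T a) := by
      unfold ind
      rw [← sum_filter, sum_const, nsmul_eq_mul, mul_one]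
    rw [e1]
    apply sum_le_sum
    intro a _
    unfold ind bon
    rw [zero_add, sum_range_one, pow_zero, one_mul, Nat.choose_zero_right, Nat.cast_one, mul_one]
    split_ifs with hj
    · have : ∏ _j : Fin J, (1 : ℝ) ≤ ∏ j, (((T a ∩ I j).card.choose (r' j) : ℕ) : ℝ) := by
        apply Finset.prod_le_prod (fun _ _ => zero_le_one)
        intro j _
        rw [hj j]
        exact_mod_cast Nat.choose_pos (hrr j)
      simpa using this
    · exact prod_nonneg fun j _ => Nat.cast_nonneg _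
  have h2 : ((S.filter (fun a => ∀ j, (T a ∩ I j).card = r j)).card : ℝ) / S.card ≤ (∑ a ∈ S, bon I r' 0 (T a)) / S.card := by
    gcongr
  obtain ⟨d1, d2⟩ := abs_le.1 hdiff
  simp only [Nat.cast_zero, zero_add, one_mul] at d2
  linarith

/-- a smaller vector with a given sum -/
lemma exists_smaller {J : ℕ} (t : ℕ) : ∀ (c : ℕ) (r : Fin J → ℕ), ∑ j, r j = t + c → ∃ r' : Fin J → ℕ, (∀ j, r' j ≤ r j) ∧ ∑ j, r' j = t := by
  intro c
  induction c with
  | zero => exact fun r hr => ⟨r, fun _ => le_rfl, hr⟩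
  | succ c ih =>
    intro r hr
    have hex : ∃ j, 0 < r j := by
      by_contra hcon
      push Not at hcon
      have : ∑ j, r j = 0 := sum_eq_zero fun j _ => Nat.le_zero.1 (hcon j)
      omega
    obtain ⟨j0, hj0⟩ := hex
    have hsum : ∑ j, Function.update r j0 (r j0 - 1) j = t + c := by
      have h1 := sum_update_of_mem (mem_univ j0) r (r j0 - 1)
      have h2 := sum_erase_add univ r (mem_univ j0)
      rw [h1, ← erase_eq univ j0] 
      omega
    obtain ⟨r', h1, h2⟩ := ih _ hsum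
    refine ⟨r', fun j => (h1 j).trans ?_, h2⟩
    by_cases hj : j = j0
    · rw [hj, Function.update_self]
      omega
    · rw [Function.update_of_ne hj]

end Pool.Agent.K1H89.LD
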