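import Mathlib
import Pool.Agent.K1H89.LD.B6
import Pool.Agent.K1H89.LD.B8

/-! Elementary symmetric functions of small weights; the model is close to the truncated exponential series. -/

set_option autoImplicit false

namespace Pool.Agent.K1H89.LD

open Finset
open Pool.Agent.K1H89.PL

/-- the elementary symmetric function of the weights -/
noncomputable def es (κ : ℕ → ℝ) (Y : Finset ℕ) (k : ℕ) : ℝ := ∑ A ∈ powersetCard k Y, ∏ n ∈ A, κ n

lemma es_nonneg (κ : ℕ → ℝ) (hκ : ∀ n, 0 ≤ κ n) (Y : Finset ℕ) (k : ℕ) : 0 ≤ es κ Y k :=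
  sum_nonneg fun _ _ => prod_nonneg fun n _ => hκ n

lemma es_step (κ : ℕ → ℝ) (Y : Finset ℕ) (k : ℕ) :
    ((k : ℝ) + 1) * es κ Y (k + 1) = ∑ A ∈ powersetCard k Y, (∏ n ∈ A, κ n) * ∑ n ∈ Y \ A, κ n := by
  have e1 : ((k : ℝ) + 1) * es κ Y (k + 1) = ∑ x ∈ (powersetCard (k + 1) Y).sigma (fun A => A), ∏ n ∈ x.1, κ n := by
    rw [sum_sigma]
    unfold es
    rw [mul_sum]
    apply sum_congr rfl
    intro A hA
    rw [mem_powersetCard] at hA
    simp only [sum_const, nsmul_eq_mul]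
    rw [hA.2]
    push_cast
    ring
  have e2 : ∑ A ∈ powersetCard k Y, (∏ n ∈ A, κ n) * ∑ n ∈ Y \ A, κ n =
      ∑ x ∈ (powersetCard k Y).sigma (fun A => Y \ A), (∏ n ∈ x.1, κ n) * κ x.2 := by
    rw [sum_sigma]
    apply sum_congr rfl
    intro A _
    rw [mul_sum]
  rw [e1, e2]
  apply sum_nbij' (fun x => ⟨x.1.erase x.2, x.2⟩) (fun x => ⟨insert x.2 x.1, x.2⟩)
  · rintro ⟨A, n⟩ hx
    simp only [mem_sigma, mem_powersetCard, mem_sdiff] at hx ⊢
    obtain ⟨⟨h1, h2⟩, h3⟩ := hx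
    refine ⟨⟨(erase_subset _ _).trans h1, ?_⟩, h1 h3, by simp⟩
    rw [card_erase_of_mem h3, h2]
    omega
  · rintro ⟨A, n⟩ hx
    simp only [mem_sigma, mem_powersetCard, mem_sdiff] at hx ⊢
    obtain ⟨⟨h1, h2⟩, h3, h4⟩ := hx
    refine ⟨⟨insert_subset h3 h1, ?_⟩, mem_insert_self _ _⟩
    rw [card_insert_of_notMem h4, h2]
  · rintro ⟨A, n⟩ hx
    simp only [mem_sigma, mem_powersetCard] at hx
    simp only
    rw [insert_erase hx.2]
  · rintro ⟨A, n⟩ hx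
    simp only [mem_sigma, mem_powersetCard, mem_sdiff] at hx
    simp only
    rw [erase_insert hx.2.2]
  · rintro ⟨A, n⟩ hx
    simp only [mem_sigma, mem_powersetCard] at hx
    simp only
    rw [mul_comm, mul_prod_erase _ _ hx.2]

lemma es_bounds (κ : ℕ → ℝ) (hκ : ∀ n, 0 ≤ κ n) (Y : Finset ℕ) (κm : ℝ) (hκm : ∀ n ∈ Y, κ n ≤ κm) (k : ℕ) :
    ((k : ℝ) + 1) * es κ Y (k + 1) ≤ (∑ n ∈ Y, κ n) * es κ Y k ∧
    ((∑ n ∈ Y, κ n) - k * κm) * es κ Y k ≤ ((k : ℝ) + 1) * es κ Y (k + 1) := by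
  rw [es_step]
  constructor
  · unfold es
    rw [mul_sum]
    apply sum_le_sum
    intro A hA
    rw [mul_comm]
    apply mul_le_mul_of_nonneg_right _ (prod_nonneg fun n _ => hκ n)
    exact sum_le_sum_of_subset_of_nonneg sdiff_subset fun n _ _ => hκ n
  · unfold es
    rw [mul_sum]
    apply sum_le_sum
    intro A hA
    rw [mem_powersetCard] at hA
    rw [mul_comm]
    apply mul_le_mul_of_nonneg_left _ (prod_nonneg fun n _ => hκ n)
    have h1 := sum_sdiff hA.1 (f := κ)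
    have h2 : ∑ n ∈ A, κ n ≤ k * κm := by
      calc ∑ n ∈ A, κ n ≤ ∑ _n ∈ A, κm := sum_le_sum fun n hn => hκm n (hA.1 hn)
        _ = k * κm := by rw [sum_const, hA.2, nsmul_eq_mul]
    linarith

lemma es_close (κ : ℕ → ℝ) (hκ : ∀ n, 0 ≤ κ n) (Y : Finset ℕ) (κm K : ℝ) (hκm : ∀ n ∈ Y, κ n ≤ κm) (hκm0 : 0 ≤ κm)
    (hK : 1 ≤ K) (hσ : ∑ n ∈ Y, κ n ≤ K) (k : ℕ) :
    |es κ Y k - (∑ n ∈ Y, κ n) ^ k / (k.factorial : ℕ)| ≤ k * K ^ k * κm := by
  set σ := ∑ n ∈ Y, κ n with hσd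
  have hσ0 : 0 ≤ σ := sum_nonneg fun n _ => hκ n
  induction k with
  | zero => simp [es]
  | succ k ih =>
    obtain ⟨h1, h2⟩ := es_bounds κ hκ Y κm hκm k
    have h3 := es_nonneg κ hκ Y k
    have h4 : es κ Y k ≤ K ^ k := (wsum_le κ hκ Y k).trans (pow_le_pow_left₀ hσ0 hσ _)
    have hk0 : (0 : ℝ) < k + 1 := by positivity
    have hk1 : (1 : ℝ) ≤ k + 1 := by
      have : (0 : ℝ) ≤ k := Nat.cast_nonneg _
      linarith
    have h5 : |es κ Y (k + 1) - σ * es κ Y k / (k + 1)| ≤ K ^ k * κm := by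
      have e : es κ Y (k + 1) - σ * es κ Y k / (k + 1) = (((k : ℝ) + 1) * es κ Y (k + 1) - σ * es κ Y k) / (k + 1) := by
        field_simp
      rw [e, abs_div, abs_of_pos hk0, div_le_iff₀ hk0]
      have h6 : 0 ≤ K ^ k * κm * (k + 1) := by positivity
      have h7 : (k : ℝ) * κm * es κ Y k ≤ K ^ k * κm * (k + 1) := by
        calc (k : ℝ) * κm * es κ Y k ≤ (k + 1) * κm * K ^ k := by
              have : (k : ℝ) ≤ k + 1 := by linarith
              gcongr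
          _ = K ^ k * κm * (k + 1) := by ring
      rw [abs_le]
      constructor
      · nlinarith
      · nlinarith
    have h8 : σ * es κ Y k / (k + 1) - σ ^ (k + 1) / ((k + 1).factorial : ℕ) = σ / (k + 1) * (es κ Y k - σ ^ k / (k.factorial : ℕ)) := by
      rw [Nat.factorial_succ]
      push_cast
      have : ((k.factorial : ℕ) : ℝ) ≠ 0 := by exact_mod_cast (Nat.factorial_pos k).ne'
      field_simp
      ring
    have h9 : |σ * es κ Y k / (k + 1) - σ ^ (k + 1) / ((k + 1).factorial : ℕ)| ≤ K * (k * K ^ k * κm) := by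
      rw [h8, abs_mul, abs_of_nonneg (by positivity)]
      have h10 : σ / (k + 1) ≤ K := (div_le_self hσ0 hk1).trans hσ
      gcongr
    calc |es κ Y (k + 1) - σ ^ (k + 1) / ((k + 1).factorial : ℕ)| ≤
          |es κ Y (k + 1) - σ * es κ Y k / (k + 1)| + |σ * es κ Y k / (k + 1) - σ ^ (k + 1) / ((k + 1).factorial : ℕ)| :=
          abs_sub_le _ _ _
      _ ≤ K ^ k * κm + K * (k * K ^ k * κm) := add_le_add h5 h9
      _ ≤ K ^ (k + 1) * κm + K * (k * K ^ k * κm) := by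
          have : K ^ k ≤ K ^ (k + 1) := pow_le_pow_right₀ hK (by omega)
          gcongr
      _ = ((k + 1 : ℕ) : ℝ) * K ^ (k + 1) * κm := by
          push_cast
          ring

open Classical in
/-- the model -/
noncomputable def Gz (κ : ℕ → ℝ) (Z A : Finset ℕ) : ℝ := if A ⊆ Z then ∏ n ∈ A, κ n else 0

lemma TG_eq {J : ℕ} (I : Fin J → Finset ℕ) (r : Fin J → ℕ) (b : ℕ) (κ : ℕ → ℝ) (Z : Finset ℕ)
    (hZ : Z ⊆ univ.biUnion I) :
    TG I r (Gz κ Z) b = ∑ R ∈ ch (fun j => Z ∩ I j) r, (∏ n ∈ UU R, κ n) * es κ (Z \ UU R) b := by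
  classical
  unfold TG
  have h1 : ∀ R ∈ ch I r, ∑ B ∈ powersetCard b (univ.biUnion I \ UU R), Gz κ Z (UU R ∪ B) =
      if UU R ⊆ Z then (∏ n ∈ UU R, κ n) * es κ (Z \ UU R) b else 0 := by
    intro R hR
    unfold Gz
    split_ifs with h
    · rw [← sum_filter]
      have e : (powersetCard b (univ.biUnion I \ UU R)).filter (fun B => UU R ∪ B ⊆ Z) = powersetCard b (Z \ UU R) := by
        ext B
        rw [mem_filter, mem_powersetCard, mem_powersetCard, union_subset_iff]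
        constructor
        · rintro ⟨⟨h2, h3⟩, _, h4⟩
          refine ⟨?_, h3⟩
          intro x hx
          rw [mem_sdiff]
          exact ⟨h4 hx, (mem_sdiff.1 (h2 hx)).2⟩
        · rintro ⟨h2, h3⟩
          refine ⟨⟨?_, h3⟩, h, ?_⟩
          · intro x hx
            have := mem_sdiff.1 (h2 hx)
            rw [mem_sdiff]
            exact ⟨hZ this.1, this.2⟩
          · intro x hx
            exact (mem_sdiff.1 (h2 hx)).1
      rw [e]
      unfold es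
      rw [mul_sum]
      apply sum_congr rfl
      intro B hB
      rw [mem_powersetCard] at hB
      rw [prod_union]
      exact (disjoint_of_subset_left hB.1 sdiff_disjoint).symm
    · apply sum_eq_zero
      intro B _
      rw [if_neg]
      intro h2
      exact h (subset_union_left.trans h2)
  rw [sum_congr rfl h1, ← sum_filter]
  congr 1
  ext R
  rw [mem_filter, mem_ch, mem_ch]
  constructor
  · rintro ⟨h2, h3⟩ j
    refine ⟨?_, (h2 j).2⟩
    apply subset_inter _ (h2 j).1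
    refine subset_trans ?_ h3
    unfold UU
    exact subset_biUnion_of_mem R (mem_univ j)
  · intro h2
    refine ⟨fun j => ⟨(h2 j).1.trans inter_subset_right, (h2 j).2⟩, ?_⟩
    unfold UU
    intro x hx
    rw [mem_biUnion] at hx
    obtain ⟨j, _, hj⟩ := hx
    exact (mem_inter.1 ((h2 j).1 hj)).1

lemma TG_prod {J : ℕ} (I : Fin J → Finset ℕ) (r : Fin J → ℕ) (κ : ℕ → ℝ)
    (hd : ((univ : Finset (Fin J)) : Set (Fin J)).PairwiseDisjoint I) :
    ∑ R ∈ ch I r, ∏ n ∈ UU R, κ n = ∏ j, es κ (I j) (r j) := by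
  classical
  unfold es ch
  rw [Finset.prod_univ_sum]
  apply sum_congr rfl
  intro R hR
  rw [Fintype.mem_piFinset] at hR
  unfold UU
  rw [prod_biUnion]
  intro i hi j hj hij
  have h1 := (mem_powersetCard.1 (hR i)).1
  have h2 := (mem_powersetCard.1 (hR j)).1
  exact disjoint_of_subset_left h1 (disjoint_of_subset_right h2 (hd hi hj hij))

lemma MG_close (J D : ℕ) (K0 : ℝ) (hK0 : 0 ≤ K0) : ∃ C : ℝ, 0 ≤ C ∧ ∀ (I : Fin J → Finset ℕ) (r : Fin J → ℕ) (κ : ℕ → ℝ) (e : ℝ)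
    (Z : Finset ℕ) (m : ℕ) (μ : Fin J → ℝ), ∑ j, r j + m ≤ D →
    ((univ : Finset (Fin J)) : Set (Fin J)).PairwiseDisjoint I → Z ⊆ univ.biUnion I → (∀ n, 0 ≤ κ n) →
    (∀ n ∈ Z, κ n ≤ e) → 0 ≤ e → e ≤ 1 →
    (∀ j, 0 ≤ μ j) → ∑ j, μ j ≤ K0 → (∀ j, |∑ n ∈ Z ∩ I j, κ n - μ j| ≤ e) →
    |MG I r (Gz κ Z) m - Pi0 r μ * Sm m (∑ j, μ j)| ≤ C * e := by
  obtain ⟨K, hKd⟩ : ∃ K : ℝ, K = K0 + J + D + 1 := ⟨_, rfl⟩
  have hJ0 : (0 : ℝ) ≤ J := Nat.cast_nonneg _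
  have hD0 : (0 : ℝ) ≤ D := Nat.cast_nonneg _
  have hK1 : 1 ≤ K := by rw [hKd]; linarith
  have hKD : 1 ≤ K ^ D := one_le_pow₀ hK1
  obtain ⟨c1, hc1⟩ : ∃ c : ℝ, c = 2 * (D * K ^ D) := ⟨_, rfl⟩
  obtain ⟨c2, hc2⟩ : ∃ c : ℝ, c = D * K ^ D * (1 + J + D) := ⟨_, rfl⟩
  have hc10 : 0 ≤ c1 := by rw [hc1]; positivity
  have hc20 : 0 ≤ c2 := by rw [hc2]; positivity
  refine ⟨(D + 1) * ((K ^ D) ^ J * c2 + (J * (K ^ D) ^ J * c1) * K ^ D), by positivity, ?_⟩
  intro I r κ e Z m μ hRm hd hZ hκ0 hκe he0 he1 hμ0 hμK hz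
  have hrD : ∀ j, r j ≤ D := fun j => (single_le_sum (fun i _ => Nat.zero_le (r i)) (mem_univ j)).trans (by omega)
  have hμj : ∀ j, μ j ≤ K0 := fun j => (single_le_sum (fun i _ => hμ0 i) (mem_univ j)).trans hμK
  set μt := ∑ j, μ j with hμt
  have hμt0 : 0 ≤ μt := sum_nonneg fun j _ => hμ0 j
  have hμtK : μt ≤ K := by rw [hKd]; linarith
  have hdZ : ((univ : Finset (Fin J)) : Set (Fin J)).PairwiseDisjoint (fun j => Z ∩ I j) := by
    intro i hi j hj hij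
    exact disjoint_of_subset_left inter_subset_right (disjoint_of_subset_right inter_subset_right (hd hi hj hij))
  have hZsum : ∑ n ∈ Z, κ n = ∑ j, ∑ n ∈ Z ∩ I j, κ n := by
    have e1 : Z = univ.biUnion (fun j => Z ∩ I j) := by
      rw [← inter_biUnion]
      exact (inter_eq_left.2 hZ).symm
    conv_lhs => rw [e1]
    rw [sum_biUnion hdZ]
  have hZμ : |∑ n ∈ Z, κ n - μt| ≤ J * e := by
    rw [hZsum, hμt, ← sum_sub_distrib]
    refine (abs_sum_le_sum_abs _ _).trans ((sum_le_sum fun j _ => hz j).trans (le_of_eq ?_))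
    rw [sum_const, card_univ, Fintype.card_fin, nsmul_eq_mul]
  obtain ⟨z1, z2⟩ := abs_le.1 hZμ
  have hJe : (J : ℝ) * e ≤ J := by nlinarith
  have hZK : ∑ n ∈ Z, κ n ≤ K := by rw [hKd]; linarith
  -- the factors
  have hσj : ∀ j, ∑ n ∈ Z ∩ I j, κ n ≤ K := by
    intro j
    refine le_trans ?_ hZK
    exact sum_le_sum_of_subset_of_nonneg inter_subset_left fun n _ _ => hκ0 n
  have hfac : ∀ j, |es κ (Z ∩ I j) (r j) - μ j ^ r j / ((r j).factorial : ℕ)| ≤ c1 * e := by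
    intro j
    have hf1 : (1 : ℝ) ≤ ((r j).factorial : ℕ) := by exact_mod_cast Nat.factorial_pos _
    have h1 := es_close κ hκ0 (Z ∩ I j) e K (fun n hn => hκe n (mem_inter.1 hn).1) he0 hK1 (hσj j) (r j)
    have hs0 : 0 ≤ ∑ n ∈ Z ∩ I j, κ n := sum_nonneg fun n _ => hκ0 n
    have h2 := pow_close (∑ n ∈ Z ∩ I j, κ n) (μ j) K e (r j) hK1 (by rw [abs_of_nonneg hs0]; exact hσj j)
      (by rw [abs_of_nonneg (hμ0 j), hKd]; linarith [hμj j]) (hz j)
    have h3 : |(∑ n ∈ Z ∩ I j, κ n) ^ r j / ((r j).factorial : ℕ) - μ j ^ r j / ((r j).factorial : ℕ)| ≤ r j * K ^ r j * e := by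
      rw [← sub_div, abs_div, abs_of_pos (show (0 : ℝ) < ((r j).factorial : ℕ) by linarith)]
      exact (div_le_self (abs_nonneg _) hf1).trans h2
    have q1 : (r j : ℝ) ≤ D := by exact_mod_cast hrD j
    have q2 : K ^ (r j) ≤ K ^ D := pow_le_pow_right₀ hK1 (hrD j)
    have q3 : (r j : ℝ) * K ^ r j * e ≤ D * K ^ D * e := by gcongr
    calc |es κ (Z ∩ I j) (r j) - μ j ^ r j / ((r j).factorial : ℕ)| ≤
          |es κ (Z ∩ I j) (r j) - (∑ n ∈ Z ∩ I j, κ n) ^ r j / ((r j).factorial : ℕ)| +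
          |(∑ n ∈ Z ∩ I j, κ n) ^ r j / ((r j).factorial : ℕ) - μ j ^ r j / ((r j).factorial : ℕ)| := abs_sub_le _ _ _
      _ ≤ D * K ^ D * e + D * K ^ D * e := add_le_add (h1.trans q3) (h3.trans q3)
      _ = c1 * e := by rw [hc1]; ring
  have hes : ∀ j, |es κ (Z ∩ I j) (r j)| ≤ K ^ D := by
    intro j
    rw [abs_of_nonneg (es_nonneg κ hκ0 _ _)]
    refine (wsum_le κ hκ0 (Z ∩ I j) (r j)).trans ?_
    calc (∑ n ∈ Z ∩ I j, κ n) ^ r j ≤ K ^ r j := pow_le_pow_left₀ (sum_nonneg fun n _ => hκ0 n) (hσj j) _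
      _ ≤ K ^ D := pow_le_pow_right₀ hK1 (hrD j)
  have hfac2 : ∀ j, |μ j ^ r j / (((r j).factorial : ℕ) : ℝ)| ≤ K ^ D := by
    intro j
    have hf1 : (1 : ℝ) ≤ ((r j).factorial : ℕ) := by exact_mod_cast Nat.factorial_pos _
    have := hμ0 j
    rw [abs_of_nonneg (by positivity)]
    calc μ j ^ r j / (((r j).factorial : ℕ) : ℝ) ≤ μ j ^ r j := div_le_self (by positivity) hf1
      _ ≤ K ^ r j := pow_le_pow_left₀ (hμ0 j) (by rw [hKd]; linarith [hμj j]) _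
      _ ≤ K ^ D := pow_le_pow_right₀ hK1 (hrD j)
  obtain ⟨p1, p2, p3⟩ := prod_close2 (univ : Finset (Fin J)) (fun j => es κ (Z ∩ I j) (r j))
    (fun j => μ j ^ r j / (((r j).factorial : ℕ) : ℝ)) (K ^ D) (c1 * e) hKD (by positivity)
    (fun j _ => hes j) (fun j _ => hfac2 j) (fun j _ => hfac j)
  rw [card_univ, Fintype.card_fin] at p1 p2 p3
  rw [← TG_prod (fun j => Z ∩ I j) r κ hdZ] at p1 p2
  -- one term
  have hterm : ∀ b ≤ m, |TG I r (Gz κ Z) b - Pi0 r μ * (μt ^ b / (b.factorial : ℕ))| ≤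
      ((K ^ D) ^ J * c2 + (J * (K ^ D) ^ J * c1) * K ^ D) * e := by
    intro b hb
    have hbD : b ≤ D := by omega
    have hf1 : (1 : ℝ) ≤ (b.factorial : ℕ) := by exact_mod_cast Nat.factorial_pos _
    have hKb : K ^ b ≤ K ^ D := pow_le_pow_right₀ hK1 hbD
    have hg : |μt ^ b / (b.factorial : ℕ)| ≤ K ^ D := by
      rw [abs_of_nonneg (by positivity)]
      calc μt ^ b / (b.factorial : ℕ) ≤ μt ^ b := div_le_self (by positivity) hf1
        _ ≤ K ^ b := pow_le_pow_left₀ hμt0 hμtK _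
        _ ≤ K ^ D := hKb
    rw [TG_eq I r b κ Z hZ]
    have hR : ∀ R ∈ ch (fun j => Z ∩ I j) r, |es κ (Z \ UU R) b - μt ^ b / (b.factorial : ℕ)| ≤ c2 * e := by
      intro R hR
      have hUZ : UU R ⊆ Z := by
        unfold UU
        intro x hx
        rw [mem_biUnion] at hx
        obtain ⟨j, _, hj⟩ := hx
        exact (mem_inter.1 (((mem_ch.1 hR) j).1 hj)).1
      have hUc : (UU R).card = ∑ j, r j := UU_card hdZ hR
      have hs1 := sum_sdiff hUZ (f := κ)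
      have hs2 : ∑ n ∈ UU R, κ n ≤ D * e := by
        calc ∑ n ∈ UU R, κ n ≤ ∑ _n ∈ UU R, e := sum_le_sum fun n hn => hκe n (hUZ hn)
          _ = ((∑ j, r j : ℕ) : ℝ) * e := by rw [sum_const, hUc, nsmul_eq_mul]
          _ ≤ D * e := by
              have : ((∑ j, r j : ℕ) : ℝ) ≤ D := by exact_mod_cast (by omega : ∑ j, r j ≤ D)
              gcongr
      have hs3 : 0 ≤ ∑ n ∈ UU R, κ n := sum_nonneg fun n _ => hκ0 n
      have hs4 : 0 ≤ ∑ n ∈ Z \ UU R, κ n := sum_nonneg fun n _ => hκ0 n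
      have hs5 : ∑ n ∈ Z \ UU R, κ n ≤ K := by linarith
      have hs6 : |∑ n ∈ Z \ UU R, κ n - μt| ≤ (J + D) * e := by
        have : 0 ≤ (J : ℝ) * e := by positivity
        rw [abs_le]
        constructor <;> linarith
      have h1 := es_close κ hκ0 (Z \ UU R) e K (fun n hn => hκe n (mem_sdiff.1 hn).1) he0 hK1 hs5 b
      have h2 := pow_close (∑ n ∈ Z \ UU R, κ n) μt K ((J + D) * e) b hK1 (by rw [abs_of_nonneg hs4]; exact hs5)
        (by rw [abs_of_nonneg hμt0]; exact hμtK) hs6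
      have h3 : |(∑ n ∈ Z \ UU R, κ n) ^ b / (b.factorial : ℕ) - μt ^ b / (b.factorial : ℕ)| ≤ b * K ^ b * ((J + D) * e) := by
        rw [← sub_div, abs_div, abs_of_pos (show (0 : ℝ) < (b.factorial : ℕ) by linarith)]
        exact (div_le_self (abs_nonneg _) hf1).trans h2
      have q1 : (b : ℝ) ≤ D := by exact_mod_cast hbD
      calc |es κ (Z \ UU R) b - μt ^ b / (b.factorial : ℕ)| ≤
            |es κ (Z \ UU R) b - (∑ n ∈ Z \ UU R, κ n) ^ b / (b.factorial : ℕ)| +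
            |(∑ n ∈ Z \ UU R, κ n) ^ b / (b.factorial : ℕ) - μt ^ b / (b.factorial : ℕ)| := abs_sub_le _ _ _
        _ ≤ b * K ^ b * e + b * K ^ b * ((J + D) * e) := add_le_add h1 h3
        _ ≤ D * K ^ D * e + D * K ^ D * ((J + D) * e) := by gcongr
        _ = c2 * e := by rw [hc2]; ring
    have e1 : ∑ R ∈ ch (fun j => Z ∩ I j) r, (∏ n ∈ UU R, κ n) * es κ (Z \ UU R) b - Pi0 r μ * (μt ^ b / (b.factorial : ℕ)) =
        ∑ R ∈ ch (fun j => Z ∩ I j) r, (∏ n ∈ UU R, κ n) * (es κ (Z \ UU R) b - μt ^ b / (b.factorial : ℕ)) +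
        (∑ R ∈ ch (fun j => Z ∩ I j) r, ∏ n ∈ UU R, κ n - Pi0 r μ) * (μt ^ b / (b.factorial : ℕ)) := by
      simp only [mul_sub, sum_sub_distrib, ← sum_mul, sub_mul]
      ring
    rw [e1]
    refine (abs_add_le _ _).trans ?_
    have hP0 : ∀ R : Fin J → Finset ℕ, 0 ≤ ∏ n ∈ UU R, κ n := fun R => prod_nonneg fun n _ => hκ0 n
    have h4 : |∑ R ∈ ch (fun j => Z ∩ I j) r, (∏ n ∈ UU R, κ n) * (es κ (Z \ UU R) b - μt ^ b / (b.factorial : ℕ))| ≤
        (K ^ D) ^ J * (c2 * e) := by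
      refine (abs_sum_le_sum_abs _ _).trans ?_
      calc ∑ R ∈ ch (fun j => Z ∩ I j) r, |(∏ n ∈ UU R, κ n) * (es κ (Z \ UU R) b - μt ^ b / (b.factorial : ℕ))| ≤
            ∑ R ∈ ch (fun j => Z ∩ I j) r, (∏ n ∈ UU R, κ n) * (c2 * e) := by
            apply sum_le_sum
            intro R hR'
            rw [abs_mul, abs_of_nonneg (hP0 R)]
            exact mul_le_mul_of_nonneg_left (hR R hR') (hP0 R)
        _ = (∑ R ∈ ch (fun j => Z ∩ I j) r, ∏ n ∈ UU R, κ n) * (c2 * e) := by rw [sum_mul]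
        _ ≤ (K ^ D) ^ J * (c2 * e) := by
            apply mul_le_mul_of_nonneg_right _ (by positivity)
            exact (le_abs_self _).trans p2
    have h5 : |(∑ R ∈ ch (fun j => Z ∩ I j) r, ∏ n ∈ UU R, κ n - Pi0 r μ) * (μt ^ b / (b.factorial : ℕ))| ≤
        (J * (K ^ D) ^ J * (c1 * e)) * K ^ D := by
      rw [abs_mul]
      unfold Pi0
      gcongr
    calc _ ≤ (K ^ D) ^ J * (c2 * e) + (J * (K ^ D) ^ J * (c1 * e)) * K ^ D := add_le_add h4 h5
      _ = _ := by ring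
  -- the sum
  unfold MG Sm
  rw [mul_sum, ← sum_sub_distrib]
  refine (abs_sum_le_sum_abs _ _).trans ?_
  have h6 : ∀ b ∈ range (m + 1), |(-1 : ℝ) ^ b * TG I r (Gz κ Z) b - Pi0 r μ * ((-1 : ℝ) ^ b * (μt ^ b / (b.factorial : ℕ)))| ≤
      ((K ^ D) ^ J * c2 + (J * (K ^ D) ^ J * c1) * K ^ D) * e := by
    intro b hb
    rw [mem_range] at hb
    have e2 : (-1 : ℝ) ^ b * TG I r (Gz κ Z) b - Pi0 r μ * ((-1 : ℝ) ^ b * (μt ^ b / (b.factorial : ℕ))) =
        (-1 : ℝ) ^ b * (TG I r (Gz κ Z) b - Pi0 r μ * (μt ^ b / (b.factorial : ℕ))) := by ring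
    rw [e2, abs_mul, abs_pow, abs_neg, abs_one, one_pow, one_mul]
    exact hterm b (by omega)
  refine (sum_le_sum h6).trans ?_
  rw [sum_const, card_range, nsmul_eq_mul]
  have h7 : ((m + 1 : ℕ) : ℝ) ≤ D + 1 := by
    have : m + 1 ≤ D + 1 := by omega
    exact_mod_cast this
  calc ((m + 1 : ℕ) : ℝ) * (((K ^ D) ^ J * c2 + (J * (K ^ D) ^ J * c1) * K ^ D) * e) ≤
        (D + 1) * (((K ^ D) ^ J * c2 + (J * (K ^ D) ^ J * c1) * K ^ D) * e) := by gcongr
    _ = _ := by ring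

end Pool.Agent.K1H89.LD
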