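import Mathlib
import Pool.Agent.K1H89.LD.B7
import Pool.Agent.K1H89.LD.B9

/-! The law of the number of prime values for large degrees. -/

set_option autoImplicit false

namespace Pool.Agent.K1H89.LD

open Finset Filter
open Pool.Agent.K1H89.PL
open Pool.Agent.TH445.OI (evN ev_pow)

/-- weighted counting in a periodic set -/
lemma wcount (P : ℕ → Prop) [DecidablePred P] (W : ℕ) (hW : 1 ≤ W) (hP : ∀ n, P (n + W) ↔ P n) (κ : ℕ → ℝ)
    (hκ0 : ∀ n, 0 ≤ κ n) (hκ : ∀ n, κ (n + 1) ≤ κ n) (α β : ℕ) (hαβ : α ≤ β) :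
    |∑ n ∈ (Ioc α β).filter P, κ n - ((((range W).filter P).card : ℝ) / W) * ∑ n ∈ Ioc α β, κ n| ≤ κ (α + 1) * W := by
  obtain ⟨N, hN⟩ : ∃ N : ℝ, N = (((range W).filter P).card : ℝ) / W := ⟨_, rfl⟩
  rw [← hN]
  have hpart : ∀ t : ℕ, α ≤ t → t ≤ β → |∑ n ∈ Ioc α t, ((if P n then (1 : ℝ) else 0) - N)| ≤ W := by
    intro t ht _
    have h1 := interval_count P W hW hP α (t - α)
    rw [← hN] at h1
    have e1 : α + (t - α) = t := by omega
    rw [e1] at h1
    rw [sum_sub_distrib, ← sum_filter, sum_const, sum_const, Nat.card_Ioc, nsmul_eq_mul, nsmul_eq_mul, mul_one]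
    exact h1
  have e2 : ∑ n ∈ (Ioc α β).filter P, κ n - N * ∑ n ∈ Ioc α β, κ n = ∑ n ∈ Ioc α β, κ n * ((if P n then (1 : ℝ) else 0) - N) := by
    rw [sum_filter, mul_sum, ← sum_sub_distrib]
    apply sum_congr rfl
    intro n _
    split_ifs <;> ring
  rw [e2]
  have h1 := abel κ (fun n => (if P n then (1 : ℝ) else 0) - N) W α hκ0 hκ β hαβ
    (fun t h2 h3 => (le_abs_self _).trans (hpart t h2 h3))
  have h2 := abel κ (fun n => -((if P n then (1 : ℝ) else 0) - N)) W α hκ0 hκ β hαβ (fun t h2 h3 => by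
    rw [sum_neg_distrib]
    exact (neg_le_abs _).trans (hpart t h2 h3))
  have e3 : ∑ n ∈ Ioc α β, κ n * -((if P n then (1 : ℝ) else 0) - N) = -∑ n ∈ Ioc α β, κ n * ((if P n then (1 : ℝ) else 0) - N) := by
    rw [← sum_neg_distrib]
    apply sum_congr rfl
    intro n _
    ring
  rw [e3] at h2
  rw [abs_le]
  constructor <;> linarith

open Classical in
theorem main2 (s J B : ℕ) (hs : 1 ≤ s) (hB : 1 ≤ B) (K ε : ℝ) (hK : 0 ≤ K) (hε : 0 < ε) : ∃ (C D : ℕ), ∀ lam : ℝ, 0 ≤ lam →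
    ∃ w0 : ℕ, ∀ w : ℕ, w0 ≤ w → ∃ L0 : ℝ, ∀ (L : ℝ) (d H : Fin s → ℕ), L0 ≤ L → (∀ i, D ≤ d i + 1) → (∀ i, 1 ≤ H i) →
    (∀ i, L ≤ Real.log (H i) + d i) → (∀ i, (Real.log (H i) + d i) ^ C ≤ H i) →
    ∀ (v : Fin s → ℕ → ℤ) (g : ∀ i, Fin (d i + 1) → ℤ) (α β : Fin J → ℕ),
    (∀ i, ∀ n : ℕ, v i (n + primorial w) ≡ v i n [ZMOD primorial w]) → (∀ j, 1 ≤ α j) → (∀ j, α j ≤ β j) →
    (∀ j, (β j : ℝ) ≤ L ^ B) →
    (∀ i, ∀ n ∈ XX α β, |((v i n : ℤ) : ℝ)| ≤ (H i * (n : ℝ) ^ (d i)) * (Real.log (H i) + d i) ^ B) →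
    ((univ : Finset (Fin J)) : Set (Fin J)).PairwiseDisjoint (fun j => Ioc (α j) (β j)) →
    ∑ n ∈ XX α β, 1 / lw d H n ≤ lam →
    ∀ μ : Fin J → ℝ, (∀ j, μ j = (rho (primorial w) ^ s * ((((range (primorial w)).filter (fun n => okn2 v g (primorial w) n)).card : ℝ) /
      primorial w)) * ∑ n ∈ Ioc (α j) (β j), 1 / lw d H n) → ∑ j, μ j ≤ K → ∀ r : Fin J → ℕ,
    |(((fam2 d H (primorial w) g).filter (fun a => ∀ j,
        ((Ioc (α j) (β j)).filter (fun n => ∀ i, (pv (v i) (a i) n).natAbs.Prime)).card = r j)).card : ℝ) /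
        (fam2 d H (primorial w) g).card - Real.exp (-(∑ j, μ j)) * Pi0 r μ| ≤ ε := by
  obtain ⟨D, hD⟩ : ∃ D : ℕ, 4 * Real.exp (4 * K) / ε < 2 ^ D := pow_unbounded_of_one_lt _ (by norm_num)
  have hDε : Real.exp (4 * K) / 2 ^ D ≤ ε / 4 := by
    rw [div_lt_iff₀ hε] at hD
    rw [div_le_div_iff₀ (by positivity) (by norm_num)]
    linarith
  obtain ⟨CC, hL1w⟩ := L1w s D B J hs hB
  refine ⟨CC + 1, D, fun lam hlam => ?_⟩
  obtain ⟨ε1, hε1⟩ : ∃ ε1 : ℝ, ε1 = ε / (8 * ((D + 1) * 2 ^ D)) := ⟨_, rfl⟩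
  have hε10 : 0 < ε1 := by rw [hε1]; positivity
  obtain ⟨w0, hw0⟩ := hL1w lam ε1 hlam hε10
  refine ⟨w0, fun w hw => ?_⟩
  obtain ⟨L1, h1⟩ := hw0 w hw
  obtain ⟨W, hW⟩ : ∃ W, W = primorial w := ⟨_, rfl⟩
  have hW1 : 1 ≤ W := by rw [hW]; exact primorial_pos w
  have hW0 : (0 : ℝ) < W := by exact_mod_cast hW1
  have hρ1 : 1 ≤ rho W := rho_ge hW1
  obtain ⟨C, hC0, hC⟩ := MG_close J D K hK
  refine ⟨max (max L1 W) (max (2 * rho W * (W + 1) * (8 * (C + 1) / ε + 1)) 1),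
    fun L d H hLL hDd hH hLi hHC' v g α β hper hα hαβ hβ hv hd hN μ hμ hμK r => ?_⟩
  have hLa1 : L1 ≤ L := (le_max_left _ _).trans ((le_max_left _ _).trans hLL)
  have hLW : (W : ℝ) ≤ L := (le_max_right _ _).trans ((le_max_left _ _).trans hLL)
  have hLa : 2 * rho W * (W + 1) * (8 * (C + 1) / ε + 1) ≤ L := (le_max_left _ _).trans ((le_max_right _ _).trans hLL)
  have hL1 : 1 ≤ L := (le_max_right _ _).trans ((le_max_right _ _).trans hLL)
  have hL0 : 0 < L := by linarith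
  have hHC : ∀ i, (Real.log (H i) + d i) ^ CC ≤ H i := fun i =>
    (pow_le_pow_right₀ (hL1.trans (hLi i)) (Nat.le_succ CC)).trans (hHC' i)
  have hWH : ∀ i, W ≤ H i := fun i => by
    have h2 : (Real.log (H i) + d i) ≤ (Real.log (H i) + d i) ^ (CC + 1) := le_self_pow₀ (hL1.trans (hLi i)) (by omega)
    have h3 : (W : ℝ) ≤ H i := hLW.trans ((hLi i).trans (h2.trans (hHC' i)))
    exact_mod_cast h3
  have hc1 := h1 L d H hLa1 hH hLi hHC v g α β hα hβ hv hd hN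
  rw [← hW] at hc1 hper hμ ⊢
  obtain ⟨κ, hκ⟩ : ∃ κ : ℕ → ℝ, κ = kp d H W := ⟨_, rfl⟩
  have hκ0 : ∀ n, 0 ≤ κ n := fun n => by rw [hκ]; exact kp_nonneg d H W n L hL0 hLi
  have hκa : ∀ n, κ (n + 1) ≤ κ n := fun n => by rw [hκ]; exact kp_anti d H W n L hL0 hLi
  obtain ⟨κm, hκm⟩ : ∃ κm : ℝ, κm = rho W ^ s / (L / 2) ^ s := ⟨_, rfl⟩
  have hκm1 : ∀ n, κ n ≤ κm := fun n => by rw [hκ, hκm]; exact kp_le d H W n L hL0 hLi
  have hκm0 : 0 ≤ κm := (hκ0 0).trans (hκm1 0)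
  -- the size of `e`
  obtain ⟨q, hq⟩ : ∃ q : ℝ, q = rho W / (L / 2) := ⟨_, rfl⟩
  have hq0 : 0 < q := by rw [hq]; positivity
  have hκq : κm = q ^ s := by rw [hκm, hq, div_pow (rho W)]
  have hρL : q * (W + 1) * (8 * (C + 1) / ε + 1) ≤ 1 := by
    have : q * (W + 1) * (8 * (C + 1) / ε + 1) = 2 * rho W * (W + 1) * (8 * (C + 1) / ε + 1) / L := by
      rw [hq]
      field_simp
    rw [this, div_le_one hL0]
    exact hLa
  have hq1 : (1 : ℝ) ≤ 8 * (C + 1) / ε + 1 := by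
    have : (0 : ℝ) ≤ 8 * (C + 1) / ε := by positivity
    linarith
  have hqle : q ≤ 1 := by
    have h3 : q * 1 * 1 ≤ q * (W + 1) * (8 * (C + 1) / ε + 1) := by
      have : (1 : ℝ) ≤ W + 1 := by linarith
      gcongr
    linarith
  have hκmq : κm ≤ q := by
    rw [hκq]
    exact pow_le_of_le_one hq0.le hqle (by omega)
  obtain ⟨e, he⟩ : ∃ e : ℝ, e = κm * (W + 1) := ⟨_, rfl⟩
  have he0 : 0 ≤ e := by rw [he]; positivity
  have heb : e * (8 * (C + 1) / ε + 1) ≤ 1 := by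
    rw [he]
    calc κm * (W + 1) * (8 * (C + 1) / ε + 1) ≤ q * (W + 1) * (8 * (C + 1) / ε + 1) := by gcongr
      _ ≤ 1 := hρL
  have he1 : e ≤ 1 := by nlinarith
  have heC : C * e ≤ ε / 8 := by
    have h3 : e * (8 * (C + 1) / ε) ≤ 1 := by nlinarith
    have h4 : e * (8 * (C + 1) / ε) = (8 * (C + 1) * e) / ε := by ring
    rw [h4, div_le_one hε] at h3
    nlinarith
  have hκe : κm ≤ e := by
    rw [he]
    nlinarith
  have hκWe : κm * W ≤ e := by
    rw [he]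
    nlinarith
  -- the intervals
  set I : Fin J → Finset ℕ := fun j => Ioc (α j) (β j) with hI
  have hXI : XX α β = univ.biUnion I := rfl
  rw [hXI] at hc1
  have hX2 : ∀ n ∈ univ.biUnion I, 2 ≤ n := by
    intro n hn
    rw [mem_biUnion] at hn
    obtain ⟨j, _, hj⟩ := hn
    rw [hI, mem_Ioc] at hj
    have := hα j
    omega
  have hκX : ∀ n ∈ univ.biUnion I, κ n = rho W ^ s / lw d H n := fun n hn => by rw [hκ]; exact kp_eq d H W (hX2 n hn)
  obtain ⟨Z, hZ⟩ : ∃ Z, Z = (univ.biUnion I).filter (fun n => okn2 v g W n) := ⟨_, rfl⟩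
  have hZsub : Z ⊆ univ.biUnion I := by rw [hZ]; exact filter_subset _ _
  obtain ⟨T, hT⟩ : ∃ T : (∀ i, Fin (d i + 1) → ℤ) → Finset ℕ, T = fun a => (univ.biUnion I).filter
    (fun n => ∀ i, (pv (v i) (a i) n).natAbs.Prime) := ⟨_, rfl⟩
  have hTsub : ∀ a, T a ⊆ univ.biUnion I := fun a => by rw [hT]; exact filter_subset _ _
  have hIsub : ∀ j, I j ⊆ univ.biUnion I := fun j => subset_biUnion_of_mem I (mem_univ j)
  have hZI : ∀ j, Z ∩ I j = (I j).filter (fun n => okn2 v g W n) := by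
    intro j
    ext n
    rw [hZ, mem_inter, mem_filter, mem_filter]
    exact ⟨fun h => ⟨h.2, h.1.2⟩, fun h => ⟨⟨hIsub j h.1, h.2⟩, h.1⟩⟩
  -- periodicity
  have hokper : ∀ n, okn2 v g W (n + W) ↔ okn2 v g W n := by
    intro n
    unfold okn2
    apply forall_congr'
    intro i
    apply cop_congr
    unfold pv
    apply Int.ModEq.add (hper i n)
    apply Int.ModEq.sum
    intro j _
    apply Int.ModEq.mul_left
    apply Int.ModEq.pow
    push_cast
    exact Int.add_modEq_right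
  set NW : ℝ := (((range W).filter (fun n => okn2 v g W n)).card : ℝ) / W with hNW
  have hNW0 : 0 ≤ NW := by positivity
  have hμ2 : ∀ j, μ j = NW * ∑ n ∈ I j, κ n := by
    intro j
    rw [hμ j, mul_comm (rho W ^ s), mul_assoc, mul_sum]
    congr 1
    apply sum_congr rfl
    intro n hn
    rw [hκX n (hIsub j hn)]
    ring
  have hμ0 : ∀ j, 0 ≤ μ j := by
    intro j
    rw [hμ2 j]
    exact mul_nonneg hNW0 (sum_nonneg fun n _ => hκ0 n)
  have hcnt : ∀ j, |∑ n ∈ Z ∩ I j, κ n - μ j| ≤ e := by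
    intro j
    rw [hZI j, hμ2 j]
    have h3 := wcount (fun n => okn2 v g W n) W hW1 hokper κ hκ0 hκa (α j) (β j) (hαβ j)
    refine h3.trans (le_trans ?_ hκWe)
    have := hκm1 (α j + 1)
    gcongr
  have hL1' : ∀ k ≤ D, ∑ A ∈ powersetCard k (univ.biUnion I),
      |(((fam2 d H W g).filter (fun a => A ⊆ T a)).card : ℝ) / (fam2 d H W g).card - Gz κ Z A| ≤ ε1 := by
    intro k hk
    refine le_trans (le_of_eq ?_) (hc1 k hk (fun i => hk.trans (hDd i)))
    apply sum_congr rfl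
    intro A hA
    rw [mem_powersetCard] at hA
    have e1 : (fam2 d H W g).filter (fun a => A ⊆ T a) = (fam2 d H W g).filter (fun a => allp2 v a A) := by
      apply filter_congr
      intro a _
      rw [hT]
      unfold allp2
      constructor
      · intro h i n hn
        exact (mem_filter.1 (h hn)).2 i
      · intro h n hn
        rw [mem_filter]
        exact ⟨hA.1 hn, fun i => h i n hn⟩
    have e2 : (A ⊆ Z) ↔ (∀ n ∈ A, okn2 v g W n) := by
      rw [hZ]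
      constructor
      · intro h n hn
        exact (mem_filter.1 (h hn)).2
      · intro h n hn
        rw [mem_filter]
        exact ⟨hA.1 hn, h n hn⟩
    unfold PA2 Gz
    rw [e1, prod_congr rfl (fun n hn => hκX n (hA.1 hn))]
    simp only [e2]
  have hS : 0 < (fam2 d H W g).card := by
    unfold fam2
    rw [Fintype.card_piFinset]
    exact prod_pos fun i _ => box_pos (d i) (H i) W (g i) hW1 (hWH i)
  obtain ⟨p, hp⟩ : ∃ p : ℝ, p = (((fam2 d H W g).filter (fun a => ∀ j, (T a ∩ I j).card = r j)).card : ℝ) / (fam2 d H W g).card :=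
    ⟨_, rfl⟩
  have hpe : (((fam2 d H W g).filter (fun a => ∀ j,
        ((Ioc (α j) (β j)).filter (fun n => ∀ i, (pv (v i) (a i) n).natAbs.Prime)).card = r j)).card : ℝ) /
        (fam2 d H W g).card = p := by
    rw [hp]
    congr 3
    ext a
    rw [mem_filter, mem_filter]
    apply and_congr_right
    intro _
    apply forall_congr'
    intro j
    have : T a ∩ I j = (Ioc (α j) (β j)).filter (fun n => ∀ i, (pv (v i) (a i) n).natAbs.Prime) := by
      ext n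
      rw [hT, mem_inter, mem_filter, mem_filter]
      exact ⟨fun h => ⟨h.2, h.1.2⟩, fun h => ⟨⟨hIsub j h.1, h.2⟩, h.1⟩⟩
    rw [this]
  rw [hpe]
  have hp0 : 0 ≤ p := by rw [hp]; positivity
  have hPi : ∀ r : Fin J → ℕ, 0 ≤ Pi0 r μ := by
    intro r
    unfold Pi0
    apply prod_nonneg
    intro j _
    have := hμ0 j
    positivity
  have hμt0 : 0 ≤ ∑ j, μ j := sum_nonneg fun j _ => hμ0 j
  have hexpK : Real.exp (4 * ∑ j, μ j) ≤ Real.exp (4 * K) := Real.exp_le_exp.2 (by linarith)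
  have h2D : (0 : ℝ) < 2 ^ D := by positivity
  have htail : ∀ n : ℕ, D ≤ n → Real.exp (4 * ∑ j, μ j) / 2 ^ n ≤ ε / 4 := by
    intro n hn
    refine le_trans ?_ hDε
    have : (2 : ℝ) ^ D ≤ 2 ^ n := pow_le_pow_right₀ (by norm_num) hn
    gcongr
  have hε1D : ((D : ℝ) + 1) * (2 ^ D * ε1) = ε / 8 := by
    rw [hε1]
    field_simp
  have hclose : ∀ (r : Fin J → ℕ) (k : ℕ), ∑ j, r j + k ≤ D → |MG I r (Gz κ Z) k - Pi0 r μ * Sm k (∑ j, μ j)| ≤ ε / 8 := by
    intro r k hk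
    exact (hC I r κ e Z k μ hk hd hZsub hκ0 (fun n _ => (hκm1 n).trans hκe) he0 he1 hμ0 hμK hcnt).trans heC
  rcases le_or_gt (∑ j, r j) D with hrD | hrD
  · have hfin := poisson_cmp (D - ∑ j, r j) p (Pi0 r μ) (∑ j, μ j) (ε / 8) (fun k => MG I r (Gz κ Z) k) hp0 (hPi r)
      hμt0 (by positivity) (by
        intro k hk
        have h3 := bonf2 (fam2 d H W g) hS I r hd T hTsub (Gz κ Z) ε1 D hL1' k (by omega)
        rw [← hp] at h3
        refine le_trans ?_ h3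
        have hkD : (k : ℝ) + 1 ≤ D + 1 := by
          have : k ≤ D := by omega
          have : (k : ℝ) ≤ D := by exact_mod_cast this
          linarith
        have h4 : ((k : ℝ) + 1) * (2 ^ D * ε1) ≤ (D + 1) * (2 ^ D * ε1) := by gcongr
        linarith) (by
        intro k hk
        exact hclose r k (by omega))
    have h5 := tail_bound r μ (D - ∑ j, r j) hμ0
    have h6 : ∑ j, r j + (D - ∑ j, r j) = D := by omega
    rw [h6] at h5
    have h7 := htail D le_rfl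
    linarith
  · obtain ⟨r', hr1, hr2⟩ := exists_smaller D (∑ j, r j - D) r (by omega)
    have h3 := bonf0 (fam2 d H W g) hS I r r' hr1 hd T hTsub (Gz κ Z) ε1 D hL1' hr2.le
    rw [← hp] at h3
    have h4 := (abs_le.1 (hclose r' 0 (by omega))).2
    have h5 : Sm 0 (∑ j, μ j) = 1 := by unfold Sm; simp
    rw [h5, mul_one] at h4
    have h6 := tail_bound r' μ 0 hμ0
    rw [hr2, pow_zero, Nat.factorial_zero, Nat.cast_one, div_one, mul_one] at h6
    have h7 := htail (D + 0) (by omega)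
    have h8 := tail_bound r μ 0 hμ0
    rw [pow_zero, Nat.factorial_zero, Nat.cast_one, div_one, mul_one] at h8
    have h9 := htail (∑ j, r j + 0) (by omega)
    have h10 : 2 ^ D * ε1 ≤ ε / 8 := by
      have : 0 ≤ (D : ℝ) * (2 ^ D * ε1) := by positivity
      linarith
    have h11 : Real.exp (-(∑ j, μ j)) * Pi0 r μ ≤ 1 * Pi0 r μ := by
      apply mul_le_mul_of_nonneg_right _ (hPi r)
      exact Real.exp_le_one_iff.2 (by linarith)
    have h12 : 0 ≤ Real.exp (-(∑ j, μ j)) * Pi0 r μ := mul_nonneg (Real.exp_pos _).le (hPi r)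
    rw [abs_le]
    constructor <;> linarith

end Pool.Agent.K1H89.LD
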