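import Mathlib
import Pool.Agent.K1H89.LD.B10

/-! Systems of polynomials of large degrees: the link with the general statement. -/

set_option autoImplicit false

namespace Pool.Agent.K1H89.LD

open Finset Polynomial Filter
open Pool.Agent.K1H89.PL
open Pool.Agent.TH445.OI (evN ev_pow)

/-- the system -/
noncomputable def sys2 {s : ℕ} {d : Fin s → ℕ} (h : Fin s → ℤ[X]) (a : ∀ i, Fin (d i + 1) → ℤ) (i : Fin s) : ℤ[X] :=
  h i + ∑ j, C (a i j) * X ^ (j : ℕ)

lemma sys2_eval {s : ℕ} {d : Fin s → ℕ} (h : Fin s → ℤ[X]) (a : ∀ i, Fin (d i + 1) → ℤ) (i : Fin s) (n : ℕ) :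
    (sys2 h a i).eval (n : ℤ) = pv (fun n => (h i).eval (n : ℤ)) (a i) n := by
  unfold sys2 pv
  rw [eval_add, eval_finsetSum]
  congr 1
  apply sum_congr rfl
  intro j _
  simp

open Classical in
lemma const_eq2 {s : ℕ} {d : Fin s → ℕ} (h : Fin s → ℤ[X]) (g : ∀ i, Fin (d i + 1) → ℤ) (w : ℕ) :
    ∏ p ∈ prN w, (1 - ((((Icc 1 p).filter (fun n : ℕ => (p : ℤ) ∣ ∏ i, (sys2 h g i).eval (n : ℤ))).card : ℕ) : ℝ) / p) /
      (1 - 1 / (p : ℝ)) ^ s =
    rho (primorial w) ^ s * ((((range (primorial w)).filter (fun n => okn2 (fun i n => (h i).eval (n : ℤ)) g (primorial w) n)).card : ℝ) /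
      primorial w) := by
  have h1 := primes_count (fun n : ℕ => ∏ i, (sys2 h g i).eval (n : ℤ)) (by
    intro p hp x
    rw [(Nat.prime_iff_prime_int.1 hp).dvd_finsetProd_iff, (Nat.prime_iff_prime_int.1 hp).dvd_finsetProd_iff]
    apply exists_congr
    intro i
    apply and_congr_right
    intro _
    have := eval_period (sys2 h g i) x p
    exact this.dvd_iff) (prN w) (fun p hp => (mem_prN.1 hp).2)
  have h2 : (range (primorial w)).filter (fun n => okn2 (fun i n => (h i).eval (n : ℤ)) g (primorial w) n) =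
      (range (∏ p ∈ prN w, p)).filter (fun x : ℕ => ∀ p ∈ prN w, ¬ (p : ℤ) ∣ ∏ i, (sys2 h g i).eval (x : ℤ)) := by
    rw [← primorial_eq]
    apply filter_congr
    intro n _
    unfold okn2
    constructor
    · intro hn p hp hd
      rw [mem_prN] at hp
      rw [(Nat.prime_iff_prime_int.1 hp.2).dvd_finsetProd_iff] at hd
      obtain ⟨i, _, hi⟩ := hd
      rw [sys2_eval] at hi
      have h3 := hn i
      have h4 : (p : ℤ) ∣ (primorial w : ℤ) := by exact_mod_cast (Nat.Prime.dvd_primorial_iff hp.2).2 hp.1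
      obtain ⟨x, y, hxy⟩ := h3
      have h5 : (p : ℤ) ∣ 1 := by
        rw [← hxy]
        exact dvd_add (hi.mul_left _) (h4.mul_left _)
      have h6 : p ∣ 1 := by exact_mod_cast h5
      exact hp.2.one_lt.ne' (Nat.dvd_one.1 h6)
    · intro hn i
      rw [Int.isCoprime_iff_gcd_eq_one]
      by_contra hcon
      obtain ⟨p, hp, hpd⟩ := Nat.exists_prime_and_dvd hcon
      have hp1 : (p : ℤ) ∣ pv (fun n => (h i).eval (n : ℤ)) (g i) n :=
        (Int.natCast_dvd_natCast.2 hpd).trans (Int.gcd_dvd_left _ _)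
      have hp2 : (p : ℤ) ∣ ((primorial w : ℕ) : ℤ) := (Int.natCast_dvd_natCast.2 hpd).trans (Int.gcd_dvd_right _ _)
      have hp3 : p ∣ primorial w := by exact_mod_cast hp2
      apply hn p (mem_prN.2 ⟨(Nat.Prime.dvd_primorial_iff hp).1 hp3, hp⟩)
      rw [← sys2_eval] at hp1
      exact hp1.trans (dvd_prod_of_mem _ (mem_univ i))
  rw [← primorial_eq] at h1 h2
  rw [h2, h1, rho_primorial, prod_div_distrib, ← prod_pow, mul_comm]
  rw [div_eq_mul_inv, ← prod_inv_distrib]
  congr 1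
  apply prod_congr rfl
  intro p _
  rw [inv_pow]

/-- the condition on the heights -/
lemma height (C : ℕ) : ∃ d0 : ℕ, ∀ d H : ℕ, d0 ≤ d → d ^ (C + 1) ≤ H → 1 ≤ H ∧ (Real.log H + d) ^ C ≤ H := by
  obtain ⟨H1, h1⟩ := evN _ (ev_pow C (2 ^ C) 1 one_pos)
  refine ⟨max H1 (2 ^ C), fun d H hd hH => ?_⟩
  have hd1 : H1 ≤ d := (le_max_left _ _).trans hd
  have hd2 : 2 ^ C ≤ d := (le_max_right _ _).trans hd
  have hdpos : 1 ≤ d := (Nat.one_le_two_pow).trans hd2
  have hdH : d ≤ H := (Nat.le_self_pow (by omega) d).trans hH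
  have hH1 : 1 ≤ H := hdpos.trans hdH
  refine ⟨hH1, ?_⟩
  have h2 := h1 H (hd1.trans hdH)
  rw [Real.rpow_one] at h2
  have hl0 : 0 ≤ Real.log H := Real.log_natCast_nonneg H
  have hd0 : (0 : ℝ) ≤ d := Nat.cast_nonneg _
  rcases le_total (Real.log H) d with hle | hle
  · calc (Real.log H + d) ^ C ≤ (2 * d) ^ C := by
          apply pow_le_pow_left₀ (by positivity)
          linarith
      _ = 2 ^ C * (d : ℝ) ^ C := mul_pow _ _ _
      _ ≤ d * (d : ℝ) ^ C := by
          have : (2 : ℝ) ^ C ≤ d := by exact_mod_cast hd2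
          gcongr
      _ = ((d ^ (C + 1) : ℕ) : ℝ) := by push_cast; ring
      _ ≤ H := by exact_mod_cast hH
  · calc (Real.log H + d) ^ C ≤ (2 * Real.log H) ^ C := by
          apply pow_le_pow_left₀ (by positivity)
          linarith
      _ = 2 ^ C * Real.log H ^ C := mul_pow _ _ _
      _ ≤ H := h2

end Pool.Agent.K1H89.LD
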